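import Pool.Agent.TH867.SR.Cho

/-! Points of the projective line over the rationals and linear forms: sides, scales, light sets of
primes, near points, and the gap principle (helper867). -/

set_option autoImplicit false

namespace Pool.Agent.TH867.QF

open Finset
open Pool.Agent.TH867.SR

/-- `r` linear forms with integer coefficients, pairwise not proportional -/
structure Fm (r : ℕ) where
  /-- the first coefficients -/
  u : Fin r → ℤ
  /-- the second coefficients -/
  w : Fin r → ℤ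
  /-- pairwise not proportional -/
  res : ∀ i j, i ≠ j → u i * w j - u j * w i ≠ 0

variable {r : ℕ}

/-- the value of a form -/
def ev (L : Fm r) (P : ℤ × ℤ) (i : Fin r) : ℤ := L.u i * P.1 + L.w i * P.2

/-- the absolute value of a value -/
def va (L : Fm r) (P : ℤ × ℤ) (i : Fin r) : ℕ := (ev L P i).natAbs

/-- the resultants -/
def rs (L : Fm r) (i j : Fin r) : ℤ := L.u i * L.w j - L.u j * L.w i

/-- the product of all the resultants -/
def Rs (L : Fm r) : ℕ := ∏ i, ∏ j, if i = j then 1 else (rs L i j).natAbs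

/-- a bound for the coefficients -/
def U (L : Fm r) : ℕ := 1 + ∑ i, ((L.u i).natAbs + (L.w i).natAbs)

/-- the height -/
def ht (P : ℤ × ℤ) : ℕ := max P.1.natAbs P.2.natAbs

/-- coprime coordinates, no form vanishes -/
structure Pt (L : Fm r) (P : ℤ × ℤ) : Prop where
  cop : IsCoprime P.1 P.2
  ne : ∀ i, ev L P i ≠ 0

theorem Rs_pos (L : Fm r) : 0 < Rs L := by
  refine Finset.prod_pos fun i _ => Finset.prod_pos fun j _ => ?_
  by_cases h : i = j
  · rw [if_pos h]; exact Nat.one_pos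
  · rw [if_neg h]
    exact Int.natAbs_pos.2 (L.res i j h)

theorem rs_dvd (L : Fm r) {i j : Fin r} (h : i ≠ j) : (rs L i j).natAbs ∣ Rs L := by
  have h1 : (∏ j', if i = j' then 1 else (rs L i j').natAbs) ∣ Rs L :=
    Finset.dvd_prod_of_mem (fun i => ∏ j', if i = j' then 1 else (rs L i j').natAbs)
      (Finset.mem_univ i)
  refine dvd_trans ?_ h1
  have h2 := Finset.dvd_prod_of_mem (fun j' => if i = j' then 1 else (rs L i j').natAbs)
    (Finset.mem_univ j)
  rwa [if_neg h] at h2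

theorem U_pos (L : Fm r) : 0 < U L := by unfold U; omega

theorem coef_le (L : Fm r) (i : Fin r) : (L.u i).natAbs + (L.w i).natAbs ≤ U L := by
  unfold U
  have h := Finset.single_le_sum (f := fun i => (L.u i).natAbs + (L.w i).natAbs)
    (fun _ _ => Nat.zero_le _) (Finset.mem_univ i)
  have h' : (L.u i).natAbs + (L.w i).natAbs ≤ ∑ i, ((L.u i).natAbs + (L.w i).natAbs) := h
  omega

theorem coef_le2 (L : Fm r) {i j : Fin r} (h : i ≠ j) :
    ((L.u i).natAbs + (L.w i).natAbs) + ((L.u j).natAbs + (L.w j).natAbs) ≤ U L := by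
  unfold U
  have h1 := Finset.add_le_sum (f := fun i => (L.u i).natAbs + (L.w i).natAbs) (s := Finset.univ)
    (fun _ _ => Nat.zero_le _) (Finset.mem_univ i) (Finset.mem_univ j) h
  have h' : ((L.u i).natAbs + (L.w i).natAbs) + ((L.u j).natAbs + (L.w j).natAbs) ≤
    ∑ i, ((L.u i).natAbs + (L.w i).natAbs) := h1
  omega

theorem va_pos {L : Fm r} {P : ℤ × ℤ} (h : Pt L P) (i : Fin r) : 0 < va L P i :=
  Int.natAbs_pos.2 (h.ne i)

theorem cross1 (L : Fm r) (P : ℤ × ℤ) (i j : Fin r) :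
    rs L i j * P.1 = L.w j * ev L P i - L.w i * ev L P j := by
  unfold rs ev; ring

theorem cross2 (L : Fm r) (P : ℤ × ℤ) (i j : Fin r) :
    rs L i j * P.2 = L.u i * ev L P j - L.u j * ev L P i := by
  unfold rs ev; ring

/-- the linear relation between three forms -/
theorem lin3 (L : Fm r) (P : ℤ × ℤ) (A B C : Fin r) :
    rs L C A * ev L P B + rs L A B * ev L P C = - rs L B C * ev L P A := by
  unfold rs ev; ring

theorem va_le (L : Fm r) (P : ℤ × ℤ) (i : Fin r) : va L P i ≤ U L * ht P := by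
  have h1 : va L P i ≤ (L.u i).natAbs * P.1.natAbs + (L.w i).natAbs * P.2.natAbs := by
    unfold va ev
    refine (Int.natAbs_add_le _ _).trans ?_
    rw [Int.natAbs_mul, Int.natAbs_mul]
  have h2 : P.1.natAbs ≤ ht P := le_max_left _ _
  have h3 : P.2.natAbs ≤ ht P := le_max_right _ _
  calc va L P i ≤ (L.u i).natAbs * P.1.natAbs + (L.w i).natAbs * P.2.natAbs := h1
    _ ≤ (L.u i).natAbs * ht P + (L.w i).natAbs * ht P :=
      Nat.add_le_add (Nat.mul_le_mul_left _ h2) (Nat.mul_le_mul_left _ h3)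
    _ = ((L.u i).natAbs + (L.w i).natAbs) * ht P := by ring
    _ ≤ U L * ht P := Nat.mul_le_mul_right _ (coef_le L i)

theorem ht_le (L : Fm r) (P : ℤ × ℤ) {i j : Fin r} (h : i ≠ j) :
    ht P ≤ U L * max (va L P i) (va L P j) := by
  have hr : 1 ≤ (rs L i j).natAbs := Int.natAbs_pos.2 (L.res i j h)
  have hU := coef_le2 L h
  have hi : va L P i ≤ max (va L P i) (va L P j) := le_max_left _ _
  have hj : va L P j ≤ max (va L P i) (va L P j) := le_max_right _ _
  obtain ⟨M, hM⟩ : ∃ M, M = max (va L P i) (va L P j) := ⟨_, rfl⟩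
  rw [← hM] at hi hj ⊢
  have h1 : P.1.natAbs ≤ U L * M := by
    have e1 : (rs L i j).natAbs * P.1.natAbs ≤
        (L.w j).natAbs * va L P i + (L.w i).natAbs * va L P j := by
      rw [← Int.natAbs_mul, cross1]
      refine (Int.natAbs_sub_le _ _).trans ?_
      rw [Int.natAbs_mul, Int.natAbs_mul]
      rfl
    calc P.1.natAbs ≤ (rs L i j).natAbs * P.1.natAbs := Nat.le_mul_of_pos_left _ hr
      _ ≤ (L.w j).natAbs * va L P i + (L.w i).natAbs * va L P j := e1
      _ ≤ (L.w j).natAbs * M + (L.w i).natAbs * M :=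
        Nat.add_le_add (Nat.mul_le_mul_left _ hi) (Nat.mul_le_mul_left _ hj)
      _ = ((L.w j).natAbs + (L.w i).natAbs) * M := by ring
      _ ≤ U L * M := Nat.mul_le_mul_right _ (by omega)
  have h2 : P.2.natAbs ≤ U L * M := by
    have e1 : (rs L i j).natAbs * P.2.natAbs ≤
        (L.u i).natAbs * va L P j + (L.u j).natAbs * va L P i := by
      rw [← Int.natAbs_mul, cross2]
      refine (Int.natAbs_sub_le _ _).trans ?_
      rw [Int.natAbs_mul, Int.natAbs_mul]
      rfl
    calc P.2.natAbs ≤ (rs L i j).natAbs * P.2.natAbs := Nat.le_mul_of_pos_left _ hr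
      _ ≤ (L.u i).natAbs * va L P j + (L.u j).natAbs * va L P i := e1
      _ ≤ (L.u i).natAbs * M + (L.u j).natAbs * M :=
        Nat.add_le_add (Nat.mul_le_mul_left _ hj) (Nat.mul_le_mul_left _ hi)
      _ = ((L.u i).natAbs + (L.u j).natAbs) * M := by ring
      _ ≤ U L * M := Nat.mul_le_mul_right _ (by omega)
  exact max_le h1 h2

theorem ht_pos {L : Fm r} {P : ℤ × ℤ} (h : Pt L P) : 0 < ht P := by
  rw [Nat.pos_iff_ne_zero]
  intro h0
  have h1 : P.1 = 0 := by
    have : P.1.natAbs ≤ ht P := le_max_left _ _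
    rw [h0] at this
    exact Int.natAbs_eq_zero.1 (Nat.le_zero.1 this)
  have h2 : P.2 = 0 := by
    have : P.2.natAbs ≤ ht P := le_max_right _ _
    rw [h0] at this
    exact Int.natAbs_eq_zero.1 (Nat.le_zero.1 this)
  have hc := h.cop
  rw [h1, h2] at hc
  exact not_isCoprime_zero_zero hc

theorem dvd_rs {L : Fm r} {P : ℤ × ℤ} (h : Pt L P) {i j : Fin r} {d : ℤ} (hi : d ∣ ev L P i)
    (hj : d ∣ ev L P j) : d ∣ rs L i j := by
  have h1 : d ∣ rs L i j * P.1 := by
    rw [cross1]
    exact dvd_sub (hi.mul_left _) (hj.mul_left _)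
  have h2 : d ∣ rs L i j * P.2 := by
    rw [cross2]
    exact dvd_sub (hj.mul_left _) (hi.mul_left _)
  obtain ⟨x, y, hxy⟩ := h.cop
  have e : rs L i j = x * (rs L i j * P.1) + y * (rs L i j * P.2) := by
    linear_combination (- rs L i j) * hxy
  rw [e]
  exact dvd_add (h1.mul_left _) (h2.mul_left _)

/-- exponent of `q` in a value -/
def fv (L : Fm r) (P : ℤ × ℤ) (i : Fin r) (q : ℕ) : ℕ := (va L P i).factorization q

theorem fv_dvd (L : Fm r) (P : ℤ × ℤ) (i : Fin r) (q : ℕ) {m : ℕ} (hm : m ≤ fv L P i q) :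
    ((q ^ m : ℕ) : ℤ) ∣ ev L P i := by
  rw [Int.natCast_dvd]
  exact (pow_dvd_pow q hm).trans (Nat.ordProj_dvd _ _)

theorem min_fv {L : Fm r} {P : ℤ × ℤ} (h : Pt L P) {i j : Fin r} (hij : i ≠ j) {q : ℕ}
    (hq : q.Prime) : min (fv L P i q) (fv L P j q) ≤ (Rs L).factorization q := by
  have h1 := dvd_rs h (fv_dvd L P i q (min_le_left (fv L P i q) (fv L P j q)))
    (fv_dvd L P j q (min_le_right (fv L P i q) (fv L P j q)))
  have h2 : q ^ min (fv L P i q) (fv L P j q) ∣ Rs L := (Int.natCast_dvd.1 h1).trans (rs_dvd L hij)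
  exact (hq.pow_dvd_iff_le_factorization (Rs_pos L).ne').1 h2

section NZ

set_option linter.unusedSectionVars false

variable [NeZero r]

/-- the side of a prime -/
noncomputable def ty (L : Fm r) (P : ℤ × ℤ) (q : ℕ) : Fin r :=
  (Finset.exists_max_image (Finset.univ : Finset (Fin r)) (fun i => fv L P i q)
    ⟨0, Finset.mem_univ _⟩).choose

/-- the largest exponent of `q` in a value -/
noncomputable def vv (L : Fm r) (P : ℤ × ℤ) (q : ℕ) : ℕ := fv L P (ty L P q) q

theorem fv_le_vv (L : Fm r) (P : ℤ × ℤ) (i : Fin r) (q : ℕ) : fv L P i q ≤ vv L P q :=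
  (Finset.exists_max_image (Finset.univ : Finset (Fin r)) (fun i => fv L P i q)
    ⟨0, Finset.mem_univ _⟩).choose_spec.2 i (Finset.mem_univ i)

theorem fv_le_Rs {L : Fm r} {P : ℤ × ℤ} (h : Pt L P) {i : Fin r} {q : ℕ} (hq : q.Prime)
    (hi : ty L P q ≠ i) : fv L P i q ≤ (Rs L).factorization q := by
  have h1 := min_fv h hi hq
  have h2 : fv L P i q ≤ fv L P (ty L P q) q := fv_le_vv L P i q
  rwa [min_eq_right h2] at h1

/-- `l ≤ log ht ≤ (1 + 1/(4k)) l` -/
def Scale (k : ℕ) (l : ℝ) (P : ℤ × ℤ) : Prop :=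
  l ≤ Real.log (ht P) ∧ Real.log (ht P) ≤ (1 + 1 / (4 * k)) * l

/-- the primes of `S` carry more than the height and the value of the form `I` -/
def Light (L : Fm r) (k : ℕ) (S : Finset ℕ) (I : Fin r) (P : ℤ × ℤ) : Prop :=
  Real.log (va L P I) + (1 + 1 / (k : ℝ)) * Real.log (ht P) ≤
    ∑ q ∈ S, (vv L P q : ℝ) * Real.log q

/-- the primes of `S` have the same sides, with about the same exponents -/
structure Near1 (L : Fm r) (S : Finset ℕ) (δ : ℝ) (P P' : ℤ × ℤ) : Prop where
  side : ∀ q ∈ S, ty L P q = ty L P' q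
  dist : ∀ q ∈ S, |((vv L P q : ℝ) - vv L P' q) * Real.log q| ≤ δ
  sgn : ∀ i, 0 < ev L P i ↔ 0 < ev L P' i

theorem Near1.symm {L : Fm r} {S : Finset ℕ} {δ : ℝ} {P P' : ℤ × ℤ} (h : Near1 L S δ P P') :
    Near1 L S δ P' P := by
  refine ⟨fun q hq => (h.side q hq).symm, fun q hq => ?_, fun i => (h.sgn i).symm⟩
  have := h.dist q hq
  rw [← abs_neg]
  convert this using 2
  ring

/-- the constant of the forms -/
noncomputable def cL (L : Fm r) : ℝ := 2 * Real.log (Rs L) + 2 * Real.log (U L) + 1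

theorem cL_ge (L : Fm r) : 1 ≤ cL L := by
  unfold cL
  have h1 := Real.log_natCast_nonneg (Rs L)
  have h2 := Real.log_natCast_nonneg (U L)
  linarith

/-- the determinant -/
def dt (P P' : ℤ × ℤ) : ℤ := P.1 * P'.2 - P'.1 * P.2

theorem pow_min_dvd (L : Fm r) (hr : 2 ≤ r) (P P' : ℤ × ℤ) {q : ℕ}
    (hs : ty L P q = ty L P' q) :
    ((q ^ min (vv L P q) (vv L P' q) : ℕ) : ℤ) ∣ (Rs L : ℤ) * dt P P' := by
  obtain ⟨i, hi⟩ : ∃ i, i = ty L P q := ⟨_, rfl⟩
  have h1 : ((q ^ min (vv L P q) (vv L P' q) : ℕ) : ℤ) ∣ ev L P i := by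
    refine fv_dvd L P i q ?_
    rw [hi]; exact min_le_left _ _
  have h2 : ((q ^ min (vv L P q) (vv L P' q) : ℕ) : ℤ) ∣ ev L P' i := by
    refine fv_dvd L P' i q ?_
    rw [hi, hs]; exact min_le_right _ _
  obtain ⟨j, hj⟩ : ∃ j : Fin r, i ≠ j := by
    by_contra hcon
    push Not at hcon
    have e1 := hcon ⟨0, by omega⟩
    have e2 := hcon ⟨1, by omega⟩
    rw [e1] at e2
    exact absurd (Fin.mk.inj_iff.1 e2) (by norm_num)
  have h3 : ((q ^ min (vv L P q) (vv L P' q) : ℕ) : ℤ) ∣ rs L i j * dt P P' := by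
    have e : rs L i j * dt P P' = ev L P i * ev L P' j - ev L P' i * ev L P j := by
      unfold rs dt ev; ring
    rw [e]
    exact dvd_sub (h1.mul_right _) (h2.mul_right _)
  obtain ⟨c, hc⟩ := rs_dvd L hj
  have h4 : (rs L i j) ∣ (Rs L : ℤ) := by
    rw [← Int.natAbs_dvd]
    exact Int.natCast_dvd_natCast.2 (rs_dvd L hj)
  exact h3.trans (mul_dvd_mul_right h4 _)

theorem dt_le (L : Fm r) (hr : 2 ≤ r) (P P' : ℤ × ℤ) (i : Fin r) :
    (dt P P').natAbs ≤ U L * (va L P i * ht P' + va L P' i * ht P) := by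
  obtain ⟨j, hj⟩ : ∃ j : Fin r, i ≠ j := by
    by_contra hcon
    push Not at hcon
    have e1 := hcon ⟨0, by omega⟩
    have e2 := hcon ⟨1, by omega⟩
    rw [e1] at e2
    exact absurd (Fin.mk.inj_iff.1 e2) (by norm_num)
  have hres : 1 ≤ (rs L i j).natAbs := Int.natAbs_pos.2 (L.res i j hj)
  have e : rs L i j * dt P P' = ev L P i * ev L P' j - ev L P' i * ev L P j := by
    unfold rs dt ev; ring
  calc (dt P P').natAbs ≤ (rs L i j).natAbs * (dt P P').natAbs := Nat.le_mul_of_pos_left _ hres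
    _ = (rs L i j * dt P P').natAbs := (Int.natAbs_mul _ _).symm
    _ ≤ va L P i * va L P' j + va L P' i * va L P j := by
        rw [e]
        refine (Int.natAbs_sub_le _ _).trans ?_
        rw [Int.natAbs_mul, Int.natAbs_mul]
        rfl
    _ ≤ va L P i * (U L * ht P') + va L P' i * (U L * ht P) :=
        Nat.add_le_add (Nat.mul_le_mul_left _ (va_le L P' j))
          (Nat.mul_le_mul_left _ (va_le L P j))
    _ = _ := by ring

theorem core {L : Fm r} (hr : 2 ≤ r) {k : ℕ} (hk : 1 ≤ k) {S : Finset ℕ} {l : ℝ}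
    (hS : ∀ q ∈ S, q.Prime) (hl : 4 * (k : ℝ) * cL L ≤ l) {P P' : ℤ × ℤ} (h : Pt L P)
    (h' : Pt L P') (hs : Scale k l P) (hs' : Scale k l P') {I : Fin r} (hL : Light L k S I P)
    {δ : ℝ} (hδ : (S.card : ℝ) * δ ≤ l / (4 * k)) (hN : Near1 L S δ P P') (hne : dt P P' ≠ 0)
    (hle : va L P' I * ht P ≤ va L P I * ht P') : False := by
  classical
  have hk0 : (0 : ℝ) < k := by exact_mod_cast hk
  have hM : (∏ q ∈ S, q ^ min (vv L P q) (vv L P' q)) ∣ Rs L * (dt P P').natAbs := by
    refine Finset.prod_dvd_of_isRelPrime ?_ ?_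
    · intro q hq r hr hqr
      exact Nat.coprime_iff_isRelPrime.1 (Nat.coprime_pow_primes _ _ (hS q hq) (hS r hr) hqr)
    · intro q hq
      have := pow_min_dvd L hr P P' (hN.side q hq)
      rw [Int.natCast_dvd, Int.natAbs_mul, Int.natAbs_natCast] at this
      exact this
  have hD0 : 0 < (dt P P').natAbs := Int.natAbs_pos.2 hne
  have hMle : (∏ q ∈ S, q ^ min (vv L P q) (vv L P' q)) ≤
      Rs L * (U L * (2 * (va L P I * ht P'))) := by
    refine (Nat.le_of_dvd (Nat.mul_pos (Rs_pos L) hD0) hM).trans ?_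
    refine Nat.mul_le_mul_left _ ((dt_le L hr P P' I).trans (Nat.mul_le_mul_left _ ?_))
    omega
  have hMpos : (0 : ℝ) < ((∏ q ∈ S, q ^ min (vv L P q) (vv L P' q) : ℕ) : ℝ) := by
    exact_mod_cast Finset.prod_pos fun q hq => pow_pos (hS q hq).pos _
  have pR : (0 : ℝ) < Rs L := by exact_mod_cast Rs_pos L
  have pU : (0 : ℝ) < U L := by exact_mod_cast U_pos L
  have pI : (0 : ℝ) < va L P I := by exact_mod_cast va_pos h I
  have pH : (0 : ℝ) < ht P' := by exact_mod_cast ht_pos h'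
  have hup : Real.log ((∏ q ∈ S, q ^ min (vv L P q) (vv L P' q) : ℕ) : ℝ) ≤
      Real.log (Rs L) + (Real.log (U L) + (Real.log 2 + (Real.log (va L P I) +
        (1 + 1 / (4 * k)) * l))) := by
    calc Real.log ((∏ q ∈ S, q ^ min (vv L P q) (vv L P' q) : ℕ) : ℝ)
        ≤ Real.log ((Rs L : ℝ) * (U L * (2 * (va L P I * ht P')))) := by
          apply Real.log_le_log hMpos
          exact_mod_cast hMle
      _ = Real.log (Rs L) + (Real.log (U L) + (Real.log 2 + (Real.log (va L P I) +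
            Real.log (ht P')))) := by
          rw [Real.log_mul pR.ne' (by positivity), Real.log_mul pU.ne' (by positivity),
            Real.log_mul (by norm_num) (by positivity), Real.log_mul pI.ne' pH.ne']
      _ ≤ _ := by
          have := hs'.2
          linarith
  rw [log_prod_pow hS] at hup
  have hsum : ∑ q ∈ S, |((vv L P q : ℝ) - vv L P' q) * Real.log q| ≤ l / (4 * k) := by
    refine (Finset.sum_le_sum hN.dist).trans ?_
    rw [Finset.sum_const, nsmul_eq_mul]
    exact hδ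
  have hlow := sum_min_ge hS hsum
  have hLight := hL
  rw [Light] at hLight
  have hs1 := hs.1
  have hl2 : Real.log 2 < 0.6931471808 := Real.log_two_lt_d9
  have e1 : (1 + 1 / (4 * (k : ℝ))) * l = l + l / (4 * k) := by ring
  have e2 : (1 + 1 / (k : ℝ)) * Real.log (ht P) = Real.log (ht P) + Real.log (ht P) / k := by ring
  have e3 : l / k ≤ Real.log (ht P) / k := div_le_div_of_nonneg_right hs1 hk0.le
  have e4 : l / k = 4 * (l / (4 * k)) := by field_simp
  have e5 : cL L ≤ l / (4 * k) := by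
    rw [le_div_iff₀ (by positivity)]
    linarith
  have n1 := Real.log_natCast_nonneg (Rs L)
  have n2 := Real.log_natCast_nonneg (U L)
  rw [e1] at hup
  rw [e2] at hLight
  unfold cL at e5
  linarith

theorem proportional {P P' : ℤ × ℤ} (h : IsCoprime P.1 P.2) (h' : IsCoprime P'.1 P'.2)
    (hd : dt P P' = 0) : ∃ c : ℤ, (c = 1 ∨ c = -1) ∧ P'.1 = c * P.1 ∧ P'.2 = c * P.2 := by
  obtain ⟨x, y, hxy⟩ := h
  have hd' : P.1 * P'.2 = P'.1 * P.2 := by
    unfold dt at hd
    linarith
  refine ⟨x * P'.1 + y * P'.2, ?_, ?_, ?_⟩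
  · have e1 : P'.1 = (x * P'.1 + y * P'.2) * P.1 := by
      linear_combination (-P'.1) * hxy - y * hd'
    have e2 : P'.2 = (x * P'.1 + y * P'.2) * P.2 := by
      linear_combination (-P'.2) * hxy + x * hd'
    obtain ⟨a, b, hab⟩ := h'
    have hu : IsUnit (x * P'.1 + y * P'.2) := by
      refine IsUnit.of_mul_eq_one (a * P.1 + b * P.2) ?_
      linear_combination hab - a * e1 - b * e2
    exact Int.isUnit_iff.1 hu
  · linear_combination (-P'.1) * hxy - y * hd'
  · linear_combination (-P'.2) * hxy + x * hd'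

theorem gap {L : Fm r} (hr : 2 ≤ r) {k : ℕ} (hk : 1 ≤ k) {S : Finset ℕ} {l : ℝ}
    (hS : ∀ q ∈ S, q.Prime) (hl : 4 * (k : ℝ) * cL L ≤ l) {P P' : ℤ × ℤ} (h : Pt L P)
    (h' : Pt L P') (hs : Scale k l P) (hs' : Scale k l P') {I : Fin r} (hL : Light L k S I P)
    (hL' : Light L k S I P') {δ : ℝ} (hδ : (S.card : ℝ) * δ ≤ l / (4 * k))
    (hN : Near1 L S δ P P') : P = P' := by
  by_cases he : dt P P' = 0
  · obtain ⟨c, hc, h1, h2⟩ := proportional h.cop h'.cop he
    rcases hc with rfl | rfl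
    · ext
      · rw [h1, one_mul]
      · rw [h2, one_mul]
    · exfalso
      have e : ev L P' I = - ev L P I := by
        unfold ev
        rw [h1, h2]; ring
      have h3 := hN.sgn I
      rw [e] at h3
      have h4 := h.ne I
      rcases lt_trichotomy (ev L P I) 0 with h5 | h5 | h5
      · have := h3.2 (by linarith)
        linarith
      · exact h4 h5
      · have := h3.1 h5
        linarith
  · exfalso
    rcases le_total (va L P' I * ht P) (va L P I * ht P') with hle | hle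
    · exact core hr hk hS hl h h' hs hs' hL hδ hN he hle
    · refine core hr hk hS hl h' h hs' hs hL' hδ hN.symm ?_ hle
      intro h0
      apply he
      have e : dt P P' = - dt P' P := by unfold dt; ring
      rw [e, h0, neg_zero]

end NZ

end Pool.Agent.TH867.QF
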