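import Pool.Agent.TH867.QF.Basic

/-! Cells: for a set `S` of primes the points of one scale fall into at most
`2 ^ (9 r k (|S| + 1))` classes of near points (helper867). -/

set_option autoImplicit false

namespace Pool.Agent.TH867.QF

open Finset
open Pool.Agent.TH867.SR (sum_fac_le floor_near emb)

set_option linter.unusedSectionVars false

variable {r : ℕ} [NeZero r]

theorem log_va_le {L : Fm r} {P : ℤ × ℤ} (h : Pt L P) (i : Fin r) :
    Real.log (va L P i) ≤ Real.log (U L) + Real.log (ht P) := by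
  have h1 : (0 : ℝ) < va L P i := by exact_mod_cast va_pos h i
  have h2 : (0 : ℝ) < U L := by exact_mod_cast U_pos L
  have h3 : (0 : ℝ) < ht P := by exact_mod_cast ht_pos h
  rw [← Real.log_mul h2.ne' h3.ne']
  exact Real.log_le_log h1 (by exact_mod_cast va_le L P i)

theorem sum_vv_le {L : Fm r} {P : ℤ × ℤ} (h : Pt L P) (S : Finset ℕ) :
    ∑ q ∈ S, (vv L P q : ℝ) * Real.log q ≤ r * (Real.log (U L) + Real.log (ht P)) := by
  calc ∑ q ∈ S, (vv L P q : ℝ) * Real.log q ≤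
      ∑ q ∈ S, ∑ i, (fv L P i q : ℝ) * Real.log q := by
        refine Finset.sum_le_sum fun q _ => ?_
        exact Finset.single_le_sum (f := fun i => (fv L P i q : ℝ) * Real.log q)
          (fun i _ => mul_nonneg (Nat.cast_nonneg _) (Real.log_natCast_nonneg q))
          (Finset.mem_univ (ty L P q))
    _ = ∑ i, ∑ q ∈ S, (fv L P i q : ℝ) * Real.log q := Finset.sum_comm
    _ ≤ ∑ _i : Fin r, (Real.log (U L) + Real.log (ht P)) := by
        refine Finset.sum_le_sum fun i _ => ?_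
        exact (sum_fac_le S (va L P i)).trans (log_va_le h i)
    _ = _ := by
        rw [Finset.sum_const, Finset.card_univ, Fintype.card_fin, nsmul_eq_mul]

/-- the coordinates -/
noncomputable def nn (L : Fm r) (u : ℝ) (q : ℕ) (P : ℤ × ℤ) : ℕ :=
  ⌊(vv L P q : ℝ) * Real.log q / u⌋₊

theorem nn_sum {L : Fm r} {k : ℕ} (hk : 1 ≤ k) (S : Finset ℕ) (l : ℝ)
    (hl : 4 * (k : ℝ) * cL L ≤ l) {P : ℤ × ℤ} (h : Pt L P) (hs : Scale k l P) :
    ∑ q : S, nn L (l / (4 * k * (S.card + 1))) q P ≤ 7 * r * k * (S.card + 1) := by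
  have hk0 : (0 : ℝ) < k := by exact_mod_cast hk
  have hk1 : (1 : ℝ) ≤ k := by exact_mod_cast hk
  have hc := cL_ge L
  have hl0 : 0 < l := lt_of_lt_of_le (by positivity) hl
  set u : ℝ := l / (4 * k * (S.card + 1)) with hu
  have hu0 : 0 < u := by positivity
  have hUl : Real.log (U L) ≤ l / 2 := by
    have n1 := Real.log_natCast_nonneg (Rs L)
    have n2 := Real.log_natCast_nonneg (U L)
    have h1 : 2 * Real.log (U L) ≤ cL L := by unfold cL; linarith
    have h2 : cL L ≤ 4 * k * cL L := by nlinarith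
    linarith
  have hhl : Real.log (ht P) ≤ 5 / 4 * l := by
    refine hs.2.trans ?_
    refine mul_le_mul_of_nonneg_right ?_ hl0.le
    have : 1 / (4 * (k : ℝ)) ≤ 1 / 4 := by
      refine one_div_le_one_div_of_le (by norm_num) ?_
      linarith
    linarith
  have h1 : ((∑ q : S, nn L u q P : ℕ) : ℝ) ≤ ((7 * r * k * (S.card + 1) : ℕ) : ℝ) := by
    push_cast
    calc (∑ q : S, (nn L u q P : ℝ)) ≤
        ∑ q : S, (vv L P q : ℝ) * Real.log (q : ℕ) / u := by
          refine Finset.sum_le_sum fun q _ => ?_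
          exact Nat.floor_le (div_nonneg (mul_nonneg (Nat.cast_nonneg _)
            (Real.log_natCast_nonneg _)) hu0.le)
      _ = (∑ q ∈ S, (vv L P q : ℝ) * Real.log q) / u := by
          rw [← Finset.sum_div]
          congr 1
          exact Finset.sum_coe_sort S (fun q => (vv L P q : ℝ) * Real.log q)
      _ ≤ (r * (l / 2 + 5 / 4 * l)) / u := by
          refine div_le_div_of_nonneg_right ((sum_vv_le h S).trans ?_) hu0.le
          exact mul_le_mul_of_nonneg_left (by linarith) (Nat.cast_nonneg _)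
      _ = 7 * r * k * ((S.card : ℝ) + 1) := by
          rw [hu]
          field_simp
          ring
  exact_mod_cast h1

theorem pow_aux {r k : ℕ} (hr : 1 ≤ r) (hk : 1 ≤ k) (n : ℕ) :
    2 ^ r * (r ^ n * 2 ^ (7 * r * k * (n + 1) + n)) ≤ 2 ^ (9 * r * k * (n + 1)) := by
  have h1 : r ^ n ≤ 2 ^ (r * n) := by
    rw [pow_mul]
    exact Nat.pow_le_pow_left Nat.lt_two_pow_self.le _
  calc 2 ^ r * (r ^ n * 2 ^ (7 * r * k * (n + 1) + n)) ≤
      2 ^ r * (2 ^ (r * n) * 2 ^ (7 * r * k * (n + 1) + n)) :=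
        Nat.mul_le_mul_left _ (Nat.mul_le_mul_right _ h1)
    _ = 2 ^ (r + (r * n + (7 * r * k * (n + 1) + n))) := by rw [← pow_add, ← pow_add]
    _ ≤ 2 ^ (9 * r * k * (n + 1)) := by
        refine Nat.pow_le_pow_right Nat.zero_lt_two ?_
        have h2 : r * (n + 1) ≤ r * k * (n + 1) := by
          have : r * 1 ≤ r * k := Nat.mul_le_mul_left _ hk
          rw [Nat.mul_one] at this
          exact Nat.mul_le_mul_right _ this
        have h3 : n ≤ r * k * (n + 1) := by
          have : 1 * (n + 1) ≤ r * (n + 1) := Nat.mul_le_mul_right _ hr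
          omega
        nlinarith

/-- the code -/
abbrev Cd (r k : ℕ) (S : Finset ℕ) : Type :=
  (Fin r → Bool) × (S → Fin r) ×
    {f : S → Fin (7 * r * k * (S.card + 1) + 1) // ∑ q, (f q : ℕ) ≤ 7 * r * k * (S.card + 1)}

theorem card_Cd {r k : ℕ} (hr : 1 ≤ r) (hk : 1 ≤ k) (S : Finset ℕ) :
    Fintype.card (Cd r k S) ≤ 2 ^ (9 * r * k * (S.card + 1)) := by
  classical
  unfold Cd
  rw [Fintype.card_prod, Fintype.card_prod, Fintype.card_fun, Fintype.card_fun, Fintype.card_fin,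
    Fintype.card_coe, Fintype.card_subtype, Fintype.card_bool]
  exact (Nat.mul_le_mul_left _ (Nat.mul_le_mul_left _
    (Pool.Agent.W347.RACNT.tCNT S (7 * r * k * (S.card + 1))))).trans (pow_aux hr hk S.card)

/-- the precision -/
noncomputable def prec (k : ℕ) (l : ℝ) (S : Finset ℕ) : ℝ := l / (4 * k * (S.card + 1))

theorem prec_nonneg {k : ℕ} {l : ℝ} (hl : 0 ≤ l) (S : Finset ℕ) : 0 ≤ prec k l S := by
  unfold prec
  positivity

theorem prec_mul {k : ℕ} (hk : 1 ≤ k) {l : ℝ} (S : Finset ℕ) :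
    ((S.card : ℝ) + 1) * prec k l S = l / (4 * k) := by
  have hk0 : (0 : ℝ) < k := by exact_mod_cast hk
  unfold prec
  field_simp

theorem prec_card {k : ℕ} (hk : 1 ≤ k) {l : ℝ} (hl : 0 ≤ l) (S : Finset ℕ) :
    (S.card : ℝ) * prec k l S ≤ l / (4 * k) := by
  rw [← prec_mul hk S]
  have := prec_nonneg (k := k) hl S
  nlinarith

theorem exists_code {L : Fm r} {k : ℕ} (hk : 1 ≤ k) (S : Finset ℕ) (l : ℝ)
    (hl : 4 * (k : ℝ) * cL L ≤ l) (P : ℤ × ℤ) (h : Pt L P) (hs : Scale k l P) :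
    ∃ c : Cd r k S, (∀ i, c.1 i = decide (0 < ev L P i)) ∧ (∀ q : S, c.2.1 q = ty L P q) ∧
      ∀ q : S, ((c.2.2.1 q : Fin _) : ℕ) = nn L (prec k l S) q P := by
  have h1 := nn_sum hk S l hl h hs
  have h2 : ∀ q : S, nn L (l / (4 * k * (S.card + 1))) q P < 7 * r * k * (S.card + 1) + 1 := by
    intro q
    have h3 : nn L (l / (4 * k * (S.card + 1))) q P ≤
        ∑ q : S, nn L (l / (4 * k * (S.card + 1))) q P :=
      Finset.single_le_sum (f := fun q : S => nn L (l / (4 * k * (S.card + 1))) q P)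
        (fun i _ => Nat.zero_le _) (Finset.mem_univ q)
    exact Nat.lt_succ_of_le (h3.trans h1)
  exact ⟨(fun i => decide (0 < ev L P i), fun q => ty L P q,
    ⟨fun q => ⟨nn L (l / (4 * k * (S.card + 1))) q P, h2 q⟩, h1⟩),
    fun i => rfl, fun q => rfl, fun q => rfl⟩

/-- few cells -/
theorem cells {L : Fm r} {k : ℕ} (hk : 1 ≤ k) (S : Finset ℕ) (l : ℝ)
    (hl : 4 * (k : ℝ) * cL L ≤ l) :
    ∃ F : ℤ × ℤ → Fin (2 ^ (9 * r * k * (S.card + 1))), ∀ P P' : ℤ × ℤ, Pt L P → Pt L P' →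
      Scale k l P → Scale k l P' → F P = F P' → Near1 L S (prec k l S) P P' := by
  classical
  have hk0 : (0 : ℝ) < k := by exact_mod_cast hk
  have hl0 : 0 < l := lt_of_lt_of_le (by have := cL_ge L; positivity) hl
  have hu0 : 0 < prec k l S := by unfold prec; positivity
  have hcard := card_Cd (r := r) (Nat.one_le_iff_ne_zero.2 (NeZero.ne r)) hk S
  have hpos : 0 < 2 ^ (9 * r * k * (S.card + 1)) := Nat.pow_pos Nat.zero_lt_two
  generalize 2 ^ (9 * r * k * (S.card + 1)) = M at hcard hpos ⊢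
  obtain ⟨g⟩ := emb (Cd r k S) M hcard
  refine ⟨fun x => if h : Pt L x ∧ Scale k l x then
    g (exists_code hk S l hl x h.1 h.2).choose else ⟨0, hpos⟩, ?_⟩
  intro t t' hT₁ hT₂ hs₁ hs₂ hF
  have hc₁ : Pt L t ∧ Scale k l t := ⟨hT₁, hs₁⟩
  have hc₂ : Pt L t' ∧ Scale k l t' := ⟨hT₂, hs₂⟩
  have hF1 := (dif_pos hc₁).symm.trans (Eq.trans hF (dif_pos hc₂))
  have hF2 := g.injective hF1
  obtain ⟨i0, i1, i2⟩ := (exists_code hk S l hl t hT₁ hs₁).choose_spec
  obtain ⟨j0, j1, j2⟩ := (exists_code hk S l hl t' hT₂ hs₂).choose_spec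
  refine ⟨fun q hq => ?_, fun q hq => ?_, fun i => ?_⟩
  · rw [← i1 ⟨q, hq⟩, ← j1 ⟨q, hq⟩]
    exact congrArg (fun c : Cd r k S => c.2.1 ⟨q, hq⟩) hF2
  · have e : nn L (prec k l S) q t = nn L (prec k l S) q t' := by
      have e1 := i2 ⟨q, hq⟩
      have e2 := j2 ⟨q, hq⟩
      rw [← e1, ← e2]
      exact congrArg (fun c : Cd r k S => ((c.2.2.1 ⟨q, hq⟩ : Fin _) : ℕ)) hF2
    refine floor_near hu0 ?_ ?_ e
    · exact div_nonneg (mul_nonneg (Nat.cast_nonneg _) (Real.log_natCast_nonneg _)) hu0.le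
    · exact div_nonneg (mul_nonneg (Nat.cast_nonneg _) (Real.log_natCast_nonneg _)) hu0.le
  · have e1 := i0 i
    have e2 := j0 i
    have e3 : decide (0 < ev L t i) = decide (0 < ev L t' i) := by
      rw [← e1, ← e2]
      exact congrArg (fun c : Cd r k S => c.1 i) hF2
    simpa using e3

end Pool.Agent.TH867.QF
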