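import Pool.Agent.TH867.QF.Fib

/-! The choice of the prescribed primes: their product is at most `rad ^ (2/r + 6/k)`
(helper867). -/

set_option autoImplicit false

namespace Pool.Agent.TH867.QF

open Finset
open Pool.Agent.TH867.SR (sum_fac_le log_prime_nonneg greedy)

set_option linter.unusedSectionVars false

section NZ

variable {r : ℕ} [NeZero r]

/-- the product of the values -/
def Np (L : Fm r) (P : ℤ × ℤ) : ℕ := ∏ i, va L P i

/-- the primes of a side -/
noncomputable def Sd (L : Fm r) (P : ℤ × ℤ) (i : Fin r) : Finset ℕ :=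
  (Np L P).primeFactors.filter fun q => ty L P q = i

/-- the logarithm of the product of the primes of a side -/
noncomputable def rr (L : Fm r) (P : ℤ × ℤ) (i : Fin r) : ℝ := ∑ q ∈ Sd L P i, Real.log q

theorem Np_pos {L : Fm r} {P : ℤ × ℤ} (h : Pt L P) : 0 < Np L P :=
  Finset.prod_pos fun i _ => va_pos h i

theorem prime_Sd {L : Fm r} {P : ℤ × ℤ} {i : Fin r} {q : ℕ} (hq : q ∈ Sd L P i) : q.Prime :=
  Nat.prime_of_mem_primeFactors (Finset.mem_filter.1 hq).1

theorem ty_Sd {L : Fm r} {P : ℤ × ℤ} {i : Fin r} {q : ℕ} (hq : q ∈ Sd L P i) : ty L P q = i :=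
  (Finset.mem_filter.1 hq).2

theorem rr_nonneg (L : Fm r) (P : ℤ × ℤ) (i : Fin r) : 0 ≤ rr L P i :=
  Finset.sum_nonneg fun _ hq => log_prime_nonneg (prime_Sd hq)

theorem rr_sum (L : Fm r) (P : ℤ × ℤ) :
    ∑ i, rr L P i = ∑ q ∈ (Np L P).primeFactors, Real.log q := by
  unfold rr Sd
  exact Finset.sum_fiberwise _ _ _

theorem dvd_Np (L : Fm r) (P : ℤ × ℤ) (i : Fin r) : va L P i ∣ Np L P :=
  Finset.dvd_prod_of_mem _ (Finset.mem_univ i)

theorem vv_pos {L : Fm r} {P : ℤ × ℤ} (h : Pt L P) {i : Fin r} {q : ℕ} (hq : q ∈ Sd L P i) :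
    1 ≤ vv L P q := by
  obtain ⟨h1, _⟩ := Finset.mem_filter.1 hq
  obtain ⟨h2, h3, _⟩ := Nat.mem_primeFactors.1 h1
  obtain ⟨j, _, hj⟩ := (h2.prime.dvd_finsetProd_iff _).1 h3
  have h4 : 0 < fv L P j q := h2.factorization_pos_of_dvd (va_pos h j).ne' hj
  exact lt_of_lt_of_le h4 (fv_le_vv L P j q)

theorem pf_sub {L : Fm r} {P : ℤ × ℤ} (h : Pt L P) (i : Fin r) :
    (va L P i).primeFactors ⊆ Sd L P i ∪ (Rs L).primeFactors := by
  classical
  intro q hq
  obtain ⟨h1, h2, _⟩ := Nat.mem_primeFactors.1 hq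
  rw [Finset.mem_union]
  by_cases ht : ty L P q = i
  · left
    exact Finset.mem_filter.2 ⟨Nat.mem_primeFactors.2 ⟨h1, h2.trans (dvd_Np L P i),
      (Np_pos h).ne'⟩, ht⟩
  · right
    have h3 := fv_le_Rs h h1 ht
    have h4 : 0 < fv L P i q := h1.factorization_pos_of_dvd (va_pos h i).ne' h2
    have h5 : (Rs L).factorization q ≠ 0 := by omega
    rw [← Nat.support_factorization, Finsupp.mem_support_iff]
    exact h5

/-- the primes of a side carry almost the whole value -/
theorem Sd_weight {L : Fm r} {P : ℤ × ℤ} (h : Pt L P) (i : Fin r) :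
    Real.log (va L P i) ≤ ∑ q ∈ Sd L P i, (vv L P q : ℝ) * Real.log q + Real.log (Rs L) := by
  classical
  obtain ⟨T, hT⟩ : ∃ T, T = Sd L P i ∪ (Rs L).primeFactors := ⟨_, rfl⟩
  have hTp : ∀ q ∈ T, q.Prime := by
    intro q hq
    rw [hT, Finset.mem_union] at hq
    rcases hq with hq | hq
    · exact prime_Sd hq
    · exact Nat.prime_of_mem_primeFactors hq
  have hsub : Sd L P i ⊆ T := by rw [hT]; exact Finset.subset_union_left
  rw [← log_va_eq h i (S := T) (by rw [hT]; exact pf_sub h i), ← Finset.sum_sdiff hsub, add_comm]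
  refine add_le_add ?_ ?_
  · refine Finset.sum_le_sum fun q hq => ?_
    refine mul_le_mul_of_nonneg_right ?_ (log_prime_nonneg (prime_Sd hq))
    exact_mod_cast fv_le_vv L P i q
  · refine le_trans (Finset.sum_le_sum fun q hq => ?_) (sum_fac_le (T \ Sd L P i) (Rs L))
    obtain ⟨h1, h2⟩ := Finset.mem_sdiff.1 hq
    have hqp := hTp q h1
    refine mul_le_mul_of_nonneg_right ?_ (log_prime_nonneg hqp)
    have h3 : fv L P i q ≤ (Rs L).factorization q := by
      by_cases ht : ty L P q = i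
      · have h4 : ¬ q ∣ va L P i := fun hd => h2 (Finset.mem_filter.2
          ⟨Nat.mem_primeFactors.2 ⟨hqp, hd.trans (dvd_Np L P i), (Np_pos h).ne'⟩, ht⟩)
        have h5 : fv L P i q = 0 := Nat.factorization_eq_zero_of_not_dvd h4
        rw [h5]
        exact Nat.zero_le _
      · exact fv_le_Rs h hqp ht
    exact_mod_cast h3

/-- a set of primes of a side which is not small -/
theorem side_part {L : Fm r} {k : ℕ} (hk : 6 ≤ k) {P : ℤ × ℤ} (h : Pt L P) {i : Fin r}
    (hc : 6 * cL L ≤ Real.log (ht P)) (hi : Real.log (ht P) / 2 ≤ Real.log (va L P i)) :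
    ∃ p ∈ Sd L P i, ∃ Q ⊆ Sd L P i,
      2 * Real.log (ht P) / k ≤ ∑ q ∈ Q, (vv L P q : ℝ) * Real.log q ∧
      ∑ q ∈ Q, Real.log q ≤ 6 / k * rr L P i + Real.log p := by
  classical
  have hk6 : (6 : ℝ) ≤ k := by exact_mod_cast hk
  have hk0 : (0 : ℝ) < k := by linarith
  have hc1 := cL_ge L
  have hH : 0 < Real.log (ht P) := by linarith
  have n1 := Real.log_natCast_nonneg (Rs L)
  have n2 := Real.log_natCast_nonneg (U L)
  have hR : Real.log (Rs L) ≤ Real.log (ht P) / 6 := by
    have : Real.log (Rs L) ≤ cL L := by unfold cL; linarith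
    linarith
  have hw := Sd_weight h i
  obtain ⟨W, hW⟩ : ∃ W, W = ∑ q ∈ Sd L P i, (vv L P q : ℝ) * Real.log q := ⟨_, rfl⟩
  rw [← hW] at hw
  have hW3 : Real.log (ht P) / 3 ≤ W := by linarith
  have hne : (Sd L P i).Nonempty := by
    rw [Finset.nonempty_iff_ne_empty]
    intro h0
    rw [h0, Finset.sum_empty] at hW
    linarith
  obtain ⟨p, hp, hmax⟩ := Finset.exists_max_image (Sd L P i) (fun q : ℕ => Real.log (q : ℝ)) hne
  have hr0 := rr_nonneg L P i
  have h2k : 2 * Real.log (ht P) / k ≤ Real.log (ht P) / 3 := by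
    rw [div_le_div_iff₀ hk0 (by norm_num)]
    nlinarith
  obtain ⟨Q, hQ, h1, h2⟩ := greedy (fun q : ℕ => (vv L P q : ℝ) * Real.log q)
    (fun q : ℕ => Real.log (q : ℝ)) (κ := 2 * Real.log (ht P) / k)
    (ρ := 3 * rr L P i / Real.log (ht P)) (M := Real.log p) (by positivity) (by positivity)
    (log_prime_nonneg (prime_Sd hp)) (Sd L P i) (fun q hq => hmax q hq)
    (by
      rw [← hW]
      have e1 : 3 * rr L P i / Real.log (ht P) * (Real.log (ht P) / 3) = rr L P i := by
        field_simp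
      calc ∑ q ∈ Sd L P i, Real.log q = 3 * rr L P i / Real.log (ht P) * (Real.log (ht P) / 3) := by
            rw [e1]; rfl
        _ ≤ _ := mul_le_mul_of_nonneg_left hW3 (by positivity))
    (by rw [← hW]; linarith)
  refine ⟨p, hp, Q, hQ, h1, h2.trans (le_of_eq ?_)⟩
  congr 1
  field_simp
  ring

/-- `S` is a good set of prescribed primes for the point `P` -/
def Good (L : Fm r) (k : ℕ) (X l : ℝ) (S : Finset ℕ) (P : ℤ × ℤ) : Prop :=
  (∃ I, Light L k S I P) ∨ ∃ (A B C I : Fin r) (Q : Finset ℕ) (e p : ℕ), A ≠ B ∧ B ≠ C ∧ A ≠ C ∧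
    InP L k S Q A B C I e X l P p

theorem sum_union_le' (f : ℕ → ℝ) (hf : ∀ q, 0 ≤ f q) (s t : Finset ℕ) :
    ∑ q ∈ s ∪ t, f q ≤ ∑ q ∈ s, f q + ∑ q ∈ t, f q := by
  classical
  rw [← Finset.sum_union_inter]
  have : 0 ≤ ∑ q ∈ s ∩ t, f q := Finset.sum_nonneg fun q _ => hf q
  linarith

theorem sum_E_le (L : Fm r) : ∑ q ∈ (Rs L).primeFactors, Real.log q ≤ Real.log (Rs L) := by
  have hR := Rs_pos L
  have h1 : ∑ q ∈ (Rs L).primeFactors, Real.log q =
      Real.log ((∏ q ∈ (Rs L).primeFactors, q : ℕ) : ℝ) := by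
    push_cast
    rw [Real.log_prod]
    intro q hq
    exact_mod_cast (Nat.prime_of_mem_primeFactors hq).ne_zero
  rw [h1]
  refine Real.log_le_log ?_ ?_
  · exact_mod_cast Finset.prod_pos fun q hq => (Nat.prime_of_mem_primeFactors hq).pos
  · exact_mod_cast Nat.le_of_dvd hR (Nat.prod_primeFactors_dvd _)

/-- the prescribed primes for the sides `A`, `B`, `C` -/
theorem good_of {L : Fm r} {k : ℕ} (hk : 1 ≤ k) {X l : ℝ} (hl : 4 * (k : ℝ) * cL L ≤ l)
    {P : ℤ × ℤ} (h : Pt L P) (hs : Scale k l P) {A B C I : Fin r} (hAB : A ≠ B) (hBC : B ≠ C)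
    (hAC : A ≠ C) (hI : (I = B ∧ Real.log (ht P) - Real.log (U L) ≤ Real.log (va L P C)) ∨
      (I = C ∧ Real.log (ht P) - Real.log (U L) ≤ Real.log (va L P B))) {p : ℕ}
    (hp : p ∈ Sd L P B) (hpX : (p : ℝ) ≤ X) {Q : Finset ℕ} (hQ : Q ⊆ Sd L P A)
    (hw : 2 * Real.log (ht P) / k ≤ ∑ q ∈ Q, (vv L P q : ℝ) * Real.log q) :
    ∃ S : Finset ℕ, (∀ q ∈ S, q.Prime) ∧ Good L k X l S P ∧
      ∑ q ∈ S, Real.log q ≤ Real.log (Rs L) + (rr L P B - Real.log p) + rr L P C +
        ∑ q ∈ Q, Real.log q := by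
  classical
  have hk0 : (0 : ℝ) < k := by exact_mod_cast hk
  have hpp := prime_Sd hp
  have hQp : ∀ q ∈ Q, q.Prime := fun q hq => prime_Sd (hQ hq)
  have hQd : ∀ q ∈ Q, ty L P q = A := fun q hq => ty_Sd (hQ hq)
  obtain ⟨S, hSd⟩ : ∃ S, S = (((Rs L).primeFactors ∪ (Sd L P B).erase p) ∪ Sd L P C) ∪ Q :=
    ⟨_, rfl⟩
  have hSp : ∀ q ∈ S, q.Prime := by
    intro q hq
    rw [hSd] at hq
    rcases Finset.mem_union.1 hq with hq | hq
    · rcases Finset.mem_union.1 hq with hq | hq
      · rcases Finset.mem_union.1 hq with hq | hq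
        · exact Nat.prime_of_mem_primeFactors hq
        · exact prime_Sd (Finset.mem_of_mem_erase hq)
      · exact prime_Sd hq
    · exact hQp q hq
  have hSp' : ∀ q ∈ insert p S, q.Prime := by
    intro q hq
    rcases Finset.mem_insert.1 hq with rfl | hq
    · exact hpp
    · exact hSp q hq
  have hES : (Rs L).primeFactors ⊆ S := by
    rw [hSd]
    exact Finset.subset_union_left.trans
      (Finset.subset_union_left.trans Finset.subset_union_left)
  have hCS : Sd L P C ⊆ S := by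
    rw [hSd]
    exact Finset.subset_union_right.trans Finset.subset_union_left
  have hQS : Q ⊆ S := by
    rw [hSd]
    exact Finset.subset_union_right
  have hfB : (va L P B).primeFactors ⊆ insert p S := by
    refine (pf_sub h B).trans ?_
    intro q hq
    rw [Finset.mem_insert]
    rcases Finset.mem_union.1 hq with hq | hq
    · by_cases hqp : q = p
      · exact Or.inl hqp
      · right
        rw [hSd]
        exact Finset.mem_union_left _ (Finset.mem_union_left _ (Finset.mem_union_right _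
          (Finset.mem_erase.2 ⟨hqp, hq⟩)))
    · exact Or.inr (hES hq)
  have hfC : (va L P C).primeFactors ⊆ S :=
    (pf_sub h C).trans (Finset.union_subset hCS hES)
  have hlight : Light L k (insert p S) I P := by
    have h1 := weight_ge h hAB hBC hAC hSp' hQd (hQS.trans (Finset.subset_insert _ _)) hfB
      (hfC.trans (Finset.subset_insert _ _))
    have h2 := hs.1
    have h3 : 4 * cL L ≤ Real.log (ht P) / k := by
      rw [le_div_iff₀ hk0]
      linarith
    have n1 := Real.log_natCast_nonneg (Rs L)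
    have n2 := Real.log_natCast_nonneg (U L)
    have e2 : (1 + 1 / (k : ℝ)) * Real.log (ht P) = Real.log (ht P) + Real.log (ht P) / k := by
      ring
    have e3 : 2 * Real.log (ht P) / k = 2 * (Real.log (ht P) / k) := by ring
    rw [Light, e2]
    unfold cL at h3
    rcases hI with ⟨rfl, hI⟩ | ⟨rfl, hI⟩ <;> linarith
  refine ⟨S, hSp, ?_, ?_⟩
  · by_cases hpS : p ∈ S
    · left
      rw [Finset.insert_eq_of_mem hpS] at hlight
      exact ⟨I, hlight⟩
    · right
      exact ⟨A, B, C, I, Q, vv L P p, p, hAB, hBC, hAC,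
        { pt := h
          sc := hs
          pp := hpp
          pS := hpS
          pX := hpX
          tB := ty_Sd hp
          ve := rfl
          he := vv_pos h hp
          fB := hfB
          fC := hfC
          QS := hQS
          QA := hQd
          wt := hw
          lt := hlight }⟩
  · have hf : ∀ q : ℕ, 0 ≤ Real.log (q : ℝ) := fun q => Real.log_natCast_nonneg q
    have h1 := sum_union_le' (fun q : ℕ => Real.log (q : ℝ)) hf
      (((Rs L).primeFactors ∪ (Sd L P B).erase p) ∪ Sd L P C) Q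
    have h2 := sum_union_le' (fun q : ℕ => Real.log (q : ℝ)) hf
      ((Rs L).primeFactors ∪ (Sd L P B).erase p) (Sd L P C)
    have h3 := sum_union_le' (fun q : ℕ => Real.log (q : ℝ)) hf (Rs L).primeFactors
      ((Sd L P B).erase p)
    have h4 := Finset.add_sum_erase (Sd L P B) (fun q : ℕ => Real.log (q : ℝ)) hp
    have h5 := sum_E_le L
    rw [hSd]
    unfold rr
    linarith

/-- two full sides when the third one is small -/
theorem good_two {L : Fm r} {k : ℕ} (hk : 4 ≤ k) {X l : ℝ} (hl : 4 * (k : ℝ) * cL L ≤ l)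
    {P : ℤ × ℤ} (h : Pt L P) (hs : Scale k l P) {A B C : Fin r} (hAB : A ≠ B) (hBC : B ≠ C)
    (hAC : A ≠ C) (hA : Real.log (va L P A) ≤ Real.log (ht P) / 2)
    (hB : Real.log (ht P) - Real.log (U L) ≤ Real.log (va L P B))
    (hC : Real.log (ht P) - Real.log (U L) ≤ Real.log (va L P C)) :
    ∃ S : Finset ℕ, (∀ q ∈ S, q.Prime) ∧ Good L k X l S P ∧
      ∑ q ∈ S, Real.log q ≤ Real.log (Rs L) + rr L P B + rr L P C := by
  classical
  have hk4 : (4 : ℝ) ≤ k := by exact_mod_cast hk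
  have hk0 : (0 : ℝ) < k := by linarith
  obtain ⟨S, hSd⟩ : ∃ S, S = ((Rs L).primeFactors ∪ Sd L P B) ∪ Sd L P C := ⟨_, rfl⟩
  have hSp : ∀ q ∈ S, q.Prime := by
    intro q hq
    rw [hSd] at hq
    rcases Finset.mem_union.1 hq with hq | hq
    · rcases Finset.mem_union.1 hq with hq | hq
      · exact Nat.prime_of_mem_primeFactors hq
      · exact prime_Sd hq
    · exact prime_Sd hq
  have hES : (Rs L).primeFactors ⊆ S := by
    rw [hSd]
    exact Finset.subset_union_left.trans Finset.subset_union_left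
  have hBS : Sd L P B ⊆ S := by
    rw [hSd]
    exact Finset.subset_union_right.trans Finset.subset_union_left
  have hCS : Sd L P C ⊆ S := by
    rw [hSd]
    exact Finset.subset_union_right
  refine ⟨S, hSp, Or.inl ⟨A, ?_⟩, ?_⟩
  · have h1 := weight_ge h hAB hBC hAC (Q := ∅) hSp (fun q hq => absurd hq (Finset.notMem_empty q))
      (Finset.empty_subset _) ((pf_sub h B).trans (Finset.union_subset hBS hES))
      ((pf_sub h C).trans (Finset.union_subset hCS hES))
    rw [Finset.sum_empty, add_zero] at h1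
    have h2 := hs.1
    have hc1 := cL_ge L
    have h3 : 4 * 4 * cL L ≤ Real.log (ht P) := by
      refine le_trans ?_ (hl.trans h2)
      nlinarith
    have h4 : Real.log (ht P) / k ≤ Real.log (ht P) / 4 :=
      div_le_div_of_nonneg_left (by linarith) (by norm_num) hk4
    have n1 := Real.log_natCast_nonneg (Rs L)
    have n2 := Real.log_natCast_nonneg (U L)
    have e2 : (1 + 1 / (k : ℝ)) * Real.log (ht P) = Real.log (ht P) + Real.log (ht P) / k := by
      ring
    rw [Light, e2]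
    unfold cL at h3
    linarith
  · have hf : ∀ q : ℕ, 0 ≤ Real.log (q : ℝ) := fun q => Real.log_natCast_nonneg q
    have h2 := sum_union_le' (fun q : ℕ => Real.log (q : ℝ)) hf
      ((Rs L).primeFactors ∪ Sd L P B) (Sd L P C)
    have h3 := sum_union_le' (fun q : ℕ => Real.log (q : ℝ)) hf (Rs L).primeFactors (Sd L P B)
    have h5 := sum_E_le L
    rw [hSd]
    unfold rr
    linarith

/-- all values but the smallest one are large -/
theorem log_va_ge {L : Fm r} {P : ℤ × ℤ} (h : Pt L P) {i j : Fin r} (hij : i ≠ j)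
    (hle : va L P i ≤ va L P j) :
    Real.log (ht P) - Real.log (U L) ≤ Real.log (va L P j) := by
  have h1 := ht_le L P hij
  rw [max_eq_right hle] at h1
  have h2 : (0 : ℝ) < U L := by exact_mod_cast U_pos L
  have h3 : (0 : ℝ) < ht P := by exact_mod_cast ht_pos h
  have h4 : (0 : ℝ) < va L P j := by exact_mod_cast va_pos h j
  have h5 : Real.log (ht P) ≤ Real.log ((U L : ℝ) * va L P j) :=
    Real.log_le_log h3 (by exact_mod_cast h1)
  rw [Real.log_mul h2.ne' h4.ne'] at h5
  linarith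

end NZ

/-- the choice of the prescribed primes -/
theorem choice {n : ℕ} {L : Fm (n + 3)} {k : ℕ} (hk : 6 ≤ k) {X l : ℝ}
    (hl : 4 * (k : ℝ) * cL L ≤ l) {P : ℤ × ℤ} (h : Pt L P) (hs : Scale k l P)
    (hX : ∀ q ∈ (Np L P).primeFactors, (q : ℝ) ≤ X) :
    ∃ S : Finset ℕ, (∀ q ∈ S, q.Prime) ∧ Good L k X l S P ∧
      ∑ q ∈ S, Real.log q ≤ Real.log (Rs L) +
        (2 / ((n : ℝ) + 3) + 6 / k) * ∑ i, rr L P i := by
  classical
  have hk6 : (6 : ℝ) ≤ k := by exact_mod_cast hk
  have hk0 : (0 : ℝ) < k := by linarith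
  have hc1 := cL_ge L
  have hH6 : 6 * cL L ≤ Real.log (ht P) := by
    refine le_trans ?_ (hl.trans hs.1)
    nlinarith
  have hXS : ∀ i, ∀ p ∈ Sd L P i, (p : ℝ) ≤ X := fun i p hp => hX p (Finset.mem_filter.1 hp).1
  have n1 := Real.log_natCast_nonneg (Rs L)
  have n2 := Real.log_natCast_nonneg (U L)
  have hUH : Real.log (ht P) / 2 ≤ Real.log (ht P) - Real.log (U L) := by
    unfold cL at hH6
    linarith
  obtain ⟨i0, -, hi0⟩ := Finset.exists_min_image (Finset.univ : Finset (Fin (n + 3)))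
    (fun i => va L P i) ⟨0, Finset.mem_univ _⟩
  have hbig : ∀ j, i0 ≠ j → Real.log (ht P) - Real.log (U L) ≤ Real.log (va L P j) :=
    fun j hj => log_va_ge h hj (hi0 j (Finset.mem_univ j))
  have hn0 : (0 : ℝ) ≤ n := Nat.cast_nonneg n
  obtain ⟨κ, hκ⟩ : ∃ κ : ℝ, κ = 6 / k := ⟨_, rfl⟩
  have hκ0 : 0 < κ := by rw [hκ]; positivity
  rw [← hκ]
  by_contra hcon
  push Not at hcon
  rcases le_or_gt (Real.log (ht P) / 2) (Real.log (va L P i0)) with hcase | hcase
  · -- no side is small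
    have hall : ∀ i, Real.log (ht P) / 2 ≤ Real.log (va L P i) := by
      intro i
      refine hcase.trans (Real.log_le_log (by exact_mod_cast va_pos h i0) ?_)
      exact_mod_cast hi0 i (Finset.mem_univ i)
    choose p hp Q hQ hw hc using fun i => side_part hk h hH6 (hall i)
    have hd1 : ∀ i : Fin (n + 3), i ≠ i + 1 := by
      intro i hi
      have h1 : (1 : Fin (n + 3)) = 0 := by
        have := hi.symm
        rwa [add_eq_left] at this
      exact absurd (congrArg Fin.val h1) (by simp)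
    have hd2 : ∀ i : Fin (n + 3), i ≠ i + 1 + 1 := by
      intro i hi
      have h1 : (1 + 1 : Fin (n + 3)) = 0 := by
        have := hi.symm
        rwa [add_assoc, add_eq_left] at this
      have h2 := congrArg Fin.val h1
      rw [Fin.val_add] at h2
      simp only [Fin.val_one, Fin.val_zero] at h2
      rw [Nat.mod_eq_of_lt (by omega)] at h2
      omega
    have hT : ∀ i : Fin (n + 3), Real.log (Rs L) + (2 / ((n : ℝ) + 3) + κ) * ∑ i, rr L P i <
        Real.log (Rs L) + (rr L P (i + 1) - Real.log (p (i + 1))) + rr L P (i + 1 + 1) +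
          (κ * rr L P i + Real.log (p i)) := by
      intro i
      have hI : ∃ I, (I = i + 1 ∧ Real.log (ht P) - Real.log (U L) ≤
          Real.log (va L P (i + 1 + 1))) ∨ (I = i + 1 + 1 ∧ Real.log (ht P) - Real.log (U L) ≤
          Real.log (va L P (i + 1))) := by
        by_cases h1 : i0 = i + 1
        · refine ⟨i + 1, Or.inl ⟨rfl, hbig _ ?_⟩⟩
          rw [h1]
          exact hd1 (i + 1)
        · exact ⟨i + 1 + 1, Or.inr ⟨rfl, hbig _ h1⟩⟩
      obtain ⟨I, hI⟩ := hI
      obtain ⟨S, g1, g2, g3⟩ := good_of (by omega : 1 ≤ k) (X := X) hl h hs (hd1 i) (hd1 (i + 1))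
        (hd2 i) hI (hp (i + 1)) (hXS _ _ (hp (i + 1))) (hQ i) (hw i)
      have h2 := hcon S g1 g2
      have h3 := hc i
      rw [← hκ] at h3
      linarith
    have hsum := Finset.sum_lt_sum_of_nonempty (s := (Finset.univ : Finset (Fin (n + 3))))
      ⟨0, Finset.mem_univ _⟩ (fun i _ => hT i)
    have e1 : ∑ i, rr L P (i + 1) = ∑ i, rr L P i :=
      Equiv.sum_comp (Equiv.addRight (1 : Fin (n + 3))) (fun i => rr L P i)
    have e2 : ∑ i, rr L P (i + 1 + 1) = ∑ i, rr L P i := by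
      rw [← e1]
      exact Equiv.sum_comp (Equiv.addRight (1 : Fin (n + 3))) (fun i => rr L P (i + 1))
    have e3 : ∑ i, Real.log (p (i + 1)) = ∑ i, Real.log (p i) :=
      Equiv.sum_comp (Equiv.addRight (1 : Fin (n + 3))) (fun i => Real.log (p i))
    simp only [Finset.sum_add_distrib, Finset.sum_sub_distrib, Finset.sum_const,
      Finset.card_univ, Fintype.card_fin, nsmul_eq_mul, ← Finset.mul_sum] at hsum
    rw [e1, e2, e3] at hsum
    have hR0 : 0 ≤ ∑ i, rr L P i := Finset.sum_nonneg fun i _ => rr_nonneg L P i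
    obtain ⟨R, hR⟩ : ∃ R, R = ∑ i, rr L P i := ⟨_, rfl⟩
    rw [← hR] at hsum hR0
    push_cast at hsum
    have e4 : ((n : ℝ) + 3) * (2 / ((n : ℝ) + 3) + κ) = 2 + (n + 3) * κ := by
      field_simp
    have e5 : ((n : ℝ) + 3) * ((2 / ((n : ℝ) + 3) + κ) * R) = (2 + (n + 3) * κ) * R := by
      rw [← mul_assoc, e4]
    have e6 : 0 ≤ (n : ℝ) * κ * R := by positivity
    have e7 : 0 ≤ κ * R := by positivity
    nlinarith
  · -- the side `i0` is small
    obtain ⟨b, hb⟩ : ∃ b : Fin (n + 2) → Fin (n + 3), b = i0.succAbove := ⟨_, rfl⟩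
    have hbne : ∀ j, i0 ≠ b j := fun j => by rw [hb]; exact (Fin.succAbove_ne i0 j).symm
    have hbinj : Function.Injective b := by rw [hb]; exact Fin.succAbove_right_injective
    have hbb : ∀ j, Real.log (ht P) - Real.log (U L) ≤ Real.log (va L P (b j)) :=
      fun j => hbig _ (hbne j)
    choose p hp Q hQ hw hc using fun j => side_part hk h hH6 (hUH.trans (hbb j))
    have hd1 : ∀ j : Fin (n + 2), b j ≠ b (j + 1) := by
      intro i hi
      have h1 : (1 : Fin (n + 2)) = 0 := by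
        have := (hbinj hi).symm
        rwa [add_eq_left] at this
      exact absurd (congrArg Fin.val h1) (by simp)
    have hT1 : ∀ j : Fin (n + 2), Real.log (Rs L) + (2 / ((n : ℝ) + 3) + κ) * ∑ i, rr L P i <
        Real.log (Rs L) + rr L P (b j) + rr L P (b (j + 1)) := by
      intro j
      obtain ⟨S, g1, g2, g3⟩ := good_two (by omega : 4 ≤ k) (X := X) hl h hs (hbne j) (hd1 j)
        (hbne (j + 1)) hcase.le (hbb j) (hbb (j + 1))
      exact (hcon S g1 g2).trans_le g3
    have hT2 : ∀ j : Fin (n + 2), Real.log (Rs L) + (2 / ((n : ℝ) + 3) + κ) * ∑ i, rr L P i <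
        Real.log (Rs L) + (rr L P (b j) - Real.log (p j)) + rr L P i0 +
          (κ * rr L P (b (j + 1)) + Real.log (p (j + 1))) := by
      intro j
      obtain ⟨S, g1, g2, g3⟩ := good_of (by omega : 1 ≤ k) (X := X) hl h hs (A := b (j + 1))
        (B := b j) (C := i0) (I := i0) (hd1 j).symm (hbne j).symm (hbne (j + 1)).symm
        (Or.inr ⟨rfl, hbb j⟩) (hp j) (hXS _ _ (hp j)) (hQ (j + 1)) (hw (j + 1))
      have h2 := hcon S g1 g2
      have h3 := hc (j + 1)
      rw [← hκ] at h3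
      linarith
    have hsum1 := Finset.sum_lt_sum_of_nonempty (s := (Finset.univ : Finset (Fin (n + 2))))
      ⟨0, Finset.mem_univ _⟩ (fun i _ => hT1 i)
    have hsum2 := Finset.sum_lt_sum_of_nonempty (s := (Finset.univ : Finset (Fin (n + 2))))
      ⟨0, Finset.mem_univ _⟩ (fun i _ => hT2 i)
    have e1 : ∑ j, rr L P (b (j + 1)) = ∑ j, rr L P (b j) :=
      Equiv.sum_comp (Equiv.addRight (1 : Fin (n + 2))) (fun j => rr L P (b j))
    have e3 : ∑ j, Real.log (p (j + 1)) = ∑ j, Real.log (p j) :=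
      Equiv.sum_comp (Equiv.addRight (1 : Fin (n + 2))) (fun i => Real.log (p i))
    have e2 : ∑ i, rr L P i = rr L P i0 + ∑ j, rr L P (b j) := by
      rw [hb]
      exact Fin.sum_univ_succAbove _ i0
    simp only [Finset.sum_add_distrib, Finset.sum_sub_distrib, Finset.sum_const,
      Finset.card_univ, Fintype.card_fin, nsmul_eq_mul, ← Finset.mul_sum] at hsum1 hsum2
    rw [e1] at hsum1 hsum2
    rw [e3] at hsum2
    rw [e2] at hsum1 hsum2
    have ha0 : 0 ≤ rr L P i0 := rr_nonneg L P i0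
    have hβ0 : 0 ≤ ∑ j, rr L P (b j) := Finset.sum_nonneg fun i _ => rr_nonneg L P _
    obtain ⟨a, ha⟩ : ∃ a, a = rr L P i0 := ⟨_, rfl⟩
    obtain ⟨β, hβ⟩ : ∃ β, β = ∑ j, rr L P (b j) := ⟨_, rfl⟩
    rw [← ha, ← hβ] at hsum1 hsum2
    rw [← ha] at ha0
    rw [← hβ] at hβ0
    push_cast at hsum1 hsum2
    obtain ⟨T, hTd⟩ : ∃ T, T = (2 / ((n : ℝ) + 3) + κ) * (a + β) := ⟨_, rfl⟩
    rw [← hTd] at hsum1 hsum2
    have e4 : ((n : ℝ) + 3) * T = (2 + (n + 3) * κ) * (a + β) := by
      rw [hTd, ← mul_assoc]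
      congr 1
      field_simp
    have s1 : ((n : ℝ) + 2) * T < 2 * β := by linarith
    have s2 : ((n : ℝ) + 2) * T < (1 + κ) * β + (n + 2) * a := by linarith
    have s3 : ((n : ℝ) + 1) * (((n : ℝ) + 2) * T) ≤ ((n : ℝ) + 1) * (2 * β) :=
      mul_le_mul_of_nonneg_left s1.le (by positivity)
    have s4 : ((n : ℝ) + 1) * (((n : ℝ) + 2) * T) + 2 * (((n : ℝ) + 2) * T) =
        ((n : ℝ) + 2) * ((2 + (n + 3) * κ) * (a + β)) := by
      rw [← e4]; ring
    have s5 : ((n : ℝ) + 2) * ((2 + (n + 3) * κ) * (a + β)) <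
        ((n : ℝ) + 1) * (2 * β) + 2 * ((1 + κ) * β + (n + 2) * a) := by linarith
    have z1 : 0 ≤ κ * β := by positivity
    have z2 : 0 ≤ κ * a := by positivity
    have z3 : 0 ≤ (n : ℝ) * (κ * β) := by positivity
    have z4 : 0 ≤ (n : ℝ) * (κ * a) := by positivity
    have z5 : 0 ≤ (n : ℝ) ^ 2 * (κ * β) := by positivity
    have z6 : 0 ≤ (n : ℝ) ^ 2 * (κ * a) := by positivity
    nlinarith

end Pool.Agent.TH867.QF
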