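import Pool.Agent.TH867.QF.Cho
import Pool.Agent.TH867.SR.Tot

/-! Counting the points of one scale (helper867). -/

set_option autoImplicit false

namespace Pool.Agent.TH867.QF

open Finset
open Pool.Agent.TH867.SR (sum_fac_le log_prime_nonneg sum_omega rho rho_gt)

set_option linter.unusedSectionVars false

section NZ

variable {r : ℕ} [NeZero r]

/-- one cell contains at most one light point -/
theorem card_light {L : Fm r} (hr : 2 ≤ r) {k : ℕ} (hk : 1 ≤ k) {S : Finset ℕ} {I : Fin r} {l : ℝ}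
    (hS : ∀ q ∈ S, q.Prime) (hl : 4 * (k : ℝ) * cL L ≤ l) (F : Finset (ℤ × ℤ))
    (hF : ∀ t ∈ F, Pt L t ∧ Scale k l t ∧ Light L k S I t) :
    F.card ≤ 2 ^ (9 * r * k * (S.card + 1)) := by
  have hk0 : (0 : ℝ) < k := by exact_mod_cast hk
  have hl0 : 0 ≤ l := le_trans (by have := cL_ge L; positivity) hl
  obtain ⟨f, hf⟩ := cells hk S l hl
  have h1 : F.card ≤ (Finset.univ : Finset (Fin (2 ^ (9 * r * k * (S.card + 1))))).card := by
    refine Finset.card_le_card_of_injOn f (fun _ _ => Finset.mem_coe.2 (Finset.mem_univ _)) ?_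
    intro t ht t' ht' he
    obtain ⟨a1, a2, a3⟩ := hF t ht
    obtain ⟨b1, b2, b3⟩ := hF t' ht'
    exact gap hr hk hS hl a1 b1 a2 b2 a3 b3 (prec_card hk hl0 S) (hf t t' a1 b1 a2 b2 he)
  rwa [Finset.card_univ, Fintype.card_fin] at h1

/-- one cell contains few points with a distinguished prime -/
theorem card_P {L : Fm r} (hr : 2 ≤ r) {k : ℕ} (hk : 1 ≤ k) {S Q : Finset ℕ} {A B C I : Fin r}
    {e : ℕ} {X l : ℝ} {n K : ℕ} (hAB : A ≠ B) (hAC : A ≠ C) (hS : ∀ q ∈ S, q.Prime)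
    (hl : 4 * (k : ℝ) * cL L ≤ l) (hn : 0 < n) (F : Finset (ℤ × ℤ))
    (hF : ∀ t ∈ F, ∃ p, InP L k S Q A B C I e X l t p) (hK : ∀ t ∈ F, ∀ j, va L t j ≤ 2 ^ K)
    (hcond : 4 * (n + 1) * (∏ q ∈ S, q) * (n * K + 1) ^ (2 * S.card) < 2 ^ n)
    (hbad : Real.log e + n * (2 * Real.log (Rs L) + Real.log ⌊X⌋₊) < l / k) :
    F.card ≤ 2 ^ (9 * r * k * (S.card + 1)) * n := by
  classical
  have hk0 : (0 : ℝ) < k := by exact_mod_cast hk
  have hl0 : 0 ≤ l := le_trans (by have := cL_ge L; positivity) hl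
  by_contra hcon
  push Not at hcon
  obtain ⟨f, hf⟩ := cells hk S l hl
  have hcard2 : (Finset.univ : Finset (Fin (2 ^ (9 * r * k * (S.card + 1))))).card * n <
      F.card := by
    rw [Finset.card_univ, Fintype.card_fin]
    exact hcon
  obtain ⟨c, _, hc⟩ := Finset.exists_lt_card_fiber_of_mul_lt_card_of_maps_to
    (s := F) (f := f) (fun _ _ => Finset.mem_univ _) hcard2
  obtain ⟨T, hT, hTc⟩ := Finset.exists_subset_card_eq hc.le
  let io : Fin n ≃ T := (Finset.equivFinOfCardEq hTc).symm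
  have hmem : ∀ i : Fin n, (io i : ℤ × ℤ) ∈ F ∧ f (io i) = c := fun i =>
    Finset.mem_filter.1 (hT (io i).2)
  choose p hp using fun i : Fin n => hF _ (hmem i).1
  have hN : ∀ i j, Near1 L S (prec k l S) (io i : ℤ × ℤ) (io j) := fun i j =>
    hf _ _ (hp i).pt (hp j).pt (hp i).sc (hp j).sc ((hmem i).2.trans (hmem j).2.symm)
  have hinj : Function.Injective p := by
    intro i j hij
    have h1 := hp i
    have h2 := hp j
    rw [hij] at h1
    exact io.injective (Subtype.ext (InP.inj hr hk hS hl h1 h2 (hN i j)))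
  have := pig hk hAB hAC hS hl0 hn hp hN hinj (fun i => hK _ (hmem i).1)
    (fun i => Nat.le_floor (hp i).pX) hcond
  linarith

end NZ

theorem log_prod_primes {S : Finset ℕ} (hS : ∀ q ∈ S, q.Prime) :
    Real.log ((∏ q ∈ S, q : ℕ) : ℝ) = ∑ q ∈ S, Real.log q := by
  push_cast
  rw [Real.log_prod]
  intro q hq
  exact_mod_cast (hS q hq).ne_zero

/-- the exponent -/
noncomputable def xe (d k : ℕ) : ℝ := 2 / ((d : ℝ) + 3) + 6 / k

theorem xe_nonneg (d k : ℕ) : 0 ≤ xe d k := by unfold xe; positivity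

/-- the sum over the products of the prescribed primes -/
theorem count {d : ℕ} {L : Fm (d + 3)} {k : ℕ} (hk : 6 ≤ k) {X l : ℝ} (hX : 1 ≤ X)
    (hl : 4 * (k : ℝ) * cL L ≤ l) {n K E : ℕ} (hn : 0 < n) (F : Finset (ℤ × ℤ))
    (hF : ∀ t ∈ F, Pt L t ∧ Scale k l t) (hrad : ∀ t ∈ F, ∑ i, rr L t i ≤ Real.log X)
    (hK : ∀ t ∈ F, ∀ j, va L t j ≤ 2 ^ K) (hE : ∀ t ∈ F, ∀ p, vv L t p ≤ E)
    (hcond : ∀ m : ℕ, 1 ≤ m → (m : ℝ) ≤ Rs L * X ^ xe d k →
      4 * (n + 1) * m * (n * K + 1) ^ (2 * m.primeFactors.card) < 2 ^ n)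
    (hbad : ∀ e : ℕ, e ≤ E →
      Real.log e + n * (2 * Real.log (Rs L) + Real.log ⌊X⌋₊) < l / k) :
    F.card ≤ ∑ m ∈ Finset.Icc 1 ⌊Rs L * X ^ xe d k⌋₊,
      2 ^ (9 * (d + 3) * k * (m.primeFactors.card + 1)) *
        ((d + 3) + (d + 3) ^ 4 * (2 ^ m.primeFactors.card * ((E + 1) * n))) := by
  classical
  have hk0 : (0 : ℝ) < k := by positivity
  have hk1 : 1 ≤ k := by omega
  have hX0 : 0 < X := by linarith
  set M : ℕ := ⌊Rs L * X ^ xe d k⌋₊ with hM
  -- the pieces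
  set FL : ℕ → Fin (d + 3) → Finset (ℤ × ℤ) := fun m I =>
    F.filter fun t => Light L k m.primeFactors I t with hFL
  set FP : ℕ → Fin (d + 3) × Fin (d + 3) × Fin (d + 3) × Fin (d + 3) → Finset ℕ → ℕ →
      Finset (ℤ × ℤ) := fun m σ Q e =>
    F.filter fun t => σ.1 ≠ σ.2.1 ∧ σ.2.1 ≠ σ.2.2.1 ∧ σ.1 ≠ σ.2.2.1 ∧
      ∃ p, InP L k m.primeFactors Q σ.1 σ.2.1 σ.2.2.1 σ.2.2.2 e X l t p with hFP
  set G : ℕ → Finset (ℤ × ℤ) := fun m =>
    (Finset.univ : Finset (Fin (d + 3))).biUnion (fun I => FL m I) ∪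
    (Finset.univ : Finset (Fin (d + 3) × Fin (d + 3) × Fin (d + 3) × Fin (d + 3))).biUnion
      (fun σ => m.primeFactors.powerset.biUnion (fun Q => (Finset.range (E + 1)).biUnion (fun e =>
        FP m σ Q e))) with hG
  have hsub : F ⊆ (Finset.Icc 1 M).biUnion G := by
    intro t ht
    obtain ⟨h1, h2⟩ := hF t ht
    have h3 := hrad t ht
    have hR0 : 0 ≤ ∑ i, rr L t i := Finset.sum_nonneg fun i _ => rr_nonneg L t i
    have hpX : ∀ p ∈ (Np L t).primeFactors, (p : ℝ) ≤ X := by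
      intro p hp
      have hp0 : (0 : ℝ) < p := by exact_mod_cast (Nat.prime_of_mem_primeFactors hp).pos
      have h4 : Real.log p ≤ ∑ i, rr L t i := by
        rw [rr_sum]
        exact Finset.single_le_sum (f := fun q : ℕ => Real.log (q : ℝ))
          (fun q hq => log_prime_nonneg (Nat.prime_of_mem_primeFactors hq)) hp
      exact (Real.log_le_log_iff hp0 hX0).1 (h4.trans h3)
    obtain ⟨S, hS, hgood, hsum⟩ := choice (by omega : 6 ≤ k) (X := X) hl h1 h2 hpX
    have hpf : (∏ q ∈ S, q).primeFactors = S := Nat.primeFactors_prod hS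
    have hmpos : 0 < ∏ q ∈ S, q := Finset.prod_pos fun q hq => (hS q hq).pos
    have hRp : (0 : ℝ) < Rs L := by exact_mod_cast Rs_pos L
    have hmM : ((∏ q ∈ S, q : ℕ) : ℝ) ≤ Rs L * X ^ xe d k := by
      rw [← Real.log_le_log_iff (by exact_mod_cast hmpos)
        (mul_pos hRp (Real.rpow_pos_of_pos hX0 _)),
        Real.log_mul hRp.ne' (Real.rpow_pos_of_pos hX0 _).ne', Real.log_rpow hX0,
        log_prod_primes hS]
      refine hsum.trans (add_le_add_right ?_ _)
      exact mul_le_mul_of_nonneg_left h3 (xe_nonneg d k)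
    rw [Finset.mem_biUnion]
    refine ⟨∏ q ∈ S, q, Finset.mem_Icc.2 ⟨hmpos, Nat.le_floor hmM⟩, ?_⟩
    rcases hgood with ⟨I, hg⟩ | ⟨A, B, C, I, Q, e, p, hAB, hBC, hAC, hP⟩
    · refine Finset.mem_union_left _ (Finset.mem_biUnion.2 ⟨I, Finset.mem_univ _,
        Finset.mem_filter.2 ⟨ht, ?_⟩⟩)
      rw [hpf]
      exact hg
    · refine Finset.mem_union_right _ ?_
      rw [Finset.mem_biUnion]
      refine ⟨(A, B, C, I), Finset.mem_univ _, ?_⟩
      rw [Finset.mem_biUnion]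
      refine ⟨Q, ?_, ?_⟩
      · rw [hpf, Finset.mem_powerset]
        exact hP.QS
      · rw [Finset.mem_biUnion]
        refine ⟨e, Finset.mem_range.2 (Nat.lt_succ_of_le ?_), Finset.mem_filter.2
          ⟨ht, hAB, hBC, hAC, p, ?_⟩⟩
        · rw [← hP.ve]
          exact hE t ht p
        · rw [hpf]
          exact hP
  refine (Finset.card_le_card hsub).trans (Finset.card_biUnion_le.trans
    (Finset.sum_le_sum fun m hm => ?_))
  obtain ⟨hm1, hm2⟩ := Finset.mem_Icc.1 hm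
  have hmX : (m : ℝ) ≤ Rs L * X ^ xe d k := by
    have h1 : (m : ℝ) ≤ (M : ℝ) := by exact_mod_cast hm2
    exact h1.trans (Nat.floor_le (by positivity))
  have hSp : ∀ q ∈ m.primeFactors, q.Prime := fun q hq => Nat.prime_of_mem_primeFactors hq
  have c1 : ∀ I, (FL m I).card ≤ 2 ^ (9 * (d + 3) * k * (m.primeFactors.card + 1)) := fun I =>
    card_light (by omega) hk1 hSp hl _ fun t ht => by
      obtain ⟨h1, h2⟩ := Finset.mem_filter.1 ht
      exact ⟨(hF t h1).1, (hF t h1).2, h2⟩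
  have c2 : ∀ σ Q e, e ∈ Finset.range (E + 1) → (FP m σ Q e).card ≤
      2 ^ (9 * (d + 3) * k * (m.primeFactors.card + 1)) * n := by
    intro σ Q e he
    by_cases hσ : σ.1 ≠ σ.2.1 ∧ σ.2.1 ≠ σ.2.2.1 ∧ σ.1 ≠ σ.2.2.1
    · obtain ⟨hAB, hBC, hAC⟩ := hσ
      refine card_P (by omega) hk1 (S := m.primeFactors) (Q := Q) (X := X) (e := e) (K := K)
        (I := σ.2.2.2) hAB hAC hSp hl hn _ ?_ ?_ ?_
        (hbad e (Nat.lt_succ_iff.1 (Finset.mem_range.1 he)))
      · intro t ht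
        exact (Finset.mem_filter.1 ht).2.2.2.2
      · intro t ht
        exact hK t (Finset.mem_filter.1 ht).1
      · refine lt_of_le_of_lt (Nat.mul_le_mul_right _ (Nat.mul_le_mul_left _ ?_))
          (hcond m hm1 hmX)
        exact Nat.le_of_dvd hm1 (Nat.prod_primeFactors_dvd m)
    · have : FP m σ Q e = ∅ := by
        rw [Finset.eq_empty_iff_forall_notMem]
        intro t ht
        obtain ⟨_, a1, a2, a3, _⟩ := Finset.mem_filter.1 ht
        exact hσ ⟨a1, a2, a3⟩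
      rw [this, Finset.card_empty]
      exact Nat.zero_le _
  refine (Finset.card_union_le _ _).trans ?_
  rw [Nat.mul_add]
  refine Nat.add_le_add ?_ ?_
  · refine (Finset.card_biUnion_le_card_mul _ _
      (2 ^ (9 * (d + 3) * k * (m.primeFactors.card + 1))) fun I _ => c1 I).trans (le_of_eq ?_)
    rw [Finset.card_univ, Fintype.card_fin, Nat.mul_comm]
  · refine (Finset.card_biUnion_le_card_mul _ _ (2 ^ m.primeFactors.card * ((E + 1) *
      (2 ^ (9 * (d + 3) * k * (m.primeFactors.card + 1)) * n))) ?_).trans (le_of_eq ?_)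
    · intro σ _
      refine (Finset.card_biUnion_le_card_mul _ _ ((E + 1) *
        (2 ^ (9 * (d + 3) * k * (m.primeFactors.card + 1)) * n)) ?_).trans (le_of_eq ?_)
      · intro Q _
        refine (Finset.card_biUnion_le_card_mul _ _
          (2 ^ (9 * (d + 3) * k * (m.primeFactors.card + 1)) * n) ?_).trans (le_of_eq ?_)
        · intro e he
          exact c2 σ Q e he
        · rw [Finset.card_range]
      · rw [Finset.card_powerset]
    · rw [Finset.card_univ, Fintype.card_prod, Fintype.card_prod, Fintype.card_prod,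
        Fintype.card_fin]
      ring

end Pool.Agent.TH867.QF
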