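import Pool.Agent.W511.RA.PG2
import Pool.Agent.W12.RA.LTE

/-! The pigeonhole argument with products of primes, with coefficients and bounded common factors
(helper867). -/

set_option autoImplicit false

namespace Pool.Agent.TH867.QF

open Finset

theorem pg3 {m e n K G Y κ : ℕ} {β γ : ℤ} {p x z : Fin n → ℕ} (hm : Squarefree m) (he : 1 ≤ e)
    (hκ : κ ≠ 0) (hβ : β ≠ 0) (hp : ∀ i, (p i).Prime) (hpm : ∀ i, ¬ p i ∣ m)
    (hpY : ∀ i, p i ≤ Y) (hinj : Function.Injective p) (hx : ∀ i, x i ∣ m ^ K)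
    (hz : ∀ i, z i ∣ m ^ K) (hG0 : 0 < G) (hG : ∀ q : ℕ, q.Prime → q ∣ G → q ∣ m)
    (hxG : ∀ i, ∀ q : ℕ, q.Prime → q ∣ G → β.natAbs.factorization q + (x i).factorization q ≤
      κ.factorization q)
    (hdvd : ∀ i, (G : ℤ) ∣ β * ((p i : ℤ) ^ e * x i) + γ * z i)
    (hcard : 4 * (n + 1) * m * (n * K + 1) ^ (2 * m.primeFactors.card) < 2 ^ n) :
    G ≤ κ ^ n * (e * Y ^ n) := by
  classical
  have hm0 : m ≠ 0 := hm.ne_zero
  have hmpos : 0 < m := Nat.pos_of_ne_zero hm0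
  have hx0 : ∀ i, x i ≠ 0 := fun i h0 => by
    have := hx i
    rw [h0, zero_dvd_iff] at this
    exact (pow_ne_zero _ hm0) this
  -- `n` is positive
  have hn : 0 < n := by
    rcases Nat.eq_zero_or_pos n with h | h
    · exfalso
      subst h
      have h1 : 1 ≤ (0 * K + 1) ^ (2 * m.primeFactors.card) := Nat.one_le_pow _ _ (by omega)
      have h2 : 4 * (0 + 1) * m * 1 ≤ 4 * (0 + 1) * m * (0 * K + 1) ^ (2 * m.primeFactors.card) :=
        Nat.mul_le_mul_left _ h1
      have h3 : (2 : ℕ) ^ 0 = 1 := rfl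
      omega
    · exact h
  have hY : 1 ≤ Y := (hp ⟨0, hn⟩).one_lt.le.trans (hpY ⟨0, hn⟩)
  -- the pigeonhole map
  set D : Finset ℕ := (m ^ (n * K)).divisors with hD
  have hmemD : ∀ (w : Fin n → ℕ), (∀ i, w i ∣ m ^ K) → ∀ I : Finset (Fin n), ∏ i ∈ I, w i ∈ D := by
    intro w hw I
    rw [hD, Nat.mem_divisors]
    refine ⟨?_, pow_ne_zero _ hm0⟩
    have h1 : ∏ i ∈ I, w i ∣ ∏ _i ∈ I, m ^ K := Finset.prod_dvd_prod_of_dvd _ _ fun i _ => hw i
    refine h1.trans ?_
    rw [Finset.prod_const, ← pow_mul]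
    refine pow_dvd_pow _ ?_
    have h2 : I.card ≤ n := by simpa using Finset.card_le_univ I
    rw [Nat.mul_comm n K]
    exact Nat.mul_le_mul_left _ h2
  let φ : Finset (Fin n) → ℕ × ℕ × ℕ × ℕ := fun I =>
    (I.card, ∏ i ∈ I, x i, ∏ i ∈ I, z i, (∏ i ∈ I, p i) % (4 * m))
  have hcardt : ((range (n + 1)) ×ˢ D ×ˢ D ×ˢ (range (4 * m))).card <
      (Finset.univ : Finset (Finset (Fin n))).card := by
    have h1 : (Finset.univ : Finset (Finset (Fin n))).card = 2 ^ n := by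
      rw [Finset.card_univ, Fintype.card_finset, Fintype.card_fin]
    rw [h1, Finset.card_product, Finset.card_product, Finset.card_product, Finset.card_range,
      Finset.card_range]
    refine lt_of_le_of_lt ?_ hcard
    have h2 : D.card ≤ (n * K + 1) ^ m.primeFactors.card :=
      Pool.Agent.W511.RA.PG2.card_div hm (n * K)
    calc (n + 1) * (D.card * (D.card * (4 * m))) = 4 * (n + 1) * m * (D.card * D.card) := by ring
      _ ≤ 4 * (n + 1) * m *
          ((n * K + 1) ^ m.primeFactors.card * (n * K + 1) ^ m.primeFactors.card) :=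
        Nat.mul_le_mul_left _ (Nat.mul_le_mul h2 h2)
      _ = 4 * (n + 1) * m * (n * K + 1) ^ (2 * m.primeFactors.card) := by rw [two_mul, pow_add]
  obtain ⟨I, -, J, -, hIJ, hφ⟩ := Finset.exists_ne_map_eq_of_card_lt_of_maps_to hcardt
    (f := φ) (fun I _ => by
      simp only [φ, Finset.mem_coe, Finset.mem_product, Finset.mem_range]
      refine ⟨?_, hmemD x hx I, hmemD z hz I, Nat.mod_lt _ (by omega)⟩
      have h2 : I.card ≤ n := by simpa using Finset.card_le_univ I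
      omega)
  simp only [φ, Prod.mk.injEq] at hφ
  obtain ⟨hc, hX, hZ, hPQ⟩ := hφ
  set P := ∏ i ∈ I, p i with hP
  set Q := ∏ i ∈ J, p i with hQ
  -- congruence modulo `4 m`
  have h4m : ((4 * m : ℕ) : ℤ) ∣ (P : ℤ) - Q := by
    have h1 : Q ≡ P [MOD 4 * m] := hPQ.symm
    exact (Nat.modEq_iff_dvd.1 h1)
  -- congruence modulo `G`
  have hkey : ∀ I : Finset (Fin n), (β : ZMod G) ^ I.card * (((∏ i ∈ I, p i : ℕ) : ZMod G) ^ e *
      ((∏ i ∈ I, x i : ℕ) : ZMod G)) = (-(γ : ZMod G)) ^ I.card *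
        ((∏ i ∈ I, z i : ℕ) : ZMod G) := by
    intro I
    have h1 : ∀ i, (β : ZMod G) * (((p i : ℕ) : ZMod G) ^ e * ((x i : ℕ) : ZMod G)) =
        (-(γ : ZMod G)) * ((z i : ℕ) : ZMod G) := by
      intro i
      have h2 := (ZMod.intCast_zmod_eq_zero_iff_dvd _ G).2 (hdvd i)
      push_cast at h2
      rw [neg_mul]
      exact eq_neg_of_add_eq_zero_left h2
    push_cast
    rw [← Finset.prod_pow, ← Finset.prod_mul_distrib, ← Finset.prod_const,
      ← Finset.prod_mul_distrib, Finset.prod_congr rfl fun i _ => h1 i,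
      Finset.prod_mul_distrib, Finset.prod_const]
  have hI := hkey I
  have hJ := hkey J
  rw [← hX, ← hZ, ← hc, ← hI] at hJ
  have hdiv1 : (G : ℤ) ∣ ((β ^ I.card) * ((∏ i ∈ I, x i : ℕ) : ℤ)) *
      ((P : ℤ) ^ e - (Q : ℤ) ^ e) := by
    rw [← ZMod.intCast_zmod_eq_zero_iff_dvd]
    push_cast
    have h2 := hJ.symm
    push_cast at h2
    rw [hP, hQ]
    push_cast
    linear_combination h2
  -- `P` and `Q` are different
  have hmemP : ∀ (I : Finset (Fin n)) (i : Fin n), p i ∣ ∏ i ∈ I, p i ↔ i ∈ I := by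
    intro I i
    constructor
    · intro h
      obtain ⟨j, hj, hij⟩ := ((hp i).prime.dvd_finsetProd_iff _).1 h
      have := (Nat.prime_dvd_prime_iff_eq (hp i) (hp j)).1 hij
      rw [hinj this]; exact hj
    · intro h
      exact Finset.dvd_prod_of_mem _ h
  have hne : P ≠ Q := by
    intro h
    apply hIJ
    ext i
    rw [← hmemP I i, ← hmemP J i, ← hP, ← hQ, h]
  have hnz0 : (P : ℤ) ^ e - (Q : ℤ) ^ e ≠ 0 := by
    intro h0
    apply hne
    have h1 : P ^ e = Q ^ e := by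
      have h2 : (P : ℤ) ^ e = (Q : ℤ) ^ e := by linarith
      exact_mod_cast h2
    exact Nat.pow_left_injective (by omega : e ≠ 0) h1
  obtain ⟨N, hN⟩ : ∃ N, N = ((P : ℤ) ^ e - (Q : ℤ) ^ e).natAbs := ⟨_, rfl⟩
  have hN0 : N ≠ 0 := by rw [hN]; exact Int.natAbs_ne_zero.2 hnz0
  have hβ0 : β.natAbs ≠ 0 := Int.natAbs_ne_zero.2 hβ
  have hX0 : ∏ i ∈ I, x i ≠ 0 := Finset.prod_ne_zero_iff.2 fun i _ => hx0 i
  have hdiv2 : G ∣ (β.natAbs ^ I.card * ∏ i ∈ I, x i) * N := by
    have h1 := Int.natCast_dvd.1 hdiv1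
    rw [Int.natAbs_mul, Int.natAbs_mul, Int.natAbs_pow, Int.natAbs_natCast, ← hN] at h1
    exact h1
  have hIn : I.card ≤ n := by simpa using Finset.card_le_univ I
  -- divisibility by `κ ^ n N`
  have hdiv3 : G ∣ κ ^ n * N := by
    rw [← Nat.factorization_le_iff_dvd hG0.ne' (mul_ne_zero (pow_ne_zero _ hκ) hN0)]
    intro q
    by_cases hq : q.Prime ∧ q ∣ G
    · have h1 := (Nat.factorization_le_iff_dvd hG0.ne'
        (mul_ne_zero (mul_ne_zero (pow_ne_zero _ hβ0) hX0) hN0)).2 hdiv2 q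
      refine h1.trans ?_
      rw [Nat.factorization_mul (mul_ne_zero (pow_ne_zero _ hβ0) hX0) hN0,
        Nat.factorization_mul (pow_ne_zero _ hκ) hN0, Finsupp.add_apply, Finsupp.add_apply]
      refine Nat.add_le_add_right ?_ _
      rw [Nat.factorization_mul (pow_ne_zero _ hβ0) hX0, Nat.factorization_pow,
        Nat.factorization_pow, Nat.factorization_prod (fun i _ => hx0 i), Finsupp.add_apply,
        Finsupp.smul_apply, Finsupp.smul_apply, smul_eq_mul, smul_eq_mul,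
        Finsupp.finsetSum_apply]
      calc I.card * β.natAbs.factorization q + ∑ i ∈ I, (x i).factorization q =
          ∑ i ∈ I, (β.natAbs.factorization q + (x i).factorization q) := by
            rw [Finset.sum_add_distrib, Finset.sum_const, smul_eq_mul]
        _ ≤ ∑ _i ∈ I, κ.factorization q := Finset.sum_le_sum fun i _ => hxG i q hq.1 hq.2
        _ = I.card * κ.factorization q := by rw [Finset.sum_const, smul_eq_mul]
        _ ≤ n * κ.factorization q := Nat.mul_le_mul_right _ hIn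
    · have h0 : G.factorization q = 0 := by
        by_cases hq1 : q.Prime
        · exact Nat.factorization_eq_zero_of_not_dvd fun hd => hq ⟨hq1, hd⟩
        · exact Nat.factorization_eq_zero_of_not_prime _ hq1
      rw [h0]
      exact Nat.zero_le _
  obtain ⟨g, hg⟩ : ∃ g, g = Nat.gcd G (κ ^ n) := ⟨_, rfl⟩
  have hgpos : 0 < g := by rw [hg]; exact Nat.gcd_pos_of_pos_left _ hG0
  have hgG : g ∣ G := by rw [hg]; exact Nat.gcd_dvd_left _ _
  have hgκ : g ∣ κ ^ n := by rw [hg]; exact Nat.gcd_dvd_right _ _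
  have hdiv4 : G / g ∣ N := by
    have h1 : Nat.Coprime (G / g) (κ ^ n / g) := by
      rw [hg]; exact Nat.coprime_div_gcd_div_gcd (by rw [← hg]; exact hgpos)
    have h2 : G / g ∣ (κ ^ n / g) * N := by
      obtain ⟨c, hc'⟩ := hdiv3
      obtain ⟨a, ha⟩ := hgG
      obtain ⟨b, hb⟩ := hgκ
      rw [ha, hb, Nat.mul_div_cancel_left _ hgpos, Nat.mul_div_cancel_left _ hgpos]
      refine ⟨c, ?_⟩
      rw [ha, hb] at hc'
      refine Nat.eq_of_mul_eq_mul_left hgpos ?_
      linarith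
    exact h1.dvd_of_dvd_mul_left h2
  have hdiv5 : ((G / g : ℕ) : ℤ) ∣ (P : ℤ) ^ e - (Q : ℤ) ^ e := by
    rw [Int.natCast_dvd, ← hN]
    exact hdiv4
  have hPm : Nat.Coprime P m := Nat.Coprime.prod_left fun i _ =>
    ((hp i).coprime_iff_not_dvd).2 (hpm i)
  have hfin := Pool.Agent.W12.RA.tLTE (G / g) e P Q m he
    (fun q hq hqG => hG q hq (hqG.trans (Nat.div_dvd_of_dvd hgG))) hPm h4m hdiv5
  have hle : ∀ I : Finset (Fin n), ∏ i ∈ I, p i ≤ Y ^ n := by
    intro I
    calc ∏ i ∈ I, p i ≤ ∏ _i ∈ I, Y := Finset.prod_le_prod' fun i _ => hpY i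
      _ = Y ^ I.card := Finset.prod_const _
      _ ≤ Y ^ n := Nat.pow_le_pow_right hY (by simpa using Finset.card_le_univ I)
  have hPY : P ≤ Y ^ n := hle I
  have hQY : Q ≤ Y ^ n := hle J
  have h5 := Int.natAbs_dvd_natAbs.2 hfin
  rw [Int.natAbs_natCast, Int.natAbs_mul, Int.natAbs_natCast] at h5
  have h6 : 0 < e * ((P : ℤ) - Q).natAbs := by
    have h7 : ((P : ℤ) - Q).natAbs ≠ 0 := by
      rw [Ne, Int.natAbs_eq_zero]
      intro h8
      exact hne (by exact_mod_cast sub_eq_zero.1 h8)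
    positivity
  have h7 : G / g ≤ e * Y ^ n := by
    refine (Nat.le_of_dvd h6 h5).trans (Nat.mul_le_mul_left _ ?_)
    omega
  have h8 : g ≤ κ ^ n := Nat.le_of_dvd (pow_pos (Nat.pos_of_ne_zero hκ) _) hgκ
  calc G = g * (G / g) := (Nat.mul_div_cancel' hgG).symm
    _ ≤ κ ^ n * (e * Y ^ n) := Nat.mul_le_mul h8 h7

end Pool.Agent.TH867.QF
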