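import Pool.Agent.TH867.QF.Cell
import Pool.Agent.TH867.QF.PG3

/-! Points with one distinguished prime: at most one per prime in a cell, and few primes
(helper867). -/

set_option autoImplicit false

namespace Pool.Agent.TH867.QF

open Finset
open Pool.Agent.TH867.SR (sum_fac_le log_prime_nonneg dvd_pow_K log_prod_pow)

set_option linter.unusedSectionVars false

variable {r : ℕ} [NeZero r]

/-- exponents of two sides and of a part of a third one -/
theorem fv_add_le {L : Fm r} {P : ℤ × ℤ} (h : Pt L P) {A B C : Fin r} (hAB : A ≠ B)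
    (hBC : B ≠ C) (hAC : A ≠ C) {Q : Finset ℕ} (hQ : ∀ q ∈ Q, ty L P q = A) {q : ℕ}
    (hq : q.Prime) : fv L P B q + fv L P C q + (if q ∈ Q then vv L P q else 0) ≤
      vv L P q + 2 * (Rs L).factorization q := by
  by_cases hqQ : q ∈ Q
  · rw [if_pos hqQ]
    have h1 := hQ q hqQ
    have h2 := fv_le_Rs h hq (i := B) (by rw [h1]; exact hAB)
    have h3 := fv_le_Rs h hq (i := C) (by rw [h1]; exact hAC)
    omega
  · rw [if_neg hqQ]
    have h1 := min_fv h hBC hq
    have h2 := fv_le_vv L P B q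
    have h3 := fv_le_vv L P C q
    rcases le_total (fv L P B q) (fv L P C q) with h4 | h4
    · rw [min_eq_left h4] at h1; omega
    · rw [min_eq_right h4] at h1; omega

/-- a sum over the primes of a value -/
theorem log_va_eq {L : Fm r} {P : ℤ × ℤ} (h : Pt L P) (i : Fin r) {S : Finset ℕ}
    (hS : (va L P i).primeFactors ⊆ S) :
    ∑ q ∈ S, (fv L P i q : ℝ) * Real.log q = Real.log (va L P i) := by
  rw [Pool.Agent.TH867.SR.log_eq_sum' (va_pos h i).ne']
  symm
  refine Finset.sum_subset hS fun q _ hq => ?_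
  have h0 : (va L P i).factorization q = 0 := by
    rw [← Finsupp.notMem_support_iff, Nat.support_factorization]
    exact hq
  rw [h0]
  simp

/-- two sides and a part of a third one -/
theorem weight_ge {L : Fm r} {P : ℤ × ℤ} (h : Pt L P) {A B C : Fin r} (hAB : A ≠ B)
    (hBC : B ≠ C) (hAC : A ≠ C) {S Q : Finset ℕ} (hS : ∀ q ∈ S, q.Prime)
    (hQ : ∀ q ∈ Q, ty L P q = A) (hQS : Q ⊆ S) (hB : (va L P B).primeFactors ⊆ S)
    (hC : (va L P C).primeFactors ⊆ S) :
    Real.log (va L P B) + Real.log (va L P C) + ∑ q ∈ Q, (vv L P q : ℝ) * Real.log q ≤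
      ∑ q ∈ S, (vv L P q : ℝ) * Real.log q + 2 * Real.log (Rs L) := by
  classical
  have h1 : ∑ q ∈ S, ((fv L P B q : ℝ) + fv L P C q + (if q ∈ Q then (vv L P q : ℝ) else 0)) *
      Real.log q ≤ ∑ q ∈ S, ((vv L P q : ℝ) + 2 * (Rs L).factorization q) * Real.log q := by
    refine Finset.sum_le_sum fun q hq => ?_
    refine mul_le_mul_of_nonneg_right ?_ (log_prime_nonneg (hS q hq))
    have h2 := fv_add_le h hAB hBC hAC hQ (hS q hq)
    have h3 : ((fv L P B q + fv L P C q + (if q ∈ Q then vv L P q else 0) : ℕ) : ℝ) ≤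
        ((vv L P q + 2 * (Rs L).factorization q : ℕ) : ℝ) := by exact_mod_cast h2
    push_cast at h3
    exact h3
  simp only [add_mul, Finset.sum_add_distrib] at h1
  rw [log_va_eq h B hB, log_va_eq h C hC] at h1
  have h4 : ∑ q ∈ S, (if q ∈ Q then (vv L P q : ℝ) else 0) * Real.log q =
      ∑ q ∈ Q, (vv L P q : ℝ) * Real.log q := by
    rw [← Finset.sum_filter_add_sum_filter_not S (fun q => q ∈ Q)]
    have e1 : S.filter (fun q => q ∈ Q) = Q := by
      ext q
      rw [Finset.mem_filter]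
      exact ⟨fun h => h.2, fun h => ⟨hQS h, h⟩⟩
    have e2 : ∑ q ∈ S.filter (fun q => ¬ q ∈ Q), (if q ∈ Q then (vv L P q : ℝ) else 0) *
        Real.log q = 0 := by
      refine Finset.sum_eq_zero fun q hq => ?_
      rw [if_neg (Finset.mem_filter.1 hq).2, zero_mul]
    rw [e2, add_zero, e1]
    refine Finset.sum_congr rfl fun q hq => ?_
    rw [if_pos hq]
  rw [h4] at h1
  have h5 : ∑ q ∈ S, 2 * ((Rs L).factorization q : ℝ) * Real.log q ≤ 2 * Real.log (Rs L) := by
    have := sum_fac_le S (Rs L)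
    calc ∑ q ∈ S, 2 * ((Rs L).factorization q : ℝ) * Real.log q =
        2 * ∑ q ∈ S, ((Rs L).factorization q : ℝ) * Real.log q := by
          rw [Finset.mul_sum]
          exact Finset.sum_congr rfl fun q _ => by ring
      _ ≤ _ := by linarith
  linarith

/-- the points `P` with a distinguished prime `p` of the side `B`; all the other primes of this
side and those of the side `C` are in `S`, as well as primes `Q` of the side `A` with a large
part -/
structure InP (L : Fm r) (k : ℕ) (S Q : Finset ℕ) (A B C I : Fin r) (e : ℕ) (X l : ℝ)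
    (P : ℤ × ℤ) (p : ℕ) : Prop where
  pt : Pt L P
  sc : Scale k l P
  pp : p.Prime
  pS : p ∉ S
  pX : (p : ℝ) ≤ X
  tB : ty L P p = B
  ve : vv L P p = e
  he : 1 ≤ e
  fB : (va L P B).primeFactors ⊆ insert p S
  fC : (va L P C).primeFactors ⊆ S
  QS : Q ⊆ S
  QA : ∀ q ∈ Q, ty L P q = A
  wt : 2 * Real.log (ht P) / k ≤ ∑ q ∈ Q, (vv L P q : ℝ) * Real.log q
  lt : Light L k (insert p S) I P

/-- the prime `p` and the cell determine the point -/
theorem InP.inj {L : Fm r} (hr : 2 ≤ r) {k : ℕ} (hk : 1 ≤ k) {S Q : Finset ℕ} {A B C I : Fin r}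
    {e : ℕ} {X l : ℝ} {t t' : ℤ × ℤ} {p : ℕ} (hS : ∀ q ∈ S, q.Prime)
    (hl : 4 * (k : ℝ) * cL L ≤ l) (h : InP L k S Q A B C I e X l t p)
    (h' : InP L k S Q A B C I e X l t' p) (hN : Near1 L S (prec k l S) t t') : t = t' := by
  classical
  have hk0 : (0 : ℝ) < k := by exact_mod_cast hk
  have hl0 : 0 ≤ l := le_trans (by have := cL_ge L; positivity) hl
  have hS' : ∀ q ∈ insert p S, q.Prime := by
    intro q hq
    rcases Finset.mem_insert.1 hq with rfl | hq
    · exact h.pp
    · exact hS q hq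
  have hN1 : Near1 L (insert p S) (prec k l S) t t' := by
    refine ⟨fun q hq => ?_, fun q hq => ?_, hN.sgn⟩
    · rcases Finset.mem_insert.1 hq with rfl | hq
      · rw [h.tB, h'.tB]
      · exact hN.side q hq
    · rcases Finset.mem_insert.1 hq with rfl | hq
      · rw [h.ve, h'.ve, sub_self, zero_mul, abs_zero]
        exact prec_nonneg hl0 S
      · exact hN.dist q hq
  refine gap hr hk hS' hl h.pt h'.pt h.sc h'.sc h.lt h'.lt ?_ hN1
  rw [Finset.card_insert_of_notMem h.pS]
  push_cast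
  exact (prec_mul hk S).le

/-- the pigeonhole argument -/
theorem pig {L : Fm r} {k : ℕ} (hk : 1 ≤ k) {S Q : Finset ℕ} {A B C I : Fin r} {e : ℕ}
    {X l : ℝ} {n K Y : ℕ} {t : Fin n → ℤ × ℤ} {p : Fin n → ℕ} (hAB : A ≠ B)
    (hAC : A ≠ C) (hS : ∀ q ∈ S, q.Prime) (hl : 0 ≤ l) (hn : 0 < n)
    (h : ∀ i, InP L k S Q A B C I e X l (t i) (p i))
    (hN : ∀ i j, Near1 L S (prec k l S) (t i) (t j)) (hinj : Function.Injective p)
    (hK : ∀ i j, va L (t i) j ≤ 2 ^ K) (hY : ∀ i, p i ≤ Y)
    (hcond : 4 * (n + 1) * (∏ q ∈ S, q) * (n * K + 1) ^ (2 * S.card) < 2 ^ n) :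
    l / k ≤ Real.log e + n * (2 * Real.log (Rs L) + Real.log Y) := by
  classical
  have hk0 : (0 : ℝ) < k := by exact_mod_cast hk
  have hne : Nonempty (Fin n) := ⟨⟨0, hn⟩⟩
  obtain ⟨m, hm⟩ : ∃ m, m = ∏ q ∈ S, q := ⟨_, rfl⟩
  have hmpos : 0 < m := by rw [hm]; exact Finset.prod_pos (fun q hq => (hS q hq).pos)
  have hmpf : m.primeFactors = S := by rw [hm]; exact Nat.primeFactors_prod hS
  have hsq : Squarefree m := by
    rw [hm]
    refine Finset.squarefree_prod_of_pairwise_isCoprime ?_ (fun q hq => (hS q hq).squarefree)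
    intro q hq r hr hqr
    exact Nat.coprime_iff_isRelPrime.1 ((Nat.coprime_primes (hS q hq) (hS r hr)).2 hqr)
  choose j hj using fun q : ℕ => Finite.exists_min (fun i : Fin n => vv L (t i) q)
  obtain ⟨G, hG⟩ : ∃ G, G = ∏ q ∈ Q, q ^ vv L (t (j q)) q := ⟨_, rfl⟩
  have hQp : ∀ i, ∀ q ∈ Q, q.Prime := fun i q hq => hS q ((h i).QS hq)
  have hGA : ∀ i, G ∣ va L (t i) A := by
    intro i
    rw [hG]
    refine Finset.prod_dvd_of_isRelPrime ?_ ?_
    · intro q hq r hr hqr
      exact Nat.coprime_iff_isRelPrime.1 (Nat.coprime_pow_primes _ _ (hQp i q hq) (hQp i r hr) hqr)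
    · intro q hq
      refine (pow_dvd_pow q (hj q i)).trans ?_
      have e1 : vv L (t i) q = (va L (t i) A).factorization q := by
        unfold vv fv
        rw [(h i).QA q hq]
      rw [e1]
      exact Nat.ordProj_dvd _ _
  obtain ⟨i0⟩ := hne
  have hGpos : 0 < G := Nat.pos_of_dvd_of_pos (hGA i0) (va_pos (h i0).pt A)
  have hGQ : ∀ q : ℕ, q.Prime → q ∣ G → q ∈ Q := by
    intro q hq hqG
    rw [hG] at hqG
    obtain ⟨s, hs, hqs⟩ := (hq.prime.dvd_finsetProd_iff _).1 hqG
    have h1 : q = s := (Nat.prime_dvd_prime_iff_eq hq (hQp i0 s hs)).1 (hq.dvd_of_dvd_pow hqs)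
    rw [h1]; exact hs
  -- size of `G`
  have hGlog : l / k ≤ Real.log (G : ℝ) := by
    have h1 : ∀ q ∈ Q, (vv L (t i0) q : ℝ) * Real.log q - prec k l S ≤
        (vv L (t (j q)) q : ℝ) * Real.log q := by
      intro q hq
      have h2 := (hN i0 (j q)).dist q ((h i0).QS hq)
      have h3 := (le_abs_self _).trans h2
      rw [sub_mul] at h3
      linarith
    have h2 := Finset.sum_le_sum h1
    rw [Finset.sum_sub_distrib, Finset.sum_const, nsmul_eq_mul] at h2
    have h3 : (Q.card : ℝ) * prec k l S ≤ l / (4 * k) := by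
      refine le_trans ?_ (prec_card hk hl S)
      refine mul_le_mul_of_nonneg_right ?_ (prec_nonneg hl S)
      exact_mod_cast Finset.card_le_card (h i0).QS
    rw [hG, log_prod_pow (hQp i0)]
    have h4 := (h i0).wt
    have h5 := (h i0).sc.1
    have h6 : l / k ≤ Real.log (ht (t i0)) / k := div_le_div_of_nonneg_right h5 hk0.le
    have e4 : l / k = 4 * (l / (4 * k)) := by field_simp
    have e5 : 2 * Real.log (ht (t i0)) / k = 2 * (Real.log (ht (t i0)) / k) := by ring
    have e6 : 0 ≤ l / (4 * k) := by positivity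
    linarith
  have he1 : 1 ≤ e := (h i0).he
  have hve : ∀ i, (va L (t i) B).factorization (p i) = e := by
    intro i
    rw [← (h i).ve]
    unfold vv fv
    rw [(h i).tB]
  have hB0 : ∀ i, va L (t i) B ≠ 0 := fun i => (va_pos (h i).pt B).ne'
  -- signs of the two other sides
  obtain ⟨σB, hσB, hσB2⟩ : ∃ σ : ℤ, (σ = 1 ∨ σ = -1) ∧ ∀ i, ev L (t i) B = σ * va L (t i) B := by
    by_cases h0 : 0 < ev L (t i0) B
    · refine ⟨1, Or.inl rfl, fun i => ?_⟩
      have h1 := ((hN i0 i).sgn B).1 h0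
      rw [one_mul, va, Int.natAbs_of_nonneg h1.le]
    · refine ⟨-1, Or.inr rfl, fun i => ?_⟩
      have h1 : ¬ 0 < ev L (t i) B := fun hh => h0 (((hN i0 i).sgn B).2 hh)
      rw [va, Int.ofNat_natAbs_of_nonpos (not_lt.1 h1)]
      ring
  obtain ⟨σC, hσC, hσC2⟩ : ∃ σ : ℤ, (σ = 1 ∨ σ = -1) ∧ ∀ i, ev L (t i) C = σ * va L (t i) C := by
    by_cases h0 : 0 < ev L (t i0) C
    · refine ⟨1, Or.inl rfl, fun i => ?_⟩
      have h1 := ((hN i0 i).sgn C).1 h0
      rw [one_mul, va, Int.natAbs_of_nonneg h1.le]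
    · refine ⟨-1, Or.inr rfl, fun i => ?_⟩
      have h1 : ¬ 0 < ev L (t i) C := fun hh => h0 (((hN i0 i).sgn C).2 hh)
      rw [va, Int.ofNat_natAbs_of_nonpos (not_lt.1 h1)]
      ring
  have hRs0 : Rs L ≠ 0 := (Rs_pos L).ne'
  have hβ0 : rs L C A ≠ 0 := L.res C A hAC.symm
  have hσB0 : σB ≠ 0 := by rcases hσB with h | h <;> rw [h] <;> norm_num
  have hσBa : σB.natAbs = 1 := by rcases hσB with h | h <;> rw [h] <;> rfl
  have hle : G ≤ (Rs L ^ 2) ^ n * (e * Y ^ n) := by
    refine pg3 (m := m) (K := K) (β := rs L C A * σB) (γ := rs L A B * σC) (p := p)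
      (x := fun i => va L (t i) B / p i ^ e) (z := fun i => va L (t i) C) hsq he1
      (pow_ne_zero _ hRs0) (mul_ne_zero hβ0 hσB0) (fun i => (h i).pp) ?_ hY hinj ?_ ?_ hGpos
      ?_ ?_ ?_ ?_
    · intro i hd
      have : p i ∈ m.primeFactors := Nat.mem_primeFactors.2 ⟨(h i).pp, hd, hmpos.ne'⟩
      rw [hmpf] at this
      exact (h i).pS this
    · intro i
      show va L (t i) B / p i ^ e ∣ m ^ K
      rw [← hve i, hm]
      refine dvd_pow_K (Nat.ordCompl_pos _ (hB0 i)).ne' ?_ hS ?_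
      · intro q hq
        obtain ⟨hq1, hq2, _⟩ := Nat.mem_primeFactors.1 hq
        have h1 : q ∈ (va L (t i) B).primeFactors :=
          Nat.mem_primeFactors.2 ⟨hq1, hq2.trans (Nat.ordCompl_dvd _ _), hB0 i⟩
        rcases Finset.mem_insert.1 ((h i).fB h1) with h2 | h2
        · exfalso
          rw [h2] at hq2
          exact Nat.not_dvd_ordCompl (h i).pp (hB0 i) hq2
        · exact h2
      · exact (Nat.div_le_self _ _).trans (hK i B)
    · intro i
      rw [hm]
      exact dvd_pow_K (va_pos (h i).pt C).ne' (h i).fC hS (hK i C)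
    · intro q hq hqG
      rw [hm]
      exact Finset.dvd_prod_of_mem _ ((h i0).QS (hGQ q hq hqG))
    · intro i q hq hqG
      have hqQ := hGQ q hq hqG
      have h1 : (rs L C A * σB).natAbs.factorization q ≤ (Rs L).factorization q := by
        rw [Int.natAbs_mul, hσBa, Nat.mul_one]
        exact (Nat.factorization_le_iff_dvd (Int.natAbs_ne_zero.2 hβ0) hRs0).2
          (rs_dvd L hAC.symm) q
      have h2 : (va L (t i) B / p i ^ e).factorization q ≤ (Rs L).factorization q := by
        have h3 : va L (t i) B / p i ^ e ∣ va L (t i) B := by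
          rw [← hve i]
          exact Nat.ordCompl_dvd _ _
        have h4 : va L (t i) B / p i ^ e ≠ 0 := by
          intro h0
          rw [h0, zero_dvd_iff] at h3
          exact hB0 i h3
        refine ((Nat.factorization_le_iff_dvd h4 (hB0 i)).2 h3 q).trans ?_
        refine fv_le_Rs (h i).pt hq ?_
        rw [(h i).QA q hqQ]
        exact hAB
      rw [Nat.factorization_pow, Finsupp.smul_apply, smul_eq_mul]
      show (rs L C A * σB).natAbs.factorization q + (va L (t i) B / p i ^ e).factorization q ≤ _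
      omega
    · intro i
      have h1 : p i ^ e * (va L (t i) B / p i ^ e) = va L (t i) B := by
        rw [← hve i]; exact Nat.ordProj_mul_ordCompl_eq_self _ _
      have h2 : (p i : ℤ) ^ e * ((va L (t i) B / p i ^ e : ℕ) : ℤ) = (va L (t i) B : ℤ) := by
        exact_mod_cast h1
      show (G : ℤ) ∣ rs L C A * σB * ((p i : ℤ) ^ e * ((va L (t i) B / p i ^ e : ℕ) : ℤ)) +
        rs L A B * σC * (va L (t i) C : ℤ)
      rw [h2, mul_assoc, mul_assoc, ← hσB2 i, ← hσC2 i, lin3]
      refine Dvd.dvd.mul_left ?_ _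
      rw [Int.natCast_dvd]
      exact hGA i
    · rw [hmpf, hm]
      exact hcond
  have hYpos : 0 < Y := lt_of_lt_of_le (h i0).pp.pos (hY i0)
  refine hGlog.trans ?_
  have h1 : (G : ℝ) ≤ ((Rs L : ℝ) ^ 2) ^ n * ((e : ℝ) * (Y : ℝ) ^ n) := by exact_mod_cast hle
  have hGR : (0 : ℝ) < G := by exact_mod_cast hGpos
  have heR : (0 : ℝ) < e := by exact_mod_cast he1
  have hYR : (0 : ℝ) < Y := by exact_mod_cast hYpos
  have hRR : (0 : ℝ) < Rs L := by exact_mod_cast Rs_pos L
  have h2 := Real.log_le_log hGR h1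
  rw [Real.log_mul (by positivity) (by positivity), Real.log_mul heR.ne' (by positivity),
    Real.log_pow, Real.log_pow, Real.log_pow] at h2
  push_cast at h2
  linarith

end Pool.Agent.TH867.QF
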