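import Pool.Agent.TH867.QF.Count
import Pool.Agent.TH867.SR.Num

/-! Numerical conditions (helper867). -/

set_option autoImplicit false

namespace Pool.Agent.TH867.QF

open Finset

theorem mul_one_le' {a b : ℝ} (ha : 0 ≤ a) (hb : 1 ≤ b) : a ≤ a * b := le_mul_of_one_le_right ha hb

theorem one_mul_le' {a b : ℝ} (ha : 0 ≤ a) (hb : 1 ≤ b) : a ≤ b * a := le_mul_of_one_le_left ha hb

/-- the first condition -/
theorem num1 {B : ℝ} (hB : 1 ≤ B) {L l lam W : ℝ} (hL : 3 ≤ L) (hlam : lam = Real.log l)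
    (hlog : 1 ≤ lam) (hl0 : 0 < l) (hl3 : 3 ≤ l) (hW : W = B ^ 2 * (L * lam))
    (hWW : B * L ≤ W) (hW3 : 3 ≤ W) (hlogW : Real.log W ≤ 2 * Real.log B + 2 * lam)
    (hWlam : 3 * (B * lam) ≤ W)
    {n K : ℕ} (hn1 : 60 * W ≤ n) (hn61 : (n : ℝ) ≤ 61 * W) (hK : (K : ℝ) ≤ B * l) (m : ℕ)
    (hm : 1 ≤ m) (hmL : Real.log m ≤ B * L) :
    4 * (n + 1) * m * (n * K + 1) ^ (2 * m.primeFactors.card) < 2 ^ n := by
  have hB0 : 0 < B := by linarith
  have l2a := Real.log_two_gt_d9
  have l2b := Real.log_two_lt_d9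
  have hlogB : Real.log B ≤ B - 1 := Real.log_le_sub_one_of_pos hB0
  have hlog62 : Real.log 62 ≤ 4.2 := by
    have h1 : Real.log 62 ≤ Real.log 64 := Real.log_le_log (by norm_num) (by norm_num)
    have h2 : Real.log 64 = 6 * Real.log 2 := by
      rw [show (64 : ℝ) = 2 ^ 6 by norm_num, Real.log_pow]; norm_num
    linarith
  have hBl : B ≤ B * lam := mul_one_le' hB0.le hlog
  have hlB : lam ≤ B * lam := one_mul_le' (by linarith) hB
  have hm0 : (0 : ℝ) < m := by exact_mod_cast hm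
  obtain ⟨om, hom⟩ : ∃ om, om = m.primeFactors.card := ⟨_, rfl⟩
  rw [← hom]
  have hom2 : 2 ^ om ≤ m := by
    rw [hom]
    calc 2 ^ m.primeFactors.card = ∏ _q ∈ m.primeFactors, 2 := by rw [Finset.prod_const]
      _ ≤ ∏ q ∈ m.primeFactors, q :=
        Finset.prod_le_prod' (fun q hq => (Nat.prime_of_mem_primeFactors hq).two_le)
      _ ≤ m := Nat.le_of_dvd hm (Nat.prod_primeFactors_dvd m)
  have homL : (om : ℝ) * Real.log 2 ≤ B * L := by
    have h1 : Real.log ((2 : ℝ) ^ om) ≤ Real.log m :=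
      Real.log_le_log (by positivity) (by exact_mod_cast hom2)
    rw [Real.log_pow] at h1
    linarith
  have hom3 : (om : ℝ) ≤ 3 / 2 * (B * L) := by
    have h1 : (om : ℝ) * (2 / 3) ≤ (om : ℝ) * Real.log 2 :=
      mul_le_mul_of_nonneg_left (by linarith) (Nat.cast_nonneg _)
    linarith
  have hBl1 : 1 ≤ B * l := by
    have := mul_one_le' hB0.le (show 1 ≤ l by linarith)
    linarith
  have hnK : (n : ℝ) * K + 1 ≤ 62 * (W * (B * l)) := by
    have h1 : (n : ℝ) * K ≤ (61 * W) * (B * l) :=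
      mul_le_mul hn61 hK (Nat.cast_nonneg _) (by linarith)
    have h2 : W ≤ W * (B * l) := mul_one_le' (by linarith) hBl1
    linarith
  have hlogK : Real.log ((n : ℝ) * K + 1) ≤ 9 * (B * lam) := by
    have h1 : Real.log ((n : ℝ) * K + 1) ≤ Real.log (62 * (W * (B * l))) :=
      Real.log_le_log (by positivity) hnK
    have hW0 : 0 < W := by linarith
    rw [Real.log_mul (by norm_num) (by positivity), Real.log_mul hW0.ne' (by positivity),
      Real.log_mul hB0.ne' hl0.ne', ← hlam] at h1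
    linarith
  have hR : (4 : ℝ) * ((n : ℝ) + 1) * m * ((n : ℝ) * K + 1) ^ (2 * om) < 2 ^ n := by
    have hpos : (0 : ℝ) < (n : ℝ) * K + 1 := by positivity
    rw [← Real.log_lt_log_iff (by positivity) (by positivity), Real.log_mul (by positivity)
      (by positivity), Real.log_mul (by positivity) (by positivity),
      Real.log_mul (by norm_num) (by positivity), Real.log_pow, Real.log_pow]
    have h3 : Real.log 4 = 2 * Real.log 2 := by
      rw [show (4 : ℝ) = 2 ^ 2 by norm_num, Real.log_pow]; norm_num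
    rw [h3]
    have h4 : ((2 * om : ℕ) : ℝ) * Real.log ((n : ℝ) * K + 1) ≤ 27 * W := by
      push_cast
      calc (2 * (om : ℝ)) * Real.log ((n : ℝ) * K + 1) ≤
          (2 * (3 / 2 * (B * L))) * (9 * (B * lam)) := by
            refine mul_le_mul (by linarith) hlogK (Real.log_nonneg ?_) (by positivity)
            have : (0 : ℝ) ≤ (n : ℝ) * K := by positivity
            linarith
        _ = 27 * W := by rw [hW]; ring
    have h5 : Real.log ((n : ℝ) + 1) ≤ 4 * W := by
      have h6 : (n : ℝ) + 1 ≤ 62 * W := by linarith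
      have h7 := Real.log_le_log (by positivity) h6
      rw [Real.log_mul (by norm_num) (by linarith)] at h7
      linarith
    have h7 : 41 * W ≤ (n : ℝ) * Real.log 2 := by
      have h8 : 60 * W * Real.log 2 ≤ (n : ℝ) * Real.log 2 :=
        mul_le_mul_of_nonneg_right hn1 (by linarith)
      have h9 : 60 * W * 0.69 ≤ 60 * W * Real.log 2 :=
        mul_le_mul_of_nonneg_left (by linarith) (by linarith)
      linarith
    linarith
  exact_mod_cast hR

/-- the two numerical conditions -/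
theorem numeric {B : ℝ} (hB : 1 ≤ B) {k : ℕ} (hk : 1 ≤ k) {L l : ℝ} (hL : 3 ≤ L)
    (hlog : 1 ≤ Real.log l) (hLl : L ≤ l)
    (hT : (200 * (k : ℝ) * B ^ 3) * (L ^ 2 * Real.log l) ≤ l) {n K E : ℕ}
    (hn1 : 60 * B ^ 2 * (L * Real.log l) ≤ n) (hn2 : (n : ℝ) ≤ 60 * B ^ 2 * (L * Real.log l) + 1)
    (hK : (K : ℝ) ≤ B * l) (hE : (E : ℝ) ≤ B * l) :
    (∀ m : ℕ, 1 ≤ m → Real.log m ≤ B * L →
      4 * (n + 1) * m * (n * K + 1) ^ (2 * m.primeFactors.card) < 2 ^ n) ∧
    (∀ e : ℕ, e ≤ E → ∀ y : ℝ, y ≤ B + L → Real.log e + n * y < l / k) := by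
  have hk1 : (1 : ℝ) ≤ k := by exact_mod_cast hk
  have hk0 : (0 : ℝ) < k := by linarith
  have hB0 : 0 < B := by linarith
  have hl3 : 3 ≤ l := hL.trans hLl
  have hl0 : 0 < l := by linarith
  have hlogB : Real.log B ≤ B - 1 := Real.log_le_sub_one_of_pos hB0
  obtain ⟨lam, hlam⟩ : ∃ lam, lam = Real.log l := ⟨_, rfl⟩
  rw [← hlam] at hlog hT hn1 hn2
  obtain ⟨W, hW⟩ : ∃ W, W = B ^ 2 * (L * lam) := ⟨_, rfl⟩
  have hZ3 : 3 ≤ L * lam := by
    have := mul_one_le' (show 0 ≤ L by linarith) hlog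
    linarith
  have hBB : 1 ≤ B ^ 2 := one_le_pow₀ hB
  have hZW : L * lam ≤ W := by rw [hW]; exact one_mul_le' (by linarith) hBB
  have hlZ : 3 * lam ≤ L * lam := mul_le_mul_of_nonneg_right hL (by linarith)
  have hBZW : B * (L * lam) ≤ W := by
    rw [hW, sq, mul_assoc]
    exact one_mul_le' (by positivity) hB
  have hLZ : L ≤ L * lam := mul_one_le' (by linarith) hlog
  have hWW : B * L ≤ W := (mul_le_mul_of_nonneg_left hLZ hB0.le).trans hBZW
  have hWlam : 3 * (B * lam) ≤ W := by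
    have := mul_le_mul_of_nonneg_left hlZ hB0.le
    linarith
  have hlogL : Real.log L ≤ lam := by rw [hlam]; exact Real.log_le_log (by linarith) hLl
  have hlogW : Real.log W ≤ 2 * Real.log B + 2 * lam := by
    have hlamlog : Real.log lam ≤ lam := by
      have := Real.log_le_sub_one_of_pos (show 0 < lam by linarith)
      linarith
    have hlam0 : 0 < lam := by linarith
    rw [hW, Real.log_mul (by positivity) (by positivity), Real.log_pow,
      Real.log_mul (by positivity) (by positivity)]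
    push_cast
    linarith
  have hn1' : 60 * W ≤ n := by rw [hW]; linarith
  have hn61 : (n : ℝ) ≤ 61 * W := by
    have : (n : ℝ) ≤ 60 * W + 1 := by rw [hW]; linarith
    linarith
  refine ⟨fun m hm hmL => num1 hB hL hlam hlog hl0 hl3 hW hWW (by linarith) hlogW hWlam hn1' hn61
    hK m hm hmL, ?_⟩
  intro e he y hy
  have h1 : Real.log (e : ℝ) ≤ B + lam := by
    rcases Nat.eq_zero_or_pos e with h | h
    · rw [h]
      simp only [Nat.cast_zero, Real.log_zero]
      linarith
    · have he0 : (0 : ℝ) < e := by exact_mod_cast h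
      have he1 : (e : ℝ) ≤ B * l := le_trans (by exact_mod_cast he) hE
      have h2 := Real.log_le_log he0 he1
      rw [Real.log_mul hB0.ne' hl0.ne', ← hlam] at h2
      linarith
  have h3 : (n : ℝ) * y ≤ (61 * W) * (B + L) := by
    have h4 : (n : ℝ) * y ≤ (n : ℝ) * (B + L) := mul_le_mul_of_nonneg_left hy (Nat.cast_nonneg _)
    have h5 : (n : ℝ) * (B + L) ≤ (61 * W) * (B + L) :=
      mul_le_mul_of_nonneg_right hn61 (by linarith)
    linarith
  obtain ⟨V, hV⟩ : ∃ V, V = B ^ 3 * (L ^ 2 * lam) := ⟨_, rfl⟩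
  have h4 : 200 * V ≤ l / k := by
    rw [le_div_iff₀ hk0]
    calc 200 * V * k = (200 * (k : ℝ) * B ^ 3) * (L ^ 2 * lam) := by rw [hV]; ring
      _ ≤ l := hT
  have hWL : W * (L * B) = V := by rw [hV, hW]; ring
  have hLB : 3 ≤ L * B := by
    have := mul_one_le' (show 0 ≤ L by linarith) hB
    linarith
  have h6 : W ≤ V := by
    rw [← hWL]
    exact mul_one_le' (by linarith) (by linarith)
  have h7 : W * (B + L) ≤ 2 * V := by
    have e1 : B ≤ L * B := one_mul_le' hB0.le (by linarith)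
    have e2 : L ≤ L * B := mul_one_le' (by linarith) hB
    have e3 : W * (B + L) ≤ W * (2 * (L * B)) :=
      mul_le_mul_of_nonneg_left (by linarith) (by linarith)
    have e4 : W * (2 * (L * B)) = 2 * V := by rw [← hWL]; ring
    linarith
  have h9 : B ≤ B * lam := mul_one_le' hB0.le hlog
  have e5 : (61 * W) * (B + L) = 61 * (W * (B + L)) := by ring
  linarith

end Pool.Agent.TH867.QF
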