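import Pool.Agent.TH867.QF.Count
import Pool.Agent.TH867.SR.Num
import Pool.Agent.TH867.SR.Small

/-! Small heights (helper867). -/

set_option autoImplicit false

namespace Pool.Agent.TH867.QF

open Finset
open Pool.Agent.TH867.SR (rankin_sum log_prime_nonneg)

/-- Rankin's bound in the form needed for small heights -/
theorem V_bound {ε : ℝ} (hε : 0 < ε) : ∃ η : ℝ, 0 < η ∧ ∃ L1 : ℝ, 1 ≤ L1 ∧ ∀ L : ℝ, L1 ≤ L →
    ∀ N : ℕ, 1 ≤ N → Real.log N ≤ 2 * L ^ (2 + η) →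
    ∑ s ∈ Finset.Icc 1 N, ∏ p ∈ s.primeFactors, (p : ℝ) ^ (-(1 + ε / 2)) ≤
      Real.exp (ε / 4 * L) := by
  obtain ⟨θ, hθ⟩ : ∃ θ : ℝ, θ = ε / 2 := ⟨_, rfl⟩
  have hθ0 : 0 < θ := by rw [hθ]; positivity
  obtain ⟨β, hβ⟩ : ∃ β : ℝ, β = 1 / (1 + θ / 2) := ⟨_, rfl⟩
  have hβ0 : 0 < β := by rw [hβ]; positivity
  have hβ1 : β ≤ 1 := by
    rw [hβ, div_le_one (by positivity)]; linarith
  have haβ : 1 < (1 + θ) * β := by
    rw [hβ, mul_one_div, lt_div_iff₀ (by positivity)]; linarith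
  obtain ⟨η, hη⟩ : ∃ η : ℝ, η = θ / 4 := ⟨_, rfl⟩
  have hη0 : 0 < η := by rw [hη]; positivity
  have hγ : (1 + η) * β < 1 := by
    rw [hβ, mul_one_div, div_lt_one (by positivity), hη]; linarith
  obtain ⟨Z, hZ⟩ : ∃ Z : ℝ, Z = ∑' n : ℕ, ((n : ℝ) ^ ((1 + θ) * β))⁻¹ := ⟨_, rfl⟩
  have hZ0 : 0 ≤ Z := by rw [hZ]; exact tsum_nonneg fun n => by positivity
  obtain ⟨W, hW⟩ : ∃ W : ℝ, W = (32 / ε) ^ β * Z / β * (16 / ε) := ⟨_, rfl⟩
  have hW0 : 0 ≤ W := by rw [hW]; positivity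
  obtain ⟨γ, hγd⟩ : ∃ γ : ℝ, γ = 1 - (1 + η) * β := ⟨_, rfl⟩
  have hγ0 : 0 < γ := by rw [hγd]; linarith
  refine ⟨η, hη0, max 1 (W ^ (1 / γ)), le_max_left _ _, fun L hL N hN1 hlogN => ?_⟩
  have hL1 : 1 ≤ L := (le_max_left _ _).trans hL
  have hL0 : 0 < L := by linarith
  have hWL : W ≤ L ^ γ := by
    have h1 : (W ^ (1 / γ)) ^ γ ≤ L ^ γ :=
      Real.rpow_le_rpow (by positivity) ((le_max_right _ _).trans hL) hγ0.le
    rwa [← Real.rpow_mul hW0, one_div_mul_cancel hγ0.ne', Real.rpow_one] at h1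
  obtain ⟨σ, hσ⟩ : ∃ σ : ℝ, σ = ε / 16 * L ^ (-(1 + η)) := ⟨_, rfl⟩
  have hσ0 : 0 < σ := by rw [hσ]; positivity
  have hsum := rankin_sum hσ0 hβ0 hβ1 haβ N hN1
  rw [← hZ] at hsum
  rw [← hθ]
  refine hsum.trans (Real.exp_le_exp.2 ?_)
  have h1 : σ * Real.log N ≤ ε / 8 * L := by
    have h2 : σ * Real.log N ≤ σ * (2 * L ^ (2 + η)) := mul_le_mul_of_nonneg_left hlogN hσ0.le
    have h3 : σ * (2 * L ^ (2 + η)) = ε / 8 * L := by
      have h5 : L ^ (-(1 + η)) * L ^ (2 + η) = L := by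
        rw [← Real.rpow_add hL0]
        have : -(1 + η) + (2 + η) = 1 := by ring
        rw [this, Real.rpow_one]
      calc σ * (2 * L ^ (2 + η)) = ε / 8 * (L ^ (-(1 + η)) * L ^ (2 + η)) := by rw [hσ]; ring
        _ = ε / 8 * L := by rw [h5]
    linarith
  have h4 : (2 / σ) ^ β * Z / β ≤ ε / 16 * L := by
    have e1 : 2 / σ = 32 / ε * L ^ (1 + η) := by
      rw [hσ, Real.rpow_neg hL0.le]
      field_simp
      norm_num
    rw [e1, Real.mul_rpow (by positivity) (by positivity), ← Real.rpow_mul hL0.le]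
    have e2 : L = L ^ ((1 + η) * β) * L ^ γ := by
      rw [← Real.rpow_add hL0, hγd]
      have : (1 + η) * β + (1 - (1 + η) * β) = 1 := by ring
      rw [this, Real.rpow_one]
    have e3 : (32 / ε) ^ β * L ^ ((1 + η) * β) * Z / β =
        ε / 16 * (L ^ ((1 + η) * β) * W) := by
      rw [hW]
      field_simp
    rw [e3]
    conv_rhs => rw [e2]
    refine mul_le_mul_of_nonneg_left ?_ (by positivity)
    exact mul_le_mul_of_nonneg_left hWL (by positivity)
  nlinarith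

section NZ

set_option linter.unusedSectionVars false

variable {r : ℕ} [NeZero r]

/-- the logarithm of the radical of a value -/
noncomputable def rf (L : Fm r) (P : ℤ × ℤ) (i : Fin r) : ℝ :=
  ∑ q ∈ (va L P i).primeFactors, Real.log q

theorem rf_le {L : Fm r} {P : ℤ × ℤ} (h : Pt L P) (i : Fin r) :
    rf L P i ≤ rr L P i + Real.log (Rs L) := by
  classical
  have hf : ∀ q : ℕ, 0 ≤ Real.log (q : ℝ) := fun q => Real.log_natCast_nonneg q
  have h1 : rf L P i ≤ ∑ q ∈ Sd L P i ∪ (Rs L).primeFactors, Real.log q :=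
    Finset.sum_le_sum_of_subset_of_nonneg (pf_sub h i) fun q _ _ => hf q
  have h2 := sum_union_le' (fun q : ℕ => Real.log (q : ℝ)) hf (Sd L P i) (Rs L).primeFactors
  have h3 := sum_E_le L
  unfold rr
  linarith

theorem prod_rpow_eq (a : ℝ) (L : Fm r) (P : ℤ × ℤ) (i : Fin r) :
    ∏ p ∈ (va L P i).primeFactors, (p : ℝ) ^ (-a) = Real.exp (-a * rf L P i) := by
  unfold rf
  rw [Finset.mul_sum, Real.exp_sum]
  refine Finset.prod_congr rfl fun p hp => ?_
  have hp0 : (0 : ℝ) < p := by exact_mod_cast (Nat.prime_of_mem_primeFactors hp).pos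
  rw [Real.rpow_def_of_pos hp0]
  congr 1
  ring

/-- the points for which two given sides have a small radical -/
theorem pair_count {L : Fm r} {a Θ : ℝ} (ha : 0 ≤ a) (N : ℕ) {i j : Fin r} (hij : i ≠ j)
    (F : Finset (ℤ × ℤ)) (hF : ∀ t ∈ F, Pt L t ∧ (∀ i, va L t i ≤ N) ∧ rf L t i + rf L t j ≤ Θ) :
    (F.card : ℝ) ≤ 4 * (Real.exp (a * Θ) *
      (∑ s ∈ Finset.Icc 1 N, ∏ p ∈ s.primeFactors, (p : ℝ) ^ (-a)) ^ 2) := by
  classical
  set g : ℕ → ℝ := fun s => ∏ p ∈ s.primeFactors, (p : ℝ) ^ (-a) with hg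
  have hg0 : ∀ s, 0 ≤ g s := fun s => Finset.prod_nonneg fun p _ => by positivity
  have h1 : (F.card : ℝ) ≤ ∑ t ∈ F, Real.exp (a * Θ) * (g (va L t i) * g (va L t j)) := by
    rw [Finset.card_eq_sum_ones, Nat.cast_sum]
    refine Finset.sum_le_sum fun t ht => ?_
    obtain ⟨_, _, h3⟩ := hF t ht
    simp only [hg]
    rw [prod_rpow_eq, prod_rpow_eq, ← Real.exp_add, ← Real.exp_add, Nat.cast_one]
    rw [Real.one_le_exp_iff]
    nlinarith
  let φ : ℤ × ℤ → (Bool × Bool) × (ℕ × ℕ) := fun t =>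
    ((decide (0 < ev L t i), decide (0 < ev L t j)), (va L t i, va L t j))
  have hinj : Set.InjOn φ (F : Set (ℤ × ℤ)) := by
    intro t ht t' ht' he
    simp only [φ, Prod.mk.injEq] at he
    obtain ⟨⟨s1, s2⟩, e1, e2⟩ := he
    have key : ∀ x y : ℤ, decide (0 < x) = decide (0 < y) → x.natAbs = y.natAbs → x ≠ 0 →
        x = y := by
      intro x y hs hxy hx
      have hs' : 0 < x ↔ 0 < y := by simpa using hs
      omega
    have g1 : ev L t i = ev L t' i := key _ _ s1 e1 ((hF t ht).1.ne i)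
    have g2 : ev L t j = ev L t' j := key _ _ s2 e2 ((hF t ht).1.ne j)
    have hr := L.res i j hij
    have c1 := cross1 L t i j
    have c2 := cross1 L t' i j
    have c3 := cross2 L t i j
    have c4 := cross2 L t' i j
    rw [g1, g2, ← c2] at c1
    rw [g1, g2, ← c4] at c3
    ext
    · exact mul_left_cancel₀ hr c1
    · exact mul_left_cancel₀ hr c3
  have h2 : ∑ t ∈ F, Real.exp (a * Θ) * (g (va L t i) * g (va L t j)) ≤
      4 * (Real.exp (a * Θ) * (∑ s ∈ Finset.Icc 1 N, g s) ^ 2) := by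
    rw [← Finset.mul_sum]
    have h3 : ∑ t ∈ F, g (va L t i) * g (va L t j) =
        ∑ x ∈ F.image φ, g x.2.1 * g x.2.2 := by
      rw [Finset.sum_image hinj]
    have h4 : ∑ x ∈ F.image φ, g x.2.1 * g x.2.2 ≤
        ∑ x ∈ (Finset.univ : Finset (Bool × Bool)) ×ˢ (Finset.Icc 1 N ×ˢ Finset.Icc 1 N),
          g x.2.1 * g x.2.2 := by
      refine Finset.sum_le_sum_of_subset_of_nonneg ?_ fun x _ _ => mul_nonneg (hg0 _) (hg0 _)
      intro x hx
      obtain ⟨t, ht, rfl⟩ := Finset.mem_image.1 hx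
      obtain ⟨b1, b2, _⟩ := hF t ht
      rw [Finset.mem_product, Finset.mem_product]
      exact ⟨Finset.mem_univ _, Finset.mem_Icc.2 ⟨va_pos b1 i, b2 i⟩,
        Finset.mem_Icc.2 ⟨va_pos b1 j, b2 j⟩⟩
    have h5 : ∑ x ∈ (Finset.univ : Finset (Bool × Bool)) ×ˢ (Finset.Icc 1 N ×ˢ Finset.Icc 1 N),
          g x.2.1 * g x.2.2 = 4 * (∑ s ∈ Finset.Icc 1 N, g s) ^ 2 := by
      have e1 : ∑ x ∈ Finset.Icc 1 N ×ˢ Finset.Icc 1 N, g x.1 * g x.2 =
          (∑ s ∈ Finset.Icc 1 N, g s) ^ 2 := by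
        rw [Finset.sum_product, sq, Finset.sum_mul_sum]
      rw [Finset.sum_product]
      show ∑ _x : Bool × Bool, ∑ y ∈ Finset.Icc 1 N ×ˢ Finset.Icc 1 N, g y.1 * g y.2 = _
      rw [Finset.sum_const, e1, Finset.card_univ, Fintype.card_prod, Fintype.card_bool,
        nsmul_eq_mul]
      norm_num
    rw [h3]
    calc Real.exp (a * Θ) * ∑ x ∈ F.image φ, g x.2.1 * g x.2.2 ≤
        Real.exp (a * Θ) * (4 * (∑ s ∈ Finset.Icc 1 N, g s) ^ 2) :=
          mul_le_mul_of_nonneg_left (h4.trans h5.le) (Real.exp_pos _).le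
      _ = _ := by ring
  exact h1.trans h2

end NZ

/-- **small heights** -/
theorem small_total {d : ℕ} (L : Fm (d + 3)) (ε : ℝ) (hε : 0 < ε) : ∃ η : ℝ, 0 < η ∧ ∃ D : ℝ,
    0 < D ∧ ∃ L1 : ℝ, 1 ≤ L1 ∧ ∀ X : ℝ, 1 ≤ X → L1 ≤ Real.log X → ∀ F : Finset (ℤ × ℤ),
    (∀ t ∈ F, Pt L t ∧ ∑ i, rr L t i ≤ Real.log X ∧
      Real.log (ht t) ≤ Real.log X ^ (2 + η)) →
    (F.card : ℝ) ≤ D * X ^ (2 / ((d : ℝ) + 3) + ε) := by
  classical
  obtain ⟨η, hη, L1, hL1, hV⟩ := V_bound hε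
  have hRp : (0 : ℝ) < Rs L := by exact_mod_cast Rs_pos L
  have hUp : (0 : ℝ) < U L := by exact_mod_cast U_pos L
  have n1 := Real.log_natCast_nonneg (Rs L)
  have n2 := Real.log_natCast_nonneg (U L)
  obtain ⟨c, hc⟩ : ∃ c : ℝ, c = 2 * Real.log (Rs L) := ⟨_, rfl⟩
  refine ⟨η, hη, (d + 3) * (4 * Real.exp ((1 + ε / 2) * c)), by positivity,
    max L1 (1 + Real.log (U L)), hL1.trans (le_max_left _ _), fun X hX hLX F hF => ?_⟩
  obtain ⟨T, hTd⟩ : ∃ T, T = Real.log X := ⟨_, rfl⟩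
  rw [← hTd] at hLX hF
  have hT1 : L1 ≤ T := (le_max_left _ _).trans hLX
  have hTU : 1 + Real.log (U L) ≤ T := (le_max_right _ _).trans hLX
  have hT0 : 1 ≤ T := hL1.trans hT1
  have hX0 : 0 < X := by linarith
  have hTη : T ≤ T ^ (2 + η) := by
    calc T = T ^ (1 : ℝ) := (Real.rpow_one T).symm
      _ ≤ T ^ (2 + η) := Real.rpow_le_rpow_of_exponent_le hT0 (by linarith)
  obtain ⟨N, hN⟩ : ∃ N : ℕ, N = ⌊(U L : ℝ) * Real.exp (T ^ (2 + η))⌋₊ := ⟨_, rfl⟩
  have hU1 : (1 : ℝ) ≤ U L := by exact_mod_cast U_pos L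
  have hN1 : 1 ≤ N := by
    rw [hN]
    refine Nat.le_floor ?_
    rw [Nat.cast_one]
    have : 1 ≤ Real.exp (T ^ (2 + η)) := by
      rw [Real.one_le_exp_iff]; positivity
    nlinarith
  have hlogN : Real.log N ≤ 2 * T ^ (2 + η) := by
    have h1 : (N : ℝ) ≤ (U L : ℝ) * Real.exp (T ^ (2 + η)) := by
      rw [hN]; exact Nat.floor_le (by positivity)
    have h2 := Real.log_le_log (by exact_mod_cast hN1) h1
    rw [Real.log_mul hUp.ne' (Real.exp_pos _).ne', Real.log_exp] at h2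
    linarith
  have hVN := hV T hT1 N hN1 hlogN
  obtain ⟨V, hVd⟩ : ∃ V : ℝ, V = ∑ s ∈ Finset.Icc 1 N, ∏ p ∈ s.primeFactors,
    (p : ℝ) ^ (-(1 + ε / 2)) := ⟨_, rfl⟩
  rw [← hVd] at hVN
  have hV0 : 0 ≤ V := by
    rw [hVd]
    exact Finset.sum_nonneg fun s _ => Finset.prod_nonneg fun p _ => by positivity
  have hV2 : V ^ 2 ≤ Real.exp (ε / 2 * T) := by
    calc V ^ 2 ≤ (Real.exp (ε / 4 * T)) ^ 2 := pow_le_pow_left₀ hV0 hVN 2
      _ = Real.exp (ε / 2 * T) := by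
          rw [← Real.exp_nat_mul]
          congr 1
          push_cast
          ring
  have hd1 : ∀ i : Fin (d + 3), i ≠ i + 1 := by
    intro i hi
    have h1 : (1 : Fin (d + 3)) = 0 := by
      have := hi.symm
      rwa [add_eq_left] at this
    exact absurd (congrArg Fin.val h1) (by simp)
  have hd0 : (0 : ℝ) ≤ d := Nat.cast_nonneg d
  obtain ⟨Θ, hΘ⟩ : ∃ Θ, Θ = 2 / ((d : ℝ) + 3) * T + c := ⟨_, rfl⟩
  have hpair : ∀ i : Fin (d + 3),
      ((F.filter fun t => rf L t i + rf L t (i + 1) ≤ Θ).card : ℝ) ≤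
        4 * Real.exp ((1 + ε / 2) * c) * X ^ (2 / ((d : ℝ) + 3) + ε) := by
    intro i
    have h1 := pair_count (L := L) (a := 1 + ε / 2) (Θ := Θ) (by positivity) N (hd1 i)
      (F.filter fun t => rf L t i + rf L t (i + 1) ≤ Θ) (fun t ht => by
        obtain ⟨b1, b2⟩ := Finset.mem_filter.1 ht
        obtain ⟨c1, c2, c3⟩ := hF t b1
        refine ⟨c1, fun j => ?_, b2⟩
        rw [hN]
        refine Nat.le_floor ?_
        have h3 : (va L t j : ℝ) ≤ U L * QF.ht t := by exact_mod_cast va_le L t j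
        refine h3.trans (mul_le_mul_of_nonneg_left ?_ hUp.le)
        rw [← Real.log_le_iff_le_exp (by exact_mod_cast ht_pos c1)]
        exact c3)
    rw [← hVd] at h1
    refine h1.trans ?_
    have h2 : Real.exp ((1 + ε / 2) * Θ) * V ^ 2 ≤
        Real.exp ((1 + ε / 2) * c) * X ^ (2 / ((d : ℝ) + 3) + ε) := by
      calc Real.exp ((1 + ε / 2) * Θ) * V ^ 2 ≤
          Real.exp ((1 + ε / 2) * Θ) * Real.exp (ε / 2 * T) :=
            mul_le_mul_of_nonneg_left hV2 (Real.exp_pos _).le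
        _ = Real.exp ((1 + ε / 2) * Θ + ε / 2 * T) := by rw [← Real.exp_add]
        _ ≤ Real.exp ((1 + ε / 2) * c + T * (2 / ((d : ℝ) + 3) + ε)) := by
            refine Real.exp_le_exp.2 ?_
            rw [hΘ]
            have h5 : 2 / ((d : ℝ) + 3) ≤ 2 / 3 :=
              div_le_div_of_nonneg_left (by norm_num) (by norm_num) (by linarith)
            have h6 : 0 ≤ ε * T := by positivity
            have h7 : ε / 2 * (2 / ((d : ℝ) + 3) * T) ≤ ε / 2 * (2 / 3 * T) := by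
              refine mul_le_mul_of_nonneg_left ?_ (by positivity)
              exact mul_le_mul_of_nonneg_right h5 (by linarith)
            nlinarith
        _ = Real.exp ((1 + ε / 2) * c) * X ^ (2 / ((d : ℝ) + 3) + ε) := by
            rw [Real.exp_add, Real.rpow_def_of_pos hX0, hTd]
    linarith
  have hcover : F ⊆ (Finset.univ : Finset (Fin (d + 3))).biUnion
      (fun i => F.filter fun t => rf L t i + rf L t (i + 1) ≤ Θ) := by
    intro t ht
    obtain ⟨c1, c2, _⟩ := hF t ht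
    by_contra hcon
    rw [Finset.mem_biUnion] at hcon
    push Not at hcon
    have h1 : ∀ i : Fin (d + 3), Θ < rf L t i + rf L t (i + 1) := by
      intro i
      have h2 := hcon i (Finset.mem_univ i)
      rw [Finset.mem_filter] at h2
      push Not at h2
      exact h2 ht
    have h3 : ∀ i : Fin (d + 3), 2 / ((d : ℝ) + 3) * T < rr L t i + rr L t (i + 1) := by
      intro i
      have h4 := h1 i
      have h5 := rf_le c1 i
      have h6 := rf_le c1 (i + 1)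
      rw [hΘ, hc] at h4
      linarith
    have hsum := Finset.sum_lt_sum_of_nonempty (s := (Finset.univ : Finset (Fin (d + 3))))
      ⟨0, Finset.mem_univ _⟩ (fun i _ => h3 i)
    have e1 : ∑ i, rr L t (i + 1) = ∑ i, rr L t i :=
      Equiv.sum_comp (Equiv.addRight (1 : Fin (d + 3))) (fun i => rr L t i)
    rw [Finset.sum_add_distrib, e1, Finset.sum_const, Finset.card_univ, Fintype.card_fin,
      nsmul_eq_mul] at hsum
    push_cast at hsum
    have e2 : ((d : ℝ) + 3) * (2 / ((d : ℝ) + 3) * T) = 2 * T := by field_simp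
    linarith
  have h7 : (F.card : ℝ) ≤ ∑ i : Fin (d + 3),
      ((F.filter fun t => rf L t i + rf L t (i + 1) ≤ Θ).card : ℝ) := by
    exact_mod_cast (Finset.card_le_card hcover).trans Finset.card_biUnion_le
  refine (h7.trans (Finset.sum_le_sum fun i _ => hpair i)).trans (le_of_eq ?_)
  rw [Finset.sum_const, Finset.card_univ, Fintype.card_fin, nsmul_eq_mul]
  push_cast
  ring

end Pool.Agent.TH867.QF
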