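import Pool.Agent.TH867.QF.Tot
import Pool.Agent.TH867.QF.Num
import Pool.Agent.TH867.QF.Small
import Pool.Agent.TH867.SR.Main

/-! One scale, all scales, and the main count (helper867). -/

set_option autoImplicit false

namespace Pool.Agent.TH867.QF

open Finset
open Pool.Agent.TH867.SR (sum_omega rho rho_gt geom_le log_sq_le sq_log_small)

theorem floor_pow_le {d k : ℕ} (hk : 6 ≤ k) {R X : ℝ} (hR : 1 ≤ R) (hX : 1 ≤ X) :
    ((⌊R * X ^ xe d k⌋₊ : ℕ) : ℝ) ^ (1 + 1 / (k : ℝ)) ≤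
      R ^ 2 * X ^ (2 / ((d : ℝ) + 3) + 8 / (k : ℝ)) := by
  have hk2 : (6 : ℝ) ≤ k := by exact_mod_cast hk
  have hk0 : (0 : ℝ) < k := by linarith
  have hX0 : 0 < X := by linarith
  have hR0 : 0 < R := by linarith
  have a1 : ((⌊R * X ^ xe d k⌋₊ : ℕ) : ℝ) ≤ R * X ^ xe d k := Nat.floor_le (by positivity)
  have a2 : ((⌊R * X ^ xe d k⌋₊ : ℕ) : ℝ) ^ (1 + 1 / (k : ℝ)) ≤
      (R * X ^ xe d k) ^ (1 + 1 / (k : ℝ)) :=
    Real.rpow_le_rpow (Nat.cast_nonneg _) a1 (by positivity)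
  refine a2.trans ?_
  rw [Real.mul_rpow hR0.le (by positivity), ← Real.rpow_mul hX0.le]
  have k1 : 1 / (k : ℝ) ≤ 1 / 6 := one_div_le_one_div_of_le (by norm_num) hk2
  refine mul_le_mul ?_ ?_ (by positivity) (by positivity)
  · calc R ^ (1 + 1 / (k : ℝ)) ≤ R ^ (2 : ℝ) :=
          Real.rpow_le_rpow_of_exponent_le hR (by linarith)
      _ = R ^ 2 := by norm_num
  · refine Real.rpow_le_rpow_of_exponent_le hX ?_
    have hd0 : (0 : ℝ) ≤ d := Nat.cast_nonneg d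
    have h5 : 2 / ((d : ℝ) + 3) ≤ 2 / 3 :=
      div_le_div_of_nonneg_left (by norm_num) (by norm_num) (by linarith)
    have h6 : 6 / (k : ℝ) = 6 * (1 / k) := by ring
    have h8 : 8 / (k : ℝ) = 8 * (1 / k) := by ring
    unfold xe
    rw [h6, h8]
    have hu : 0 ≤ 1 / (k : ℝ) := by positivity
    have h7 : (2 / ((d : ℝ) + 3) + 6 * (1 / (k : ℝ))) * (1 / k) ≤ 2 * (1 / k) :=
      mul_le_mul_of_nonneg_right (by linarith) hu
    linarith

/-- the bound at one scale -/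
theorem scale_count {d : ℕ} (L : Fm (d + 3)) {k : ℕ} (hk : 6 ≤ k) {η : ℝ} (hη : 0 < η) :
    ∃ D : ℝ, 0 < D ∧ ∃ L0 : ℝ, 3 ≤ L0 ∧ ∀ X : ℝ, 1 ≤ X → L0 ≤ Real.log X → ∀ l : ℝ,
      Real.log X ^ (2 + η) ≤ l → l ≤ X →
      ∀ F : Finset (ℤ × ℤ), (∀ t ∈ F, Pt L t ∧ Scale k l t ∧ ∑ i, rr L t i ≤ Real.log X) →
      (F.card : ℝ) ≤ D * X ^ (2 / ((d : ℝ) + 3) + 9 / (k : ℝ)) * l := by
  classical
  have hk2 : (6 : ℝ) ≤ k := by exact_mod_cast hk
  have hk0 : (0 : ℝ) < k := by linarith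
  have hk1 : 1 ≤ k := by omega
  have hc1 := cL_ge L
  have n1 := Real.log_natCast_nonneg (Rs L)
  have n2 := Real.log_natCast_nonneg (U L)
  obtain ⟨B, hBd⟩ : ∃ B, B = 2 * cL L + 3 := ⟨_, rfl⟩
  have hB5 : 5 ≤ B := by rw [hBd]; linarith
  have hB : 1 ≤ B := by linarith
  have hBR : 2 * Real.log (Rs L) + 2 ≤ B := by rw [hBd]; unfold cL; linarith
  have hBU : 2 * Real.log (U L) + 3 ≤ B := by rw [hBd]; unfold cL; linarith
  obtain ⟨L0, hL0, hsm⟩ := sq_log_small hη (T := 200 * (k : ℝ) * B ^ 3) (by positivity)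
  obtain ⟨D1, hD1, hso⟩ := sum_omega ((2 : ℝ) ^ (9 * (d + 3) * k + 1))
    (one_le_pow₀ (by norm_num)) (1 / (k : ℝ)) (by positivity)
  have hRs1 : (1 : ℝ) ≤ Rs L := by exact_mod_cast Rs_pos L
  have hRs0 : (0 : ℝ) < Rs L := by linarith
  have hU0 : (0 : ℝ) < U L := by exact_mod_cast U_pos L
  obtain ⟨C0, hC0⟩ : ∃ C0 : ℝ, C0 = 2 * ((d : ℝ) + 3) ^ 4 * 2 ^ (9 * (d + 3) * k) := ⟨_, rfl⟩
  have hC00 : 0 < C0 := by rw [hC0]; positivity
  refine ⟨C0 * (122 * B ^ 3) * (4 * k ^ 2) * D1 * (Rs L : ℝ) ^ 2, by positivity, L0, hL0, ?_⟩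
  intro X hX hXL l hl hlX F hF
  have hX0 : 0 < X := by linarith
  obtain ⟨T, hTd⟩ : ∃ T, T = Real.log X := ⟨_, rfl⟩
  rw [← hTd] at hXL hl
  have hT3 : 3 ≤ T := hL0.trans hXL
  obtain ⟨hlog1, hTl, hT⟩ := hsm T hXL l hl
  have hl3 : 3 ≤ l := hT3.trans hTl
  have hl0 : 0 < l := by linarith
  have hlogT : Real.log l ≤ T := by
    rw [hTd]; exact Real.log_le_log hl0 hlX
  have hkc : 4 * (k : ℝ) * cL L ≤ l := by
    refine le_trans ?_ hT
    have h1 : 1 ≤ T ^ 2 * Real.log l := by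
      have : (1 : ℝ) ≤ T ^ 2 := one_le_pow₀ (by linarith)
      nlinarith
    have h2 : B ≤ B ^ 3 := by
      calc B = B ^ 1 := (pow_one B).symm
        _ ≤ B ^ 3 := pow_le_pow_right₀ hB (by norm_num)
    have h3 : 4 * (k : ℝ) * cL L ≤ 200 * (k : ℝ) * B ^ 3 := by
      have h4 : cL L ≤ B ^ 3 := by rw [hBd] at h2 ⊢; linarith
      calc 4 * (k : ℝ) * cL L ≤ 200 * (k : ℝ) * cL L :=
            mul_le_mul_of_nonneg_right (by linarith) (by linarith)
        _ ≤ 200 * (k : ℝ) * B ^ 3 := mul_le_mul_of_nonneg_left h4 (by positivity)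
    exact h3.trans (le_mul_of_one_le_right (by positivity) h1)
  obtain ⟨n, hn⟩ : ∃ n : ℕ, n = ⌈60 * B ^ 2 * (T * Real.log l)⌉₊ := ⟨_, rfl⟩
  obtain ⟨K, hK⟩ : ∃ K : ℕ, K = ⌊B * l⌋₊ := ⟨_, rfl⟩
  have hn1 : 60 * B ^ 2 * (T * Real.log l) ≤ n := by rw [hn]; exact Nat.le_ceil _
  have hnn : 0 ≤ 60 * B ^ 2 * (T * Real.log l) := by positivity
  have hn2 : (n : ℝ) ≤ 60 * B ^ 2 * (T * Real.log l) + 1 := by
    rw [hn]; exact (Nat.ceil_lt_add_one hnn).le
  have hn0 : 0 < n := by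
    rw [hn, Nat.ceil_pos]
    positivity
  have hKl : (K : ℝ) ≤ B * l := by rw [hK]; exact Nat.floor_le (by positivity)
  obtain ⟨hc, hb⟩ := numeric hB hk1 hT3 hlog1 hTl hT hn1 hn2 hKl hKl
  have hl2a := Real.log_two_gt_d9
  have hl2b := Real.log_two_lt_d9
  have hKt : ∀ t ∈ F, ∀ j, va L t j ≤ 2 ^ K := by
    intro t ht j
    obtain ⟨c1, c2, _⟩ := hF t ht
    have h1 := log_va_le c1 j
    have h2 : Real.log (QF.ht t) ≤ (5 / 4) * l := by
      refine c2.2.trans (mul_le_mul_of_nonneg_right ?_ hl0.le)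
      have : 1 / (4 * (k : ℝ)) ≤ 1 / 4 := one_div_le_one_div_of_le (by norm_num) (by linarith)
      linarith
    have h3 : B * l - 1 < K := by rw [hK]; exact Nat.sub_one_lt_floor _
    have h4 : (0 : ℝ) < va L t j := by exact_mod_cast va_pos c1 j
    have h5 : (va L t j : ℝ) ≤ 2 ^ K := by
      rw [← Real.log_le_log_iff h4 (by positivity), Real.log_pow]
      have h6 : (2 * Real.log (U L) + 3) * l ≤ B * l := mul_le_mul_of_nonneg_right hBU hl0.le
      have h7 : 3 * Real.log (U L) ≤ l * Real.log (U L) := mul_le_mul_of_nonneg_right hl3 n2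
      have h8 : (B * l - 1) * 0.69 ≤ (K : ℝ) * Real.log 2 :=
        mul_le_mul h3.le (by linarith) (by norm_num) (Nat.cast_nonneg _)
      have h9 : (2 * Real.log (U L) + 3) * l = 2 * (l * Real.log (U L)) + 3 * l := by ring
      linarith
    exact_mod_cast h5
  have hEt : ∀ t ∈ F, ∀ p, vv L t p ≤ K := by
    intro t ht p
    obtain ⟨c1, _, _⟩ := hF t ht
    by_cases hp : p.Prime
    · have h4 : p ^ vv L t p ≤ va L t (ty L t p) := Nat.ordProj_le p (va_pos c1 _).ne'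
      have h5 : 2 ^ vv L t p ≤ 2 ^ K :=
        ((Nat.pow_le_pow_left hp.two_le _).trans h4).trans (hKt t ht _)
      exact (Nat.pow_le_pow_iff_right (by norm_num)).1 h5
    · have : vv L t p = 0 := Nat.factorization_eq_zero_of_not_prime _ hp
      rw [this]
      exact Nat.zero_le _
  have hTX : 0 ≤ T := by linarith
  have hxe : xe d k ≤ 2 := by
    have hd0 : (0 : ℝ) ≤ d := Nat.cast_nonneg d
    have h5 : 2 / ((d : ℝ) + 3) ≤ 2 / 3 :=
      div_le_div_of_nonneg_left (by norm_num) (by norm_num) (by linarith)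
    have h6 : 6 / (k : ℝ) ≤ 1 := by rw [div_le_one hk0]; exact hk2
    unfold xe
    linarith
  have hcount := count hk hX hkc hn0 (K := K) (E := K) F (fun t ht => ⟨(hF t ht).1, (hF t ht).2.1⟩)
    (fun t ht => (hF t ht).2.2) hKt hEt (fun m hm1 hm2 => hc m hm1 (by
      have hm0 : (0 : ℝ) < m := by exact_mod_cast hm1
      have h1 := Real.log_le_log hm0 hm2
      rw [Real.log_mul hRs0.ne' (Real.rpow_pos_of_pos hX0 _).ne', Real.log_rpow hX0, ← hTd] at h1
      have h2 : xe d k * T ≤ 2 * T := mul_le_mul_of_nonneg_right hxe hTX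
      have h3 : (2 * Real.log (Rs L) + 2) * T ≤ B * T := mul_le_mul_of_nonneg_right hBR hTX
      have h4 : Real.log (Rs L) ≤ Real.log (Rs L) * T :=
        le_mul_of_one_le_right n1 (by linarith)
      have h5 : (2 * Real.log (Rs L) + 2) * T = 2 * (Real.log (Rs L) * T) + 2 * T := by ring
      linarith))
    (fun e he => hb e he _ (by
      have h3 : 1 ≤ ⌊X⌋₊ := Nat.le_floor (by simpa using hX)
      have h4 : Real.log (⌊X⌋₊ : ℝ) ≤ T := by
        rw [hTd]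
        exact Real.log_le_log (by exact_mod_cast h3) (Nat.floor_le hX0.le)
      linarith))
  obtain ⟨M, hM⟩ : ∃ M : ℕ, M = ⌊(Rs L : ℝ) * X ^ xe d k⌋₊ := ⟨_, rfl⟩
  rw [← hM] at hcount
  obtain ⟨Y, hY⟩ : ∃ Y : ℝ, Y = 122 * B ^ 3 * (T ^ 2 * l) := ⟨_, rfl⟩
  have hEn : (((K + 1) * n : ℕ) : ℝ) ≤ Y := by
    push_cast
    have hBl : 1 ≤ B * l := by nlinarith
    have h1 : (K : ℝ) + 1 ≤ 2 * (B * l) := by linarith
    have hTT : 1 ≤ T * T := by nlinarith
    have hB2 : 1 ≤ B ^ 2 := one_le_pow₀ hB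
    have h2 : (n : ℝ) ≤ 61 * (B ^ 2 * (T * T)) := by
      have h3 : T * Real.log l ≤ T * T := mul_le_mul_of_nonneg_left hlogT hTX
      have h4 : 60 * B ^ 2 * (T * Real.log l) ≤ 60 * B ^ 2 * (T * T) :=
        mul_le_mul_of_nonneg_left h3 (by positivity)
      have h5 : 1 ≤ B ^ 2 * (T * T) := by nlinarith
      linarith
    calc ((K : ℝ) + 1) * n ≤ (2 * (B * l)) * (61 * (B ^ 2 * (T * T))) :=
          mul_le_mul h1 h2 (Nat.cast_nonneg _) (by positivity)
      _ = Y := by rw [hY]; ring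
  have hY1 : (1 : ℝ) ≤ Y := by
    refine le_trans ?_ hEn
    have : 1 ≤ (K + 1) * n := Nat.mul_pos (Nat.succ_pos _) hn0
    exact_mod_cast this
  have h1 : (F.card : ℝ) ≤ ∑ m ∈ Finset.Icc 1 M, (C0 * Y) *
      ((2 : ℝ) ^ (9 * (d + 3) * k + 1)) ^ m.primeFactors.card := by
    have h2 : (F.card : ℝ) ≤ ((∑ m ∈ Finset.Icc 1 M,
        2 ^ (9 * (d + 3) * k * (m.primeFactors.card + 1)) *
        ((d + 3) + (d + 3) ^ 4 * (2 ^ m.primeFactors.card * ((K + 1) * n))) : ℕ) : ℝ) := by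
      exact_mod_cast hcount
    refine h2.trans ?_
    rw [Nat.cast_sum]
    refine Finset.sum_le_sum fun m _ => ?_
    rw [Nat.cast_mul, Nat.cast_add, Nat.cast_mul ((d + 3) ^ 4), Nat.cast_mul (2 ^ _)]
    push_cast
    push_cast at hEn
    have e1 : (2 : ℝ) ^ (9 * (d + 3) * k * (m.primeFactors.card + 1)) =
        2 ^ (9 * (d + 3) * k) * (2 ^ (9 * (d + 3) * k)) ^ m.primeFactors.card := by
      rw [← pow_mul, ← pow_add]
      congr 1
      ring
    have e2 : ((2 : ℝ) ^ (9 * (d + 3) * k + 1)) ^ m.primeFactors.card =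
        (2 ^ (9 * (d + 3) * k)) ^ m.primeFactors.card * 2 ^ m.primeFactors.card := by
      rw [pow_succ, mul_pow]
    rw [e1, e2]
    obtain ⟨w, hw⟩ : ∃ w : ℝ, w = 2 ^ m.primeFactors.card := ⟨_, rfl⟩
    obtain ⟨g, hg⟩ : ∃ g : ℝ, g = (d : ℝ) + 3 := ⟨_, rfl⟩
    rw [← hw, ← hg]
    have hw1 : 1 ≤ w := by rw [hw]; exact one_le_pow₀ (by norm_num)
    have hg1 : 1 ≤ g := by
      rw [hg]
      have : (0 : ℝ) ≤ d := Nat.cast_nonneg d
      linarith
    have e3 : g + g ^ 4 * (w * (((K : ℝ) + 1) * n)) ≤ 2 * g ^ 4 * (w * Y) := by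
      have p1 : g ≤ g ^ 4 := by
        calc g = g ^ 1 := (pow_one g).symm
          _ ≤ g ^ 4 := pow_le_pow_right₀ hg1 (by norm_num)
      have p2 : w * (((K : ℝ) + 1) * n) ≤ w * Y :=
        mul_le_mul_of_nonneg_left hEn (by linarith)
      have p3 : 1 ≤ w * Y := by nlinarith
      have p4 : g ^ 4 * (w * (((K : ℝ) + 1) * n)) ≤ g ^ 4 * (w * Y) :=
        mul_le_mul_of_nonneg_left p2 (by positivity)
      have p5 : g ^ 4 ≤ g ^ 4 * (w * Y) := le_mul_of_one_le_right (by positivity) p3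
      linarith
    calc (2 : ℝ) ^ (9 * (d + 3) * k) * (2 ^ (9 * (d + 3) * k)) ^ m.primeFactors.card *
          (g + g ^ 4 * (w * (((K : ℝ) + 1) * n))) ≤
        2 ^ (9 * (d + 3) * k) * (2 ^ (9 * (d + 3) * k)) ^ m.primeFactors.card *
          (2 * g ^ 4 * (w * Y)) := mul_le_mul_of_nonneg_left e3 (by positivity)
      _ = _ := by rw [hC0, hg]; ring
  rw [← Finset.mul_sum] at h1
  have h2 := hso M
  have hMX : (M : ℝ) ^ (1 + 1 / (k : ℝ)) ≤
      (Rs L : ℝ) ^ 2 * X ^ (2 / ((d : ℝ) + 3) + 8 / (k : ℝ)) := by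
    rw [hM]; exact floor_pow_le hk hRs1 hX
  have hT2 : T ^ 2 ≤ 4 * k ^ 2 * X ^ (1 / (k : ℝ)) := by
    rw [hTd]; exact log_sq_le hk1 hX
  have hXk : X ^ (1 / (k : ℝ)) * X ^ (2 / ((d : ℝ) + 3) + 8 / (k : ℝ)) =
      X ^ (2 / ((d : ℝ) + 3) + 9 / (k : ℝ)) := by
    rw [← Real.rpow_add hX0]
    congr 1
    ring
  calc (F.card : ℝ) ≤ (C0 * Y) * (D1 * (M : ℝ) ^ (1 + 1 / (k : ℝ))) :=
        h1.trans (mul_le_mul_of_nonneg_left h2 (by positivity))
    _ ≤ (C0 * (122 * B ^ 3 * ((4 * k ^ 2 * X ^ (1 / (k : ℝ))) * l))) *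
        (D1 * ((Rs L : ℝ) ^ 2 * X ^ (2 / ((d : ℝ) + 3) + 8 / (k : ℝ)))) := by
        refine mul_le_mul ?_ (mul_le_mul_of_nonneg_left hMX hD1.le) (by positivity)
          (by positivity)
        refine mul_le_mul_of_nonneg_left ?_ hC00.le
        rw [hY]
        refine mul_le_mul_of_nonneg_left ?_ (by positivity)
        exact mul_le_mul_of_nonneg_right hT2 hl0.le
    _ = C0 * (122 * B ^ 3) * (4 * k ^ 2) * D1 * (Rs L : ℝ) ^ 2 *
        (X ^ (1 / (k : ℝ)) * X ^ (2 / ((d : ℝ) + 3) + 8 / (k : ℝ))) * l := by ring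
    _ = _ := by rw [hXk]

/-- heights up to the radical bound -/
theorem mid_upper {d : ℕ} (L : Fm (d + 3)) (ε : ℝ) (hε : 0 < ε) : ∃ D : ℝ, 0 < D ∧
    ∃ L0 : ℝ, 1 ≤ L0 ∧ ∀ X H : ℝ, 1 ≤ X → L0 ≤ Real.log X → 1 ≤ H → H ≤ X →
    ∀ F : Finset (ℤ × ℤ), (∀ t ∈ F, Pt L t ∧ ∑ i, rr L t i ≤ Real.log X ∧
      Real.log (ht t) ≤ H) → (F.card : ℝ) ≤ D * X ^ (2 / ((d : ℝ) + 3) + ε) * H := by
  classical
  obtain ⟨k0, hk0⟩ : ∃ k : ℕ, 9 / ε ≤ k := exists_nat_ge _
  obtain ⟨k, hkd⟩ : ∃ k : ℕ, k = k0 + 6 := ⟨_, rfl⟩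
  have hk6 : 6 ≤ k := by omega
  have hk1 : 1 ≤ k := by omega
  have hkp : (0 : ℝ) < k := by
    have : 0 < k := by omega
    exact_mod_cast this
  have hkε : 9 / (k : ℝ) ≤ ε := by
    have h1 : 9 / ε ≤ (k : ℝ) := hk0.trans (by rw [hkd]; push_cast; linarith)
    rw [div_le_iff₀ hε] at h1
    rw [div_le_iff₀ hkp]
    linarith
  obtain ⟨η, hη, D0, hD0, L1, hL1, hsmall⟩ := small_total L ε hε
  obtain ⟨D, hD, L0, hL0, hscale⟩ := scale_count L hk6 hη
  refine ⟨D0 + D * (4 * k + 1), by positivity, max L1 L0,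
    (hL1.trans (le_max_left _ _)), fun X H hX hLX hH hHX F hF => ?_⟩
  have hX0 : 0 < X := by linarith
  have b1 : L1 ≤ Real.log X := (le_max_left _ _).trans hLX
  have b2 : L0 ≤ Real.log X := (le_max_right _ _).trans hLX
  obtain ⟨l0, hl0⟩ : ∃ l0, l0 = Real.log X ^ (2 + η) := ⟨_, rfl⟩
  have hlX3 : 3 ≤ Real.log X := hL0.trans b2
  have hl0p : 0 < l0 := by rw [hl0]; positivity
  have hXp : 1 ≤ X ^ (2 / ((d : ℝ) + 3) + ε) := Real.one_le_rpow hX (by positivity)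
  set F1 := F.filter fun t => Real.log (ht t) ≤ l0 with hF1
  set F2 := F.filter fun t => ¬ Real.log (ht t) ≤ l0 with hF2
  have hcardN : F.card = F1.card + F2.card :=
    (Finset.card_filter_add_card_filter_not (s := F) (fun t => Real.log (ht t) ≤ l0)).symm
  have hcard : (F.card : ℝ) = F1.card + F2.card := by
    rw [hcardN, Nat.cast_add]
  have d1 : (F1.card : ℝ) ≤ D0 * X ^ (2 / ((d : ℝ) + 3) + ε) :=
    hsmall X hX b1 F1 (fun t ht => by
      obtain ⟨e1, e2⟩ := Finset.mem_filter.1 ht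
      obtain ⟨a1, a2, a3⟩ := hF t e1
      exact ⟨a1, a2, by rw [← hl0]; exact e2⟩)
  have d2 : (F2.card : ℝ) ≤ D * (4 * k + 1) * X ^ (2 / ((d : ℝ) + 3) + ε) * H := by
    rcases le_or_gt l0 H with hcase | hcase
    · obtain ⟨J, hJ, G, hG, hGc⟩ := scales hk1 hl0p hcase F2 (fun t ht => by
        obtain ⟨e1, e2⟩ := Finset.mem_filter.1 ht
        exact ⟨(not_le.1 e2).le, (hF t e1).2.2⟩)
      have hρ := rho_gt hk1
      have hGj : ∀ j ∈ Finset.range (J + 1), ((G j).card : ℝ) ≤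
          D * X ^ (2 / ((d : ℝ) + 3) + ε) * (l0 * rho k ^ j) := by
        intro j hj
        have p1 : 1 ≤ rho k ^ j := one_le_pow₀ hρ.le
        have p2 : rho k ^ j ≤ rho k ^ J := pow_le_pow_right₀ hρ.le
          (Nat.lt_succ_iff.1 (Finset.mem_range.1 hj))
        have p3 : l0 * rho k ^ j ≤ X := by
          have := mul_le_mul_of_nonneg_left p2 hl0p.le
          linarith
        have p4 : l0 ≤ l0 * rho k ^ j := le_mul_of_one_le_right hl0p.le p1
        have h1 := hscale X hX b2 (l0 * rho k ^ j) (by rw [← hl0]; exact p4) p3 (G j)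
          (fun t ht => by
            obtain ⟨f1, f2⟩ := hG j t ht
            obtain ⟨e1, e2⟩ := Finset.mem_filter.1 f1
            exact ⟨(hF t e1).1, f2, (hF t e1).2.1⟩)
        refine h1.trans (mul_le_mul_of_nonneg_right (mul_le_mul_of_nonneg_left ?_ hD.le)
          (by positivity))
        exact Real.rpow_le_rpow_of_exponent_le hX (by linarith)
      have h3 : (F2.card : ℝ) ≤ ∑ j ∈ Finset.range (J + 1), ((G j).card : ℝ) := by
        exact_mod_cast hGc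
      refine (h3.trans (Finset.sum_le_sum hGj)).trans ?_
      rw [← Finset.mul_sum]
      refine (mul_le_mul_of_nonneg_left (geom_le hk1 hl0p hJ) (by positivity)).trans
        (le_of_eq ?_)
      ring
    · have : F2 = ∅ := by
        rw [Finset.eq_empty_iff_forall_notMem]
        intro t ht
        obtain ⟨e1, e2⟩ := Finset.mem_filter.1 ht
        have := (hF t e1).2.2
        linarith [not_le.1 e2]
      rw [this, Finset.card_empty, Nat.cast_zero]
      positivity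
  have d3 : D0 * X ^ (2 / ((d : ℝ) + 3) + ε) ≤ D0 * X ^ (2 / ((d : ℝ) + 3) + ε) * H :=
    le_mul_of_one_le_right (by positivity) hH
  rw [hcard]
  linarith

/-- **the main count** -/
theorem main_upper {d : ℕ} (L : Fm (d + 3)) (ε : ℝ) (hε : 0 < ε) : ∃ D : ℝ, 0 < D ∧
    ∀ X H : ℝ, 1 ≤ X → 1 ≤ H → ∀ F : Finset (ℤ × ℤ), (∀ t ∈ F, Pt L t ∧
      ∑ i, rr L t i ≤ Real.log X ∧ Real.log (ht t) ≤ H) →
      (F.card : ℝ) ≤ D * X ^ (2 / ((d : ℝ) + 3) + ε) * H := by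
  obtain ⟨D1, hD1, L0, hL0, hmid⟩ := mid_upper L ε hε
  have hd0 : (0 : ℝ) ≤ d := Nat.cast_nonneg d
  obtain ⟨q, hq⟩ : ∃ q : ℝ, q = (d : ℝ) + 3 := ⟨_, rfl⟩
  have hq3 : 3 ≤ q := by rw [hq]; linarith
  have hq0 : 0 < q := by linarith
  obtain ⟨D2, hD2, htriv⟩ := trivial_upper L (1 / (2 * q)) (by positivity)
  refine ⟨D1 + D2 * (Real.exp (2 * L0) * 2 + (q + 1)), by positivity,
    fun X H hX hH F hF => ?_⟩
  rw [← hq]
  have hX0 : 0 < X := by linarith
  have hH0 : 0 < H := by linarith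
  have hXp : 1 ≤ X ^ (2 / q + ε) := Real.one_le_rpow hX (by positivity)
  have hlH : 0 ≤ Real.log H := Real.log_nonneg hH
  have hlH1 : Real.log H ≤ H - 1 := Real.log_le_sub_one_of_pos hH0
  have hXpH : 0 < X ^ (2 / q + ε) * H := by positivity
  have hE : 0 < Real.exp (2 * L0) := Real.exp_pos _
  have hq1 : 1 / (2 * q) ≤ 1 := by
    rw [div_le_one (by positivity)]; linarith
  by_cases hc : L0 ≤ Real.log X
  · by_cases hc2 : H ≤ X
    · have h0 := hmid X H hX hc hH hc2 F hF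
      rw [← hq] at h0
      refine h0.trans ?_
      rw [mul_assoc, mul_assoc]
      refine mul_le_mul_of_nonneg_right ?_ hXpH.le
      have : 0 < D2 * (Real.exp (2 * L0) * 2 + (q + 1)) := by positivity
      linarith
    · push Not at hc2
      refine (htriv X H hX hH F hF).trans ?_
      have e1 : X ^ ((1 : ℝ) + 1 / (2 * q)) ≤ X ^ (2 / q + ε) * H ^ ((1 : ℝ) - 1 / q) := by
        have e2 : X ^ ((1 : ℝ) + 1 / (2 * q)) ≤
            X ^ (2 / q) * X ^ ((1 : ℝ) - 1 / q) := by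
          rw [← Real.rpow_add hX0]
          refine Real.rpow_le_rpow_of_exponent_le hX ?_
          have e3 : 2 / q + (1 - 1 / q) = 1 + 1 / q := by field_simp; ring
          rw [e3]
          have e4 : 1 / (2 * q) ≤ 1 / q := one_div_le_one_div_of_le hq0 (by linarith)
          linarith
        refine e2.trans (mul_le_mul ?_ ?_ (by positivity) (by positivity))
        · exact Real.rpow_le_rpow_of_exponent_le hX (by linarith)
        · refine Real.rpow_le_rpow hX0.le hc2.le ?_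
          have : 1 / q ≤ 1 := by rw [div_le_one hq0]; linarith
          linarith
      have e3 : Real.log H ≤ q * H ^ (1 / q) := by
        have h5 := Real.log_le_rpow_div hH0.le (ε := 1 / q) (by positivity)
        have h6 : H ^ (1 / q) / (1 / q) = q * H ^ (1 / q) := by field_simp
        linarith
      have e4 : 1 ≤ H ^ (1 / q) := Real.one_le_rpow hH (by positivity)
      have e5 : H ^ ((1 : ℝ) - 1 / q) * H ^ (1 / q) = H := by
        rw [← Real.rpow_add hH0]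
        rw [sub_add_cancel, Real.rpow_one]
      have e6 : X ^ ((1 : ℝ) + 1 / (2 * q)) * (1 + Real.log H) ≤
          (q + 1) * (X ^ (2 / q + ε) * H) := by
        calc X ^ ((1 : ℝ) + 1 / (2 * q)) * (1 + Real.log H) ≤
            (X ^ (2 / q + ε) * H ^ ((1 : ℝ) - 1 / q)) * ((q + 1) * H ^ (1 / q)) :=
              mul_le_mul e1 (by linarith) (by linarith) (by positivity)
          _ = (q + 1) * (X ^ (2 / q + ε) * (H ^ ((1 : ℝ) - 1 / q) * H ^ (1 / q))) := by ring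
          _ = _ := by rw [e5]
      calc D2 * X ^ ((1 : ℝ) + 1 / (2 * q)) * (1 + Real.log H) =
          D2 * (X ^ ((1 : ℝ) + 1 / (2 * q)) * (1 + Real.log H)) := by ring
        _ ≤ D2 * ((q + 1) * (X ^ (2 / q + ε) * H)) := mul_le_mul_of_nonneg_left e6 hD2.le
        _ = (D2 * (q + 1)) * (X ^ (2 / q + ε) * H) := by ring
        _ ≤ (D1 + D2 * (Real.exp (2 * L0) * 2 + (q + 1))) * (X ^ (2 / q + ε) * H) := by
            refine mul_le_mul_of_nonneg_right ?_ hXpH.le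
            have : 0 < D2 * (Real.exp (2 * L0) * 2) := by positivity
            linarith
        _ = _ := by ring
  · push Not at hc
    refine (htriv X H hX hH F hF).trans ?_
    have hlX : 0 ≤ Real.log X := Real.log_nonneg hX
    have e1 : X ^ ((1 : ℝ) + 1 / (2 * q)) ≤ Real.exp (2 * L0) := by
      rw [Real.rpow_def_of_pos hX0]
      refine Real.exp_le_exp.2 ?_
      calc Real.log X * (1 + 1 / (2 * q)) ≤ Real.log X * 2 :=
            mul_le_mul_of_nonneg_left (by linarith) hlX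
        _ ≤ 2 * L0 := by linarith
    have e2 : X ^ ((1 : ℝ) + 1 / (2 * q)) * (1 + Real.log H) ≤
        Real.exp (2 * L0) * (X ^ (2 / q + ε) * H) := by
      refine mul_le_mul e1 ?_ (by linarith) hE.le
      have : H ≤ X ^ (2 / q + ε) * H := le_mul_of_one_le_left hH0.le hXp
      linarith
    calc D2 * X ^ ((1 : ℝ) + 1 / (2 * q)) * (1 + Real.log H) =
          D2 * (X ^ ((1 : ℝ) + 1 / (2 * q)) * (1 + Real.log H)) := by ring
      _ ≤ D2 * (Real.exp (2 * L0) * (X ^ (2 / q + ε) * H)) :=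
          mul_le_mul_of_nonneg_left e2 hD2.le
      _ = (D2 * Real.exp (2 * L0)) * (X ^ (2 / q + ε) * H) := by ring
      _ ≤ (D1 + D2 * (Real.exp (2 * L0) * 2 + (q + 1))) * (X ^ (2 / q + ε) * H) := by
          refine mul_le_mul_of_nonneg_right ?_ hXpH.le
          have z1 : 0 < D2 * Real.exp (2 * L0) := by positivity
          have z2 : 0 < D2 * (q + 1) := by positivity
          have z3 : D2 * (Real.exp (2 * L0) * 2 + (q + 1)) =
            2 * (D2 * Real.exp (2 * L0)) + D2 * (q + 1) := by ring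
          linarith
      _ = _ := by ring

end Pool.Agent.TH867.QF
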