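import Pool.Agent.TH867.SM.Fam
import Pool.Agent.TH867.QF.Main

/-! The height of a point of the projective line in terms of the radical of three forms
(helper867). -/

set_option autoImplicit false

namespace Pool.Agent.TH867.QF

open Finset
open Pool.Agent.TH867.SR (Tr N3 log_prime_nonneg)

/-- three nonzero coprime integers with sum zero give a triple -/
theorem sorted {a b c : ℤ} (ha : a ≠ 0) (hb : b ≠ 0) (hc : c ≠ 0) (hs : a + b + c = 0)
    (hab : IsCoprime a b) : ∃ t : Fin 3 → ℕ, Tr t ∧ N3 t = a.natAbs * b.natAbs * c.natAbs ∧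
      a.natAbs ≤ t 2 ∧ b.natAbs ≤ t 2 ∧ c.natAbs ≤ t 2 := by
  have hbc : IsCoprime b c := by
    have : c = -a + b * (-1) := by linarith
    rw [this]
    exact (hab.symm.neg_right).add_mul_left_right _
  have hac : IsCoprime a c := by
    have : c = -b + a * (-1) := by linarith
    rw [this]
    exact (hab.neg_right).add_mul_left_right _
  have ha' : 0 < a.natAbs := Int.natAbs_pos.2 ha
  have hb' : 0 < b.natAbs := Int.natAbs_pos.2 hb
  have hc' : 0 < c.natAbs := Int.natAbs_pos.2 hc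
  have nab : Nat.Coprime a.natAbs b.natAbs := Int.isCoprime_iff_gcd_eq_one.1 hab
  have nac : Nat.Coprime a.natAbs c.natAbs := Int.isCoprime_iff_gcd_eq_one.1 hac
  have nbc : Nat.Coprime b.natAbs c.natAbs := Int.isCoprime_iff_gcd_eq_one.1 hbc
  have key : ∀ x y z : ℕ, 0 < x → 0 < y → Nat.Coprime x y → x + y = z →
      ∃ t : Fin 3 → ℕ, Tr t ∧ N3 t = x * y * z ∧ x ≤ t 2 ∧ y ≤ t 2 ∧ z ≤ t 2 := by
    intro x y z hx hy hxy hz
    rcases le_total x y with h | h
    · exact ⟨![x, y, z], ⟨hx, h, hxy, hz⟩, rfl, by show x ≤ z; omega, by show y ≤ z; omega,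
        le_rfl⟩
    · exact ⟨![y, x, z], ⟨hy, h, hxy.symm, by show y + x = z; omega⟩,
        by show y * x * z = x * y * z; ring, by show x ≤ z; omega, by show y ≤ z; omega, le_rfl⟩
  -- the largest one is the sum of the other two
  have hcase : a.natAbs + b.natAbs = c.natAbs ∨ a.natAbs + c.natAbs = b.natAbs ∨
      b.natAbs + c.natAbs = a.natAbs := by omega
  rcases hcase with h | h | h
  · obtain ⟨t, h1, h2, h3, h4, h5⟩ := key _ _ _ ha' hb' nab h
    exact ⟨t, h1, h2, h3, h4, h5⟩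
  · obtain ⟨t, h1, h2, h3, h4, h5⟩ := key _ _ _ ha' hc' nac h
    exact ⟨t, h1, by rw [h2]; ring, h3, h5, h4⟩
  · obtain ⟨t, h1, h2, h3, h4, h5⟩ := key _ _ _ hb' hc' nbc h
    exact ⟨t, h1, by rw [h2]; ring, h5, h3, h4⟩

section NZ

variable {r : ℕ} [NeZero r]

/-- **the height bound** -/
theorem height_forms {L : Fm r} (hr : 3 ≤ r) {P : ℤ × ℤ} (h : Pt L P) {X : ℝ} (hX : 1 ≤ X)
    (hrad : ∑ i, rr L P i ≤ Real.log X) :
    Real.log (ht P) ≤ Real.exp (3000 * (1 + Real.log (X * Rs L)) ^ 6) +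
      (4 * Real.log (Rs L) + Real.log (U L)) := by
  classical
  have hX0 : 0 < X := by linarith
  obtain ⟨A, B, C, hAB, hBC, hAC⟩ : ∃ A B C : Fin r, A ≠ B ∧ B ≠ C ∧ A ≠ C :=
    ⟨⟨0, by omega⟩, ⟨1, by omega⟩, ⟨2, by omega⟩, by simp [Fin.ext_iff], by simp [Fin.ext_iff],
      by simp [Fin.ext_iff]⟩
  have hR := Rs_pos L
  have hRr : (0 : ℝ) < Rs L := by exact_mod_cast hR
  have hR1 : (1 : ℝ) ≤ Rs L := by exact_mod_cast hR
  have rCA : rs L C A ≠ 0 := L.res C A hAC.symm
  have rAB : rs L A B ≠ 0 := L.res A B hAB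
  have rBC : rs L B C ≠ 0 := L.res B C hBC
  obtain ⟨a, ha⟩ : ∃ a : ℤ, a = rs L B C * ev L P A := ⟨_, rfl⟩
  obtain ⟨b, hb⟩ : ∃ b : ℤ, b = rs L C A * ev L P B := ⟨_, rfl⟩
  obtain ⟨c, hc⟩ : ∃ c : ℤ, c = rs L A B * ev L P C := ⟨_, rfl⟩
  have ha0 : a ≠ 0 := by rw [ha]; exact mul_ne_zero rBC (h.ne A)
  have hb0 : b ≠ 0 := by rw [hb]; exact mul_ne_zero rCA (h.ne B)
  have hc0 : c ≠ 0 := by rw [hc]; exact mul_ne_zero rAB (h.ne C)
  have hsum : a + b + c = 0 := by
    have := lin3 L P A B C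
    rw [ha, hb, hc]
    linarith
  -- the common divisor
  obtain ⟨g, hg⟩ : ∃ g : ℕ, g = Int.gcd a b := ⟨_, rfl⟩
  have hg0 : 0 < g := by rw [hg]; exact Int.gcd_pos_of_ne_zero_left _ ha0
  have hga : (g : ℤ) ∣ a := by rw [hg]; exact Int.gcd_dvd_left ..
  have hgb : (g : ℤ) ∣ b := by rw [hg]; exact Int.gcd_dvd_right ..
  have hgc : (g : ℤ) ∣ c := by
    have : c = -a - b := by linarith
    rw [this]
    exact dvd_sub (hga.neg_right) hgb
  have hgR : g ≤ Rs L ^ 3 := by
    -- g divides rs B C * rs C A * rs A B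
    have h1 : (g : ℤ) ∣ rs L B C * rs L C A * ev L P A := by
      have := hga.mul_left (rs L C A)
      rw [ha] at this
      have e : rs L C A * (rs L B C * ev L P A) = rs L B C * rs L C A * ev L P A := by ring
      rwa [e] at this
    have h2 : (g : ℤ) ∣ rs L B C * rs L C A * ev L P B := by
      have := hgb.mul_left (rs L B C)
      rw [hb] at this
      have e : rs L B C * (rs L C A * ev L P B) = rs L B C * rs L C A * ev L P B := by ring
      rwa [e] at this
    have h3 : (g : ℤ) ∣ rs L B C * rs L C A * rs L A B := by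
      obtain ⟨x, y, hxy⟩ := h.cop
      have e : rs L B C * rs L C A * rs L A B =
          x * (L.w B * (rs L B C * rs L C A * ev L P A) -
            L.w A * (rs L B C * rs L C A * ev L P B)) +
          y * (L.u A * (rs L B C * rs L C A * ev L P B) -
            L.u B * (rs L B C * rs L C A * ev L P A)) := by
        have c1 := cross1 L P A B
        have c2 := cross2 L P A B
        linear_combination (-(rs L B C * rs L C A * rs L A B)) * hxy +
          (x * rs L B C * rs L C A) * c1 + (y * rs L B C * rs L C A) * c2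
      rw [e]
      refine dvd_add (Dvd.dvd.mul_left (dvd_sub (h1.mul_left _) (h2.mul_left _)) _)
        (Dvd.dvd.mul_left (dvd_sub (h2.mul_left _) (h1.mul_left _)) _)
    have h4 : g ∣ Rs L ^ 3 := by
      have h5 : (g : ℤ) ∣ ((Rs L ^ 3 : ℕ) : ℤ) := by
        refine h3.trans ?_
        have d1 : rs L B C ∣ (Rs L : ℤ) := by
          rw [← Int.natAbs_dvd]; exact Int.natCast_dvd_natCast.2 (rs_dvd L hBC)
        have d2 : rs L C A ∣ (Rs L : ℤ) := by
          rw [← Int.natAbs_dvd]; exact Int.natCast_dvd_natCast.2 (rs_dvd L hAC.symm)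
        have d3 : rs L A B ∣ (Rs L : ℤ) := by
          rw [← Int.natAbs_dvd]; exact Int.natCast_dvd_natCast.2 (rs_dvd L hAB)
        have := mul_dvd_mul (mul_dvd_mul d1 d2) d3
        refine this.trans (dvd_of_eq ?_)
        push_cast
        ring
      exact Int.natCast_dvd_natCast.1 h5
    exact Nat.le_of_dvd (by positivity) h4
  obtain ⟨a', ha'⟩ := hga
  obtain ⟨b', hb'⟩ := hgb
  obtain ⟨c', hc'⟩ := hgc
  have hgz : (g : ℤ) ≠ 0 := by exact_mod_cast hg0.ne'
  have hcop : IsCoprime a' b' := by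
    rw [Int.isCoprime_iff_gcd_eq_one]
    have e : Int.gcd a b = g * Int.gcd a' b' := by
      rw [ha', hb', Int.gcd_mul_left]
      simp
    rw [← hg] at e
    exact Nat.eq_of_mul_eq_mul_left hg0 (by rw [← e, Nat.mul_one])
  have ha'0 : a' ≠ 0 := by rintro rfl; exact ha0 (by rw [ha', mul_zero])
  have hb'0 : b' ≠ 0 := by rintro rfl; exact hb0 (by rw [hb', mul_zero])
  have hc'0 : c' ≠ 0 := by rintro rfl; exact hc0 (by rw [hc', mul_zero])
  have hsum' : a' + b' + c' = 0 := by
    have : (g : ℤ) * (a' + b' + c') = 0 := by rw [mul_add, mul_add, ← ha', ← hb', ← hc', hsum]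
    rcases mul_eq_zero.1 this with h0 | h0
    · exact absurd h0 hgz
    · exact h0
  obtain ⟨t, hTr, hN, hat, hbt, -⟩ := sorted ha'0 hb'0 hc'0 hsum' hcop
  -- the radical
  have hsub : (N3 t).primeFactors ⊆ (Np L P).primeFactors ∪ (Rs L).primeFactors := by
    intro q hq
    obtain ⟨q1, q2, _⟩ := Nat.mem_primeFactors.1 hq
    rw [hN] at q2
    have hqabc : q ∣ a.natAbs * b.natAbs * c.natAbs := by
      refine q2.trans ?_
      rw [ha', hb', hc', Int.natAbs_mul, Int.natAbs_mul, Int.natAbs_mul]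
      exact mul_dvd_mul (mul_dvd_mul (Dvd.intro_left _ rfl) (Dvd.intro_left _ rfl))
        (Dvd.intro_left _ rfl)
    have hone : ∀ (z : ℤ) (i j k : Fin r), i ≠ j → z = rs L i j * ev L P k → q ∣ z.natAbs →
        q ∈ (Np L P).primeFactors ∪ (Rs L).primeFactors := by
      intro z i j k hij hz hqz
      rw [hz, Int.natAbs_mul] at hqz
      rw [Finset.mem_union]
      rcases (Nat.Prime.dvd_mul q1).1 hqz with h1 | h1
      · exact Or.inr (Nat.mem_primeFactors.2 ⟨q1, h1.trans (rs_dvd L hij), hR.ne'⟩)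
      · exact Or.inl (Nat.mem_primeFactors.2 ⟨q1, h1.trans (dvd_Np L P k), (Np_pos h).ne'⟩)
    rcases (Nat.Prime.dvd_mul q1).1 hqabc with h1 | h1
    · rcases (Nat.Prime.dvd_mul q1).1 h1 with h2 | h2
      · exact hone a B C A hBC ha h2
      · exact hone b C A B hAC.symm hb h2
    · exact hone c A B C hAB hc h1
  have hrr : SR.rr t 0 + SR.rr t 1 + SR.rr t 2 ≤ Real.log (X * Rs L) := by
    rw [← SR.rr_sum hTr, Real.log_mul hX0.ne' hRr.ne']
    have e1 : ∑ q ∈ (N3 t).primeFactors, Real.log (q : ℝ) ≤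
        ∑ q ∈ (Np L P).primeFactors ∪ (Rs L).primeFactors, Real.log (q : ℝ) :=
      Finset.sum_le_sum_of_subset_of_nonneg hsub fun q _ _ => Real.log_natCast_nonneg q
    have e2 : ∑ q ∈ (Np L P).primeFactors ∪ (Rs L).primeFactors, Real.log (q : ℝ) ≤
        ∑ q ∈ (Np L P).primeFactors, Real.log (q : ℝ) +
          ∑ q ∈ (Rs L).primeFactors, Real.log (q : ℝ) := by
      rw [← Finset.sum_union_inter]
      have : 0 ≤ ∑ q ∈ (Np L P).primeFactors ∩ (Rs L).primeFactors, Real.log (q : ℝ) :=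
        Finset.sum_nonneg fun q _ => Real.log_natCast_nonneg q
      linarith
    rw [← rr_sum] at e2
    have e3 : ∑ q ∈ (Rs L).primeFactors, Real.log (q : ℝ) ≤ Real.log (Rs L) := by
      rw [SR.log_eq_sum' hR.ne']
      refine Finset.sum_le_sum fun q hq => ?_
      obtain ⟨q1, q2, _⟩ := Nat.mem_primeFactors.1 hq
      have : 1 ≤ (Rs L).factorization q := q1.factorization_pos_of_dvd hR.ne' q2
      have h1 : (1 : ℝ) ≤ (Rs L).factorization q := by exact_mod_cast this
      have h2 : 0 ≤ Real.log (q : ℝ) := Real.log_natCast_nonneg q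
      nlinarith
    linarith
  have hXR : 1 ≤ X * Rs L := by nlinarith
  have hh := SM.height_le hTr hXR hrr
  -- from the triple to the point
  have hva : ∀ (z z' : ℤ) (i j k : Fin r), z = rs L i j * ev L P k → i ≠ j → z = g * z' →
      z'.natAbs ≤ t 2 → va L P k ≤ Rs L ^ 3 * t 2 := by
    intro z z' i j k hz hij hzg hzt
    have h1 : va L P k ≤ z.natAbs := by
      rw [hz, Int.natAbs_mul]
      exact Nat.le_mul_of_pos_left _ (Int.natAbs_pos.2 (L.res i j hij))
    have h2 : z.natAbs = g * z'.natAbs := by rw [hzg, Int.natAbs_mul, Int.natAbs_natCast]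
    calc va L P k ≤ g * z'.natAbs := by rw [← h2]; exact h1
      _ ≤ Rs L ^ 3 * t 2 := Nat.mul_le_mul hgR hzt
  have hA := hva a a' B C A ha hBC ha' hat
  have hB := hva b b' C A B hb hAC.symm hb' hbt
  have hht : ht P ≤ U L * (Rs L ^ 3 * t 2) :=
    (ht_le L P hAB).trans (Nat.mul_le_mul_left _ (max_le hA hB))
  have hU0 : (0 : ℝ) < U L := by exact_mod_cast U_pos L
  have ht2 : (0 : ℝ) < t 2 := by exact_mod_cast hTr.pos' 2
  have hP0 : (0 : ℝ) < ht P := by exact_mod_cast ht_pos h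
  have h5 : (QF.ht P : ℝ) ≤ U L * ((Rs L : ℝ) ^ 3 * t 2) := by exact_mod_cast hht
  have h6 := Real.log_le_log hP0 h5
  rw [Real.log_mul hU0.ne' (by positivity), Real.log_mul (by positivity) ht2.ne',
    Real.log_pow] at h6
  have h7 : 0 ≤ Real.log (Rs L) := Real.log_natCast_nonneg _
  push_cast at h6
  linarith

end NZ

end Pool.Agent.TH867.QF
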