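import Pool.Agent.TH867.QF.Ht

/-! Points of the projective line of any height: the values of largest radical are not almost
composed of large primes (helper867). -/

set_option autoImplicit false

namespace Pool.Agent.TH867.QF

open Finset
open Pool.Agent.TH867.SR (sum_fac_le log_prime_nonneg greedy log_prod_primes)

section NZ

variable {r : ℕ} [NeZero r]

theorem Sd_disj (L : Fm r) (P : ℤ × ℤ) {i j : Fin r} (hij : i ≠ j) :
    Disjoint (Sd L P i) (Sd L P j) := by
  rw [Finset.disjoint_left]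
  intro q h1 h2
  exact hij ((ty_Sd h1).symm.trans (ty_Sd h2))

end NZ

/-- the choice of a light set -/
theorem rough_choice {d : ℕ} {L : Fm (d + 3)} {k : ℕ} (hk : 1 ≤ k) {δ L0 y : ℝ} (hy : 1 ≤ y)
    {P : ℤ × ℤ} (h : Pt L P) (hc : 4 * (k : ℝ) * cL L ≤ Real.log (ht P)) {i1 i2 : Fin (d + 3)}
    (hi : i1 ≠ i2) (hkδ : 6 * ((d : ℝ) + 1) / k ≤ δ) (htot : ∑ i, rr L P i ≤ L0)
    (hro : ∑ j ∈ (Finset.univ.erase i1).erase i2,
      ∑ q ∈ (Sd L P j).filter (fun q : ℕ => y < q), (vv L P q : ℝ) * Real.log q ≤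
        ((d : ℝ) + 1 - δ) * Real.log (ht P)) :
    ∃ S : Finset ℕ, (∀ q ∈ S, q.Prime) ∧ (∃ I, Light L k S I P) ∧
      ∑ q ∈ S, Real.log (q : ℝ) ≤ rr L P i1 + rr L P i2 + 4 / (k * δ) * L0 + Real.log y := by
  classical
  have hk0 : (0 : ℝ) < k := by exact_mod_cast hk
  have hk1 : (1 : ℝ) ≤ k := by exact_mod_cast hk
  have hc1 := cL_ge L
  have n1 := Real.log_natCast_nonneg (Rs L)
  have n2 := Real.log_natCast_nonneg (U L)
  obtain ⟨H, hH⟩ : ∃ H, H = Real.log (ht P) := ⟨_, rfl⟩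
  rw [← hH] at hc hro
  have hHk : 4 * cL L ≤ H / k := by
    rw [le_div_iff₀ hk0]
    linarith
  have hcLe : cL L = 2 * Real.log (Rs L) + 2 * Real.log (U L) + 1 := rfl
  have hH0 : 0 < H := by
    have : 0 < 4 * (k : ℝ) * cL L := by positivity
    linarith
  have hly : 0 ≤ Real.log y := Real.log_nonneg hy
  have hL0 : 0 ≤ L0 := le_trans (Finset.sum_nonneg fun i _ => rr_nonneg L P i) htot
  have hd0 : (0 : ℝ) ≤ d := Nat.cast_nonneg _
  have h6k : 0 < 6 * ((d : ℝ) + 1) / k := by positivity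
  have hδ0 : 0 < δ := by linarith
  obtain ⟨w, hw⟩ : ∃ w : ℕ → ℝ, w = fun q => (vv L P q : ℝ) * Real.log q := ⟨_, rfl⟩
  have hw0 : ∀ q, 0 ≤ w q := fun q => by
    rw [hw]
    exact mul_nonneg (Nat.cast_nonneg _) (Real.log_natCast_nonneg q)
  have hSw : ∀ i, Real.log (va L P i) - Real.log (Rs L) ≤ ∑ q ∈ Sd L P i, w q := by
    intro i
    have := Sd_weight h i
    rw [hw]
    linarith
  by_cases hsm : ∃ j, j ≠ i1 ∧ j ≠ i2 ∧ Real.log (va L P j) < H - 2 * (H / k)
  · obtain ⟨j, hj1, hj2, hj⟩ := hsm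
    have hbig : ∀ i, j ≠ i → H - Real.log (U L) ≤ Real.log (va L P i) := by
      intro i hji
      rcases le_total (va L P j) (va L P i) with h1 | h1
      · rw [hH]; exact log_va_ge h hji h1
      · have h2 := log_va_ge h hji.symm h1
        rw [← hH] at h2
        linarith
    have hdis : Disjoint (Sd L P i1) (Sd L P i2) := Sd_disj L P hi
    refine ⟨Sd L P i1 ∪ Sd L P i2, ?_, ⟨j, ?_⟩, ?_⟩
    · intro q hq
      rcases Finset.mem_union.1 hq with h1 | h1
      · exact prime_Sd h1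
      · exact prime_Sd h1
    · rw [Light, ← hH]
      have e1 : ∑ q ∈ Sd L P i1 ∪ Sd L P i2, (vv L P q : ℝ) * Real.log q =
          ∑ q ∈ Sd L P i1, w q + ∑ q ∈ Sd L P i2, w q := by
        rw [Finset.sum_union hdis, hw]
      have e2 : (1 + 1 / (k : ℝ)) * H = H + H / k := by ring
      have e3 := hSw i1
      have e4 := hSw i2
      have e5 := hbig i1 hj1
      have e6 := hbig i2 hj2
      rw [e1, e2]
      linarith
    · rw [Finset.sum_union hdis]
      have : 0 ≤ 4 / (k * δ) * L0 := by positivity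
      unfold rr
      linarith
  · push Not at hsm
    obtain ⟨J, hJ⟩ : ∃ J, J = (Finset.univ.erase i1).erase i2 := ⟨_, rfl⟩
    rw [← hJ] at hro
    have hJm : ∀ j ∈ J, j ≠ i1 ∧ j ≠ i2 := by
      intro j hj
      rw [hJ, Finset.mem_erase, Finset.mem_erase] at hj
      exact ⟨hj.2.1, hj.1⟩
    have hJc : (J.card : ℝ) = (d : ℝ) + 1 := by
      have : J.card = d + 1 := by
        rw [hJ, Finset.card_erase_of_mem (Finset.mem_erase.2 ⟨hi.symm, Finset.mem_univ _⟩),
          Finset.card_erase_of_mem (Finset.mem_univ _), Finset.card_univ, Fintype.card_fin]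
        omega
      rw [this]; push_cast; ring
    obtain ⟨Q, hQ⟩ : ∃ Q, Q = J.biUnion fun j => (Sd L P j).filter (fun q : ℕ => ¬ y < q) :=
      ⟨_, rfl⟩
    have hpd : ∀ i ∈ J, ∀ j ∈ J, i ≠ j → Disjoint ((Sd L P i).filter (fun q : ℕ => ¬ y < q))
        ((Sd L P j).filter (fun q : ℕ => ¬ y < q)) := by
      intro i _ j _ hij
      exact (Sd_disj L P hij).mono (Finset.filter_subset _ _) (Finset.filter_subset _ _)
    have hQw : ∑ q ∈ Q, w q = ∑ j ∈ J, ∑ q ∈ (Sd L P j).filter (fun q : ℕ => ¬ y < q), w q := by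
      rw [hQ]
      exact Finset.sum_biUnion hpd
    have hQc : ∑ q ∈ Q, Real.log (q : ℝ) ≤ L0 := by
      rw [hQ, Finset.sum_biUnion hpd]
      refine le_trans (le_trans (Finset.sum_le_sum (g := fun j => rr L P j) fun j _ => ?_)
        (Finset.sum_le_sum_of_subset_of_nonneg (Finset.subset_univ J)
          fun i _ _ => rr_nonneg L P i)) htot
      exact Finset.sum_le_sum_of_subset_of_nonneg (Finset.filter_subset _ _)
        fun q _ _ => Real.log_natCast_nonneg q
    obtain ⟨W, hW⟩ : ∃ W, W = ∑ q ∈ Q, w q := ⟨_, rfl⟩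
    have hWge : δ / 2 * H ≤ W := by
      have e1 : ∀ j ∈ J, H - 3 * (H / k) ≤ ∑ q ∈ Sd L P j, w q := by
        intro j hj
        have a1 := hSw j
        have a2 := hsm j (hJm j hj).1 (hJm j hj).2
        linarith
      have e2 : ((d : ℝ) + 1) * (H - 3 * (H / k)) ≤ ∑ j ∈ J, ∑ q ∈ Sd L P j, w q := by
        have := Finset.card_nsmul_le_sum J _ _ e1
        rw [nsmul_eq_mul, hJc] at this
        exact this
      have e3 : ∑ j ∈ J, ∑ q ∈ Sd L P j, w q =
          ∑ j ∈ J, ∑ q ∈ (Sd L P j).filter (fun q : ℕ => y < q), w q + W := by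
        rw [hW, hQw, ← Finset.sum_add_distrib]
        refine Finset.sum_congr rfl fun j _ => ?_
        exact (Finset.sum_filter_add_sum_filter_not (Sd L P j) (fun q : ℕ => y < q) w).symm
      have e4 : ∑ j ∈ J, ∑ q ∈ (Sd L P j).filter (fun q : ℕ => y < q), w q ≤
          ((d : ℝ) + 1 - δ) * H := by
        rw [hw]; exact hro
      have e5 : 3 * ((d : ℝ) + 1) * (H / k) = 1 / 2 * (6 * ((d : ℝ) + 1) / k) * H := by ring
      have e6 : 1 / 2 * (6 * ((d : ℝ) + 1) / k) * H ≤ 1 / 2 * δ * H :=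
        mul_le_mul_of_nonneg_right (mul_le_mul_of_nonneg_left hkδ (by norm_num)) hH0.le
      have e7 : ((d : ℝ) + 1) * (H - 3 * (H / k)) = ((d : ℝ) + 1) * H -
        3 * ((d : ℝ) + 1) * (H / k) := by ring
      have e8 : ((d : ℝ) + 1 - δ) * H = ((d : ℝ) + 1) * H - δ * H := by ring
      rw [e7] at e2
      rw [e8] at e4
      linarith
    have hW0 : 0 < W := lt_of_lt_of_le (by positivity) hWge
    have hκ : 2 * (H / k) ≤ W := by
      have e1 : 6 / (k : ℝ) ≤ δ := by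
        refine le_trans ?_ hkδ
        exact div_le_div_of_nonneg_right (by linarith) hk0.le
      have e2 : 2 * (H / k) = 1 / 3 * (6 / k) * H := by ring
      have e3 : 1 / 3 * (6 / (k : ℝ)) * H ≤ 1 / 3 * δ * H :=
        mul_le_mul_of_nonneg_right (mul_le_mul_of_nonneg_left e1 (by norm_num)) hH0.le
      have e4 : 0 ≤ δ * H := by positivity
      linarith
    obtain ⟨T, hT, hTw, hTc⟩ := greedy w (fun q : ℕ => Real.log (q : ℝ)) (κ := 2 * (H / k))
      (ρ := L0 / W) (M := Real.log y) (by positivity) (by positivity) hly Q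
      (fun q hq => by
        rw [hQ, Finset.mem_biUnion] at hq
        obtain ⟨j, _, hq⟩ := hq
        rw [Finset.mem_filter, not_lt] at hq
        exact Real.log_le_log (by exact_mod_cast (prime_Sd hq.1).pos) hq.2)
      (by rw [← hW, div_mul_cancel₀ _ hW0.ne']; exact hQc)
      (by rw [← hW]; exact hκ)
    have hTm : ∀ q ∈ T, ∃ j ∈ J, q ∈ Sd L P j := by
      intro q hq
      have := hT hq
      rw [hQ, Finset.mem_biUnion] at this
      obtain ⟨j, hj, hq⟩ := this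
      exact ⟨j, hj, (Finset.mem_filter.1 hq).1⟩
    have hdis : Disjoint (Sd L P i1) (Sd L P i2) := Sd_disj L P hi
    have hdisT : Disjoint (Sd L P i1 ∪ Sd L P i2) T := by
      rw [Finset.disjoint_left]
      intro q h1 h2
      obtain ⟨j, hj, h3⟩ := hTm q h2
      have h4 := ty_Sd h3
      rcases Finset.mem_union.1 h1 with h5 | h5
      · exact (hJm j hj).1 (h4.symm.trans (ty_Sd h5))
      · exact (hJm j hj).2 (h4.symm.trans (ty_Sd h5))
    have hwS : ∑ q ∈ Sd L P i1 ∪ Sd L P i2 ∪ T, (vv L P q : ℝ) * Real.log q =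
        ∑ q ∈ Sd L P i1, w q + ∑ q ∈ Sd L P i2, w q + ∑ q ∈ T, w q := by
      rw [Finset.sum_union hdisT, Finset.sum_union hdis, hw]
    have hcost : L0 / W * (2 * (H / k)) ≤ 4 / (k * δ) * L0 := by
      rw [div_mul_eq_mul_div, div_le_iff₀ hW0]
      calc L0 * (2 * (H / k)) = 4 / (k * δ) * L0 * (δ / 2 * H) := by field_simp; ring
        _ ≤ 4 / (k * δ) * L0 * W := mul_le_mul_of_nonneg_left hWge (by positivity)
    refine ⟨Sd L P i1 ∪ Sd L P i2 ∪ T, ?_, ?_, ?_⟩
    · intro q hq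
      rcases Finset.mem_union.1 hq with h1 | h1
      · rcases Finset.mem_union.1 h1 with h2 | h2
        · exact prime_Sd h2
        · exact prime_Sd h2
      · obtain ⟨j, _, h3⟩ := hTm q h1
        exact prime_Sd h3
    · have e3 := hSw i1
      have e4 := hSw i2
      have e2 : (1 + 1 / (k : ℝ)) * H = H + H / k := by ring
      rcases le_total (va L P i1) (va L P i2) with h1 | h1
      · refine ⟨i1, ?_⟩
        have h2 := log_va_ge h hi h1
        rw [← hH] at h2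
        rw [Light, ← hH, hwS, e2]
        linarith
      · refine ⟨i2, ?_⟩
        have h2 := log_va_ge h hi.symm h1
        rw [← hH] at h2
        rw [Light, ← hH, hwS, e2]
        linarith
    · rw [Finset.sum_union hdisT, Finset.sum_union hdis]
      unfold rr
      linarith

/-- the count for `y ≤ X` -/
theorem rough_upper_aux {d : ℕ} (L : Fm (d + 3)) (ε δ c : ℝ) (hε : 0 < ε) (hδ : 0 < δ)
    (hc : 0 ≤ c) : ∃ D : ℝ, 0 < D ∧ ∀ X y : ℝ, 1 ≤ X → 1 ≤ y → y ≤ X →
    ∀ F : Finset (ℤ × ℤ), (∀ P ∈ F, Pt L P ∧ ∑ i, rr L P i ≤ Real.log X ∧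
      ∃ i1 i2 : Fin (d + 3), i1 ≠ i2 ∧ rr L P i1 + rr L P i2 ≤ 2 / ((d : ℝ) + 3) * Real.log X + c ∧
      ∑ j ∈ (Finset.univ.erase i1).erase i2,
        ∑ q ∈ (Sd L P j).filter (fun q : ℕ => y < q), (vv L P q : ℝ) * Real.log q ≤
          ((d : ℝ) + 1 - δ) * Real.log (ht P)) →
    (F.card : ℝ) ≤ D * y * X ^ (2 / ((d : ℝ) + 3) + ε) := by
  classical
  have hd0 : (0 : ℝ) ≤ d := Nat.cast_nonneg _
  obtain ⟨θ, hθ⟩ : ∃ θ : ℝ, θ = 2 / ((d : ℝ) + 3) := ⟨_, rfl⟩
  have hθ0 : 0 < θ := by rw [hθ]; positivity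
  have hθ1 : θ ≤ 1 := by rw [hθ, div_le_one (by positivity)]; linarith
  obtain ⟨k, hk⟩ : ∃ k : ℕ, 16 / ε + 16 / (δ * ε) + 6 * ((d : ℝ) + 1) / δ ≤ k := exists_nat_ge _
  have hp1 : 0 < 16 / ε := by positivity
  have hp2 : 0 < 16 / (δ * ε) := by positivity
  have hp3 : 0 < 6 * ((d : ℝ) + 1) / δ := by positivity
  have hk0 : (0 : ℝ) < k := by linarith
  have hk1 : 1 ≤ k := by
    have : 0 < k := by exact_mod_cast hk0
    omega
  have hk1' : (1 : ℝ) ≤ k := by exact_mod_cast hk1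
  have hkε : 16 / (k : ℝ) ≤ ε := by
    have : 16 / ε ≤ k := by linarith
    rw [div_le_iff₀ hε] at this
    rw [div_le_iff₀ hk0]
    linarith
  have hkδ : 6 * ((d : ℝ) + 1) / (k : ℝ) ≤ δ := by
    have : 6 * ((d : ℝ) + 1) / δ ≤ k := by linarith
    rw [div_le_iff₀ hδ] at this
    rw [div_le_iff₀ hk0]
    linarith
  have hkδε : 16 / (k * δ) ≤ ε := by
    have : 16 / (δ * ε) ≤ k := by linarith
    rw [div_le_iff₀ (by positivity)] at this
    rw [div_le_iff₀ (by positivity)]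
    linarith
  have h1k : 0 < 1 / (k : ℝ) := by positivity
  have h1k1 : 1 / (k : ℝ) ≤ 1 := by rw [div_le_one hk0]; exact hk1'
  obtain ⟨D, hD, h⟩ := light_total (L := L) (by omega : 2 ≤ d + 3) hk1
  obtain ⟨D2, hD2, h2⟩ := SM.log_pow_le (1 / (k : ℝ)) h1k
  obtain ⟨c2, hc2⟩ : ∃ c2 : ℝ, c2 = 4 * Real.log (Rs L) + Real.log (U L) := ⟨_, rfl⟩
  have n1 := Real.log_natCast_nonneg (Rs L)
  have n2 := Real.log_natCast_nonneg (U L)
  have hc20 : 0 ≤ c2 := by rw [hc2]; linarith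
  have hR1 : (1 : ℝ) ≤ Rs L := by exact_mod_cast Rs_pos L
  have hR0 : (0 : ℝ) < Rs L := by linarith
  obtain ⟨c3, hc3⟩ : ∃ c3 : ℝ, c3 = Real.log (1 + c2) := ⟨_, rfl⟩
  have hc30 : 0 ≤ c3 := by rw [hc3]; exact Real.log_nonneg (by linarith)
  refine ⟨D * Real.exp c ^ (2 : ℝ) * ((1 + c3) * (D2 * Rs L)), by positivity,
    fun X y hX hy hXy F hF => ?_⟩
  have hX0 : 0 < X := by linarith
  have hy0 : 0 < y := by linarith
  have hlX : 0 ≤ Real.log X := Real.log_nonneg hX
  have hec : 1 ≤ Real.exp c := Real.one_le_exp hc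
  obtain ⟨M, hMe⟩ : ∃ M, M = Real.exp c * X ^ (θ + 4 / (k * δ)) * y := ⟨_, rfl⟩
  have hXp : 1 ≤ X ^ (θ + 4 / (k * δ)) := Real.one_le_rpow hX (by positivity)
  have hM : 1 ≤ M := by
    rw [hMe]
    exact one_le_mul_of_one_le_of_one_le (one_le_mul_of_one_le_of_one_le hec hXp) hy
  obtain ⟨E, hE⟩ : ∃ E, E = 3000 * (1 + Real.log (X * Rs L)) ^ 6 := ⟨_, rfl⟩
  have hXR : 1 ≤ X * Rs L := one_le_mul_of_one_le_of_one_le hX hR1
  have hE0 : 0 ≤ E := by
    rw [hE]
    have := Real.log_nonneg hXR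
    positivity
  obtain ⟨H, hH⟩ : ∃ H, H = Real.exp E * (1 + c2) := ⟨_, rfl⟩
  have heE : 1 ≤ Real.exp E := Real.one_le_exp hE0
  have hH1 : 1 ≤ H := by
    rw [hH]
    exact one_le_mul_of_one_le_of_one_le heE (by linarith)
  have hlH : Real.log H = E + c3 := by
    rw [hH, Real.log_mul (Real.exp_pos _).ne' (by linarith), Real.log_exp, hc3]
  have h1 := h M H hM hH1 F (fun P hP => by
    obtain ⟨a1, a2, i1, i2, a3, a4, a5⟩ := hF P hP
    refine ⟨a1, ?_, fun hbig => ?_⟩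
    · have := height_forms (by omega : 3 ≤ d + 3) a1 hX a2
      rw [← hE, ← hc2] at this
      refine this.trans ?_
      rw [hH]
      nlinarith
    · obtain ⟨S, s1, s2, s3⟩ := rough_choice hk1 hy a1 hbig a3 hkδ a2 a5
      refine ⟨S, s1, s2, ?_⟩
      have hpos : 0 < ∏ q ∈ S, q := Finset.prod_pos fun q hq => (s1 q hq).pos
      rw [hMe, ← Real.log_le_log_iff (by exact_mod_cast hpos) (by positivity),
        Real.log_mul (by positivity) hy0.ne', Real.log_mul (by positivity) (by positivity),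
        Real.log_exp, Real.log_rpow hX0, log_prod_primes s1]
      rw [← hθ] at a4
      linarith)
  rw [hlH] at h1
  have h3 : 1 + (E + c3) ≤ (1 + c3) * (D2 * Rs L) * X ^ (1 / (k : ℝ)) := by
    have e1 := h2 (X * Rs L) hXR
    rw [← hE, Real.mul_rpow hX0.le hR0.le] at e1
    have e2 : (Rs L : ℝ) ^ (1 / (k : ℝ)) ≤ Rs L := by
      calc (Rs L : ℝ) ^ (1 / (k : ℝ)) ≤ (Rs L : ℝ) ^ (1 : ℝ) :=
            Real.rpow_le_rpow_of_exponent_le hR1 h1k1
        _ = Rs L := Real.rpow_one _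
    have e3 : 1 + E ≤ D2 * Rs L * X ^ (1 / (k : ℝ)) := by
      refine e1.trans ?_
      calc D2 * (X ^ (1 / (k : ℝ)) * (Rs L : ℝ) ^ (1 / (k : ℝ))) ≤
          D2 * (X ^ (1 / (k : ℝ)) * Rs L) := mul_le_mul_of_nonneg_left
            (mul_le_mul_of_nonneg_left e2 (by positivity)) hD2.le
        _ = _ := by ring
    calc 1 + (E + c3) ≤ (1 + c3) * (1 + E) := by nlinarith
      _ ≤ (1 + c3) * (D2 * Rs L * X ^ (1 / (k : ℝ))) :=
        mul_le_mul_of_nonneg_left e3 (by linarith)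
      _ = _ := by ring
  have hMk : M ^ (1 + 1 / (k : ℝ)) ≤ Real.exp c ^ (2 : ℝ) * (y * X ^ (θ + 7 / 8 * ε)) := by
    have e0 : M ^ (1 + 1 / (k : ℝ)) = M * M ^ (1 / (k : ℝ)) := by
      rw [Real.rpow_add (by linarith), Real.rpow_one]
    have e4 : 4 / (k * δ) ≤ 1 := by
      have e5 : 4 / (k * δ) = 4 / k / δ := by rw [div_div]
      rw [e5, div_le_one hδ]
      refine le_trans ?_ hkδ
      exact div_le_div_of_nonneg_right (by linarith) hk0.le
    have e1 : M ≤ Real.exp c * X ^ (4 : ℝ) := by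
      rw [hMe, mul_assoc]
      refine mul_le_mul_of_nonneg_left ?_ (by positivity)
      calc X ^ (θ + 4 / (k * δ)) * y ≤ X ^ (3 : ℝ) * X :=
            mul_le_mul (Real.rpow_le_rpow_of_exponent_le hX (by linarith)) hXy hy0.le
              (by positivity)
        _ = X ^ (4 : ℝ) := by
            rw [← Real.rpow_add_one hX0.ne']
            norm_num
    have e3 : M ^ (1 / (k : ℝ)) ≤ Real.exp c * X ^ (4 / (k : ℝ)) := by
      calc M ^ (1 / (k : ℝ)) ≤ (Real.exp c * X ^ (4 : ℝ)) ^ (1 / (k : ℝ)) :=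
            Real.rpow_le_rpow (by linarith) e1 h1k.le
        _ = Real.exp c ^ (1 / (k : ℝ)) * X ^ (4 / (k : ℝ)) := by
            rw [Real.mul_rpow (by positivity) (by positivity), ← Real.rpow_mul hX0.le]
            congr 2
            ring
        _ ≤ Real.exp c * X ^ (4 / (k : ℝ)) := by
            refine mul_le_mul_of_nonneg_right ?_ (by positivity)
            calc Real.exp c ^ (1 / (k : ℝ)) ≤ Real.exp c ^ (1 : ℝ) :=
                  Real.rpow_le_rpow_of_exponent_le hec h1k1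
              _ = Real.exp c := Real.rpow_one _
    rw [e0]
    calc M * M ^ (1 / (k : ℝ)) ≤ M * (Real.exp c * X ^ (4 / (k : ℝ))) :=
          mul_le_mul_of_nonneg_left e3 (by linarith)
      _ = Real.exp c ^ (2 : ℝ) * (y * (X ^ (θ + 4 / (k * δ)) * X ^ (4 / (k : ℝ)))) := by
          rw [hMe, Real.rpow_two]
          ring
      _ = Real.exp c ^ (2 : ℝ) * (y * X ^ (θ + 4 / (k * δ) + 4 / (k : ℝ))) := by
          rw [← Real.rpow_add hX0]
      _ ≤ Real.exp c ^ (2 : ℝ) * (y * X ^ (θ + 7 / 8 * ε)) := by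
          refine mul_le_mul_of_nonneg_left (mul_le_mul_of_nonneg_left
            (Real.rpow_le_rpow_of_exponent_le hX ?_) hy0.le) (by positivity)
          have e5 : 4 / (k * δ) = 1 / 4 * (16 / (k * δ)) := by ring
          have e6 : 4 / (k : ℝ) = 1 / 4 * (16 / k) := by ring
          rw [e5, e6]
          linarith
  rw [← hθ]
  calc (F.card : ℝ) ≤ D * M ^ (1 + 1 / (k : ℝ)) * (1 + (E + c3)) := h1
    _ ≤ D * (Real.exp c ^ (2 : ℝ) * (y * X ^ (θ + 7 / 8 * ε))) *
        ((1 + c3) * (D2 * Rs L) * X ^ (1 / (k : ℝ))) := by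
        refine mul_le_mul (mul_le_mul_of_nonneg_left hMk hD.le) h3 (by linarith) (by positivity)
    _ = D * Real.exp c ^ (2 : ℝ) * ((1 + c3) * (D2 * Rs L)) * y *
        (X ^ (θ + 7 / 8 * ε) * X ^ (1 / (k : ℝ))) := by ring
    _ = D * Real.exp c ^ (2 : ℝ) * ((1 + c3) * (D2 * Rs L)) * y *
        X ^ (θ + 7 / 8 * ε + 1 / (k : ℝ)) := by rw [← Real.rpow_add hX0]
    _ ≤ D * Real.exp c ^ (2 : ℝ) * ((1 + c3) * (D2 * Rs L)) * y * X ^ (θ + ε) := by
        refine mul_le_mul_of_nonneg_left (Real.rpow_le_rpow_of_exponent_le hX ?_) (by positivity)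
        have e5 : 1 / (k : ℝ) = 1 / 16 * (16 / k) := by ring
        rw [e5]
        linarith

/-- **the count** -/
theorem rough_upper {d : ℕ} (L : Fm (d + 3)) (ε δ c : ℝ) (hε : 0 < ε) (hδ : 0 < δ)
    (hc : 0 ≤ c) : ∃ D : ℝ, 0 < D ∧ ∀ X y : ℝ, 1 ≤ X → 1 ≤ y →
    ∀ F : Finset (ℤ × ℤ), (∀ P ∈ F, Pt L P ∧ ∑ i, rr L P i ≤ Real.log X ∧
      ∃ i1 i2 : Fin (d + 3), i1 ≠ i2 ∧ rr L P i1 + rr L P i2 ≤ 2 / ((d : ℝ) + 3) * Real.log X + c ∧
      ∑ j ∈ (Finset.univ.erase i1).erase i2,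
        ∑ q ∈ (Sd L P j).filter (fun q : ℕ => y < q), (vv L P q : ℝ) * Real.log q ≤
          ((d : ℝ) + 1 - δ) * Real.log (ht P)) →
    (F.card : ℝ) ≤ D * y * X ^ (2 / ((d : ℝ) + 3) + ε) := by
  obtain ⟨D, hD, h⟩ := rough_upper_aux L ε δ c hε hδ hc
  refine ⟨D, hD, fun X y hX hy F hF => ?_⟩
  rcases le_or_gt y X with hXy | hXy
  · exact h X y hX hy hXy F hF
  · have hX0 : 0 < X := by linarith
    have h1 := h X X hX hX le_rfl F fun P hP => by
      obtain ⟨a1, a2, i1, i2, a3, a4, a5⟩ := hF P hP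
      refine ⟨a1, a2, i1, i2, a3, a4, ?_⟩
      have e1 : ∀ j ∈ (Finset.univ.erase i1).erase i2,
          ∑ q ∈ (Sd L P j).filter (fun q : ℕ => X < q), (vv L P q : ℝ) * Real.log q = 0 := by
        intro j _
        have : (Sd L P j).filter (fun q : ℕ => X < q) = ∅ := by
          rw [Finset.filter_eq_empty_iff]
          intro q hq
          rw [not_lt]
          have hq0 : (0 : ℝ) < q := by exact_mod_cast (prime_Sd hq).pos
          refine (Real.log_le_log_iff hq0 hX0).1 (le_trans ?_ a2)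
          refine le_trans (Finset.single_le_sum (f := fun q : ℕ => Real.log (q : ℝ))
            (fun q _ => Real.log_natCast_nonneg q) hq) ?_
          exact Finset.single_le_sum (f := fun i => rr L P i) (fun i _ => rr_nonneg L P i)
            (Finset.mem_univ j)
        rw [this, Finset.sum_empty]
      rw [Finset.sum_eq_zero e1]
      refine le_trans ?_ a5
      exact Finset.sum_nonneg fun j _ => Finset.sum_nonneg fun q _ =>
        mul_nonneg (Nat.cast_nonneg _) (Real.log_natCast_nonneg q)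
    refine h1.trans (mul_le_mul_of_nonneg_right (mul_le_mul_of_nonneg_left hXy.le hD.le) ?_)
    positivity

end Pool.Agent.TH867.QF
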