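import Pool.Agent.TH867.QF.Count

/-! From one scale to all scales (helper867). -/

set_option autoImplicit false

namespace Pool.Agent.TH867.QF

open Finset
open Pool.Agent.TH867.SR (sum_omega rho rho_gt)

set_option linter.unusedSectionVars false

section NZ

variable {r : ℕ} [NeZero r]

/-- light points of one scale -/
theorem light_scale {L : Fm r} (hr : 2 ≤ r) {k : ℕ} (hk : 1 ≤ k) : ∃ D : ℝ, 0 < D ∧
    ∀ (M l : ℝ), 1 ≤ M → 4 * (k : ℝ) * cL L ≤ l → ∀ F : Finset (ℤ × ℤ),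
      (∀ t ∈ F, Pt L t ∧ Scale k l t ∧ ∃ S : Finset ℕ, (∀ q ∈ S, q.Prime) ∧
        (∃ I, Light L k S I t) ∧ ((∏ q ∈ S, q : ℕ) : ℝ) ≤ M) →
    (F.card : ℝ) ≤ D * M ^ (1 + 1 / (k : ℝ)) := by
  classical
  have hk0 : (0 : ℝ) < k := by exact_mod_cast hk
  have hr0 : (0 : ℝ) < r := by
    have : 0 < r := by omega
    exact_mod_cast this
  obtain ⟨D, hD, h⟩ := sum_omega ((2 : ℝ) ^ (9 * r * k)) (one_le_pow₀ (by norm_num))
    (1 / (k : ℝ)) (by positivity)
  refine ⟨(r : ℝ) * 2 ^ (9 * r * k) * D, by positivity, fun M l hM hl F hF => ?_⟩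
  have h1 : F.card ≤ ∑ m ∈ Finset.Icc 1 ⌊M⌋₊, r * 2 ^ (9 * r * k * (m.primeFactors.card + 1)) := by
    have hsub : F ⊆ (Finset.Icc 1 ⌊M⌋₊).biUnion (fun m =>
        (Finset.univ : Finset (Fin r)).biUnion (fun I =>
          F.filter fun t => Light L k m.primeFactors I t)) := by
      intro t ht
      obtain ⟨a1, a2, S, a3, ⟨I, a4⟩, a5⟩ := hF t ht
      rw [Finset.mem_biUnion]
      refine ⟨∏ q ∈ S, q, Finset.mem_Icc.2 ⟨Finset.prod_pos fun q hq => (a3 q hq).pos,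
        Nat.le_floor a5⟩, Finset.mem_biUnion.2 ⟨I, Finset.mem_univ _,
          Finset.mem_filter.2 ⟨ht, ?_⟩⟩⟩
      rw [Nat.primeFactors_prod a3]
      exact a4
    refine (Finset.card_le_card hsub).trans (Finset.card_biUnion_le.trans
      (Finset.sum_le_sum fun m _ => ?_))
    refine (Finset.card_biUnion_le_card_mul _ _ (2 ^ (9 * r * k * (m.primeFactors.card + 1)))
      fun I _ => ?_).trans (le_of_eq ?_)
    · refine card_light hr hk (S := m.primeFactors) (I := I)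
        (fun q hq => Nat.prime_of_mem_primeFactors hq) hl _ fun t ht => ?_
      obtain ⟨b1, b2⟩ := Finset.mem_filter.1 ht
      exact ⟨(hF t b1).1, (hF t b1).2.1, b2⟩
    · rw [Finset.card_univ, Fintype.card_fin]
  have h2 : (F.card : ℝ) ≤ ∑ m ∈ Finset.Icc 1 ⌊M⌋₊,
      ((r : ℝ) * (2 : ℝ) ^ (9 * r * k)) * ((2 : ℝ) ^ (9 * r * k)) ^ m.primeFactors.card := by
    have h3 : (F.card : ℝ) ≤ ((∑ m ∈ Finset.Icc 1 ⌊M⌋₊,
        r * 2 ^ (9 * r * k * (m.primeFactors.card + 1)) : ℕ) : ℝ) := by exact_mod_cast h1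
    refine h3.trans (le_of_eq ?_)
    push_cast
    refine Finset.sum_congr rfl fun m _ => ?_
    rw [pow_mul, pow_succ]
    ring
  rw [← Finset.mul_sum] at h2
  refine h2.trans ?_
  have h4 : ∑ m ∈ Finset.Icc 1 ⌊M⌋₊, ((2 : ℝ) ^ (9 * r * k)) ^ m.primeFactors.card ≤
      D * M ^ (1 + 1 / (k : ℝ)) := by
    refine (h ⌊M⌋₊).trans (mul_le_mul_of_nonneg_left ?_ hD.le)
    exact Real.rpow_le_rpow (Nat.cast_nonneg _) (Nat.floor_le (by linarith)) (by positivity)
  calc (r : ℝ) * 2 ^ (9 * r * k) *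
      ∑ m ∈ Finset.Icc 1 ⌊M⌋₊, ((2 : ℝ) ^ (9 * r * k)) ^ m.primeFactors.card ≤
      (r : ℝ) * 2 ^ (9 * r * k) * (D * M ^ (1 + 1 / (k : ℝ))) :=
        mul_le_mul_of_nonneg_left h4 (by positivity)
    _ = _ := by ring

/-- decomposition into scales -/
theorem scales {k : ℕ} (hk : 1 ≤ k) {l0 H : ℝ} (hl0 : 0 < l0) (hH : l0 ≤ H)
    (F : Finset (ℤ × ℤ)) (hF : ∀ t ∈ F, l0 ≤ Real.log (ht t) ∧ Real.log (ht t) ≤ H) :
    ∃ J : ℕ, l0 * rho k ^ J ≤ H ∧ ∃ G : ℕ → Finset (ℤ × ℤ),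
      (∀ j, ∀ t ∈ G j, t ∈ F ∧ Scale k (l0 * rho k ^ j) t) ∧
      F.card ≤ ∑ j ∈ Finset.range (J + 1), (G j).card := by
  classical
  have hρ := rho_gt hk
  obtain ⟨J, hJ1, hJ2⟩ := exists_nat_pow_near (x := H / l0) (y := rho k)
    (by rw [le_div_iff₀ hl0]; linarith) hρ
  refine ⟨J, ?_, fun j => F.filter fun t => Scale k (l0 * rho k ^ j) t, ?_, ?_⟩
  · rw [le_div_iff₀ hl0] at hJ1
    linarith
  · intro j t ht
    exact Finset.mem_filter.1 ht
  · refine (Finset.card_le_card ?_).trans Finset.card_biUnion_le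
    intro t ht
    obtain ⟨h1, h2⟩ := hF t ht
    obtain ⟨j, hj1, hj2⟩ := exists_nat_pow_near (x := Real.log (QF.ht t) / l0) (y := rho k)
      (by rw [le_div_iff₀ hl0]; linarith) hρ
    rw [Finset.mem_biUnion]
    refine ⟨j, ?_, Finset.mem_filter.2 ⟨ht, ?_, ?_⟩⟩
    · rw [Finset.mem_range]
      have h3 : rho k ^ j < rho k ^ (J + 1) := by
        refine lt_of_le_of_lt (hj1.trans ?_) hJ2
        exact div_le_div_of_nonneg_right h2 hl0.le
      exact (pow_lt_pow_iff_right₀ hρ).1 h3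
    · rw [le_div_iff₀ hl0] at hj1
      linarith
    · rw [div_lt_iff₀ hl0, pow_succ] at hj2
      have e : (1 + 1 / (4 * (k : ℝ))) = rho k := rfl
      rw [e]
      linarith

/-- points of bounded height -/
theorem small_height (L : Fm r) (h0 : ℝ) (F : Finset (ℤ × ℤ))
    (hF : ∀ t ∈ F, Pt L t ∧ Real.log (ht t) ≤ h0) :
    F.card ≤ (2 * ⌊Real.exp h0⌋₊ + 1) ^ 2 := by
  classical
  obtain ⟨N, hN⟩ : ∃ N, N = ⌊Real.exp h0⌋₊ := ⟨_, rfl⟩
  rw [← hN]
  have hsub : F ⊆ (Finset.Icc (-(N : ℤ)) N) ×ˢ (Finset.Icc (-(N : ℤ)) N) := by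
    intro t ht
    obtain ⟨a1, a2⟩ := hF t ht
    have hle : QF.ht t ≤ N := by
      rw [hN]
      refine Nat.le_floor ?_
      rw [← Real.log_le_iff_le_exp (by exact_mod_cast ht_pos a1)]
      exact a2
    have h1 : t.1.natAbs ≤ QF.ht t := le_max_left _ _
    have h2 : t.2.natAbs ≤ QF.ht t := le_max_right _ _
    rw [Finset.mem_product, Finset.mem_Icc, Finset.mem_Icc]
    omega
  refine (Finset.card_le_card hsub).trans (le_of_eq ?_)
  rw [Finset.card_product, Int.card_Icc, sq]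
  congr 1 <;> omega

/-- light points of all scales -/
theorem light_total {L : Fm r} (hr : 2 ≤ r) {k : ℕ} (hk : 1 ≤ k) : ∃ D : ℝ, 0 < D ∧
    ∀ (M H : ℝ), 1 ≤ M → 1 ≤ H → ∀ F : Finset (ℤ × ℤ), (∀ t ∈ F, Pt L t ∧
      Real.log (ht t) ≤ H ∧ (4 * (k : ℝ) * cL L ≤ Real.log (ht t) →
      ∃ S : Finset ℕ, (∀ q ∈ S, q.Prime) ∧ (∃ I, Light L k S I t) ∧
        ((∏ q ∈ S, q : ℕ) : ℝ) ≤ M)) →
    (F.card : ℝ) ≤ D * M ^ (1 + 1 / (k : ℝ)) * (1 + Real.log H) := by
  classical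
  have hk0 : (0 : ℝ) < k := by exact_mod_cast hk
  have hk1 : (1 : ℝ) ≤ k := by exact_mod_cast hk
  obtain ⟨D, hD, h⟩ := light_scale (L := L) hr hk
  have hρ := rho_gt hk
  have hlρ : 0 < Real.log (rho k) := Real.log_pos hρ
  have hc := cL_ge L
  obtain ⟨c0, hc0⟩ : ∃ c0, c0 = 4 * (k : ℝ) * cL L := ⟨_, rfl⟩
  rw [← hc0] at h ⊢
  have hc0p : 1 ≤ c0 := by
    rw [hc0]
    nlinarith
  obtain ⟨D0, hD0⟩ : ∃ D0 : ℝ, D0 = (2 * (⌊Real.exp c0⌋₊ : ℝ) + 1) ^ 2 := ⟨_, rfl⟩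
  have hD0' : 0 ≤ D0 := by rw [hD0]; positivity
  refine ⟨D0 + D * (1 + 1 / Real.log (rho k)), by positivity, fun M H hM hH F hF => ?_⟩
  have hlH : 0 ≤ Real.log H := Real.log_nonneg hH
  have hMp : 1 ≤ M ^ (1 + 1 / (k : ℝ)) := Real.one_le_rpow hM (by positivity)
  set F1 := F.filter fun t => Real.log (ht t) ≤ c0 with hF1
  set F2 := F.filter fun t => ¬ Real.log (ht t) ≤ c0 with hF2
  have hcardN : F.card = F1.card + F2.card :=
    (Finset.card_filter_add_card_filter_not (s := F) (fun t => Real.log (ht t) ≤ c0)).symm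
  have hcard : (F.card : ℝ) = F1.card + F2.card := by
    rw [hcardN, Nat.cast_add]
  have c1 : (F1.card : ℝ) ≤ D0 := by
    have h1 := small_height L c0 F1 (fun t ht => by
      obtain ⟨b1, b2⟩ := Finset.mem_filter.1 ht
      exact ⟨(hF t b1).1, b2⟩)
    rw [hD0]
    exact_mod_cast h1
  have c2 : (F2.card : ℝ) ≤ D * M ^ (1 + 1 / (k : ℝ)) * ((1 + 1 / Real.log (rho k)) *
      (1 + Real.log H)) := by
    rcases le_or_gt c0 H with hcase | hcase
    · obtain ⟨J, hJ, G, hG, hGc⟩ := scales hk (l0 := c0) (H := H) (by linarith) hcase F2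
        (fun t ht => by
          obtain ⟨b1, b2⟩ := Finset.mem_filter.1 ht
          exact ⟨(not_le.1 b2).le, (hF t b1).2.1⟩)
      have hGj : ∀ j ∈ Finset.range (J + 1), ((G j).card : ℝ) ≤ D * M ^ (1 + 1 / (k : ℝ)) := by
        intro j _
        refine h M (c0 * rho k ^ j) hM ?_ (G j) fun t ht => ?_
        · have : 1 ≤ rho k ^ j := one_le_pow₀ hρ.le
          exact le_mul_of_one_le_right (by linarith) this
        · obtain ⟨d1, d2⟩ := hG j t ht
          obtain ⟨b1, b2⟩ := Finset.mem_filter.1 d1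
          exact ⟨(hF t b1).1, d2, (hF t b1).2.2 (not_le.1 b2).le⟩
      have h3 : (F2.card : ℝ) ≤ ∑ j ∈ Finset.range (J + 1), ((G j).card : ℝ) := by
        exact_mod_cast hGc
      refine (h3.trans (Finset.sum_le_sum hGj)).trans ?_
      rw [Finset.sum_const, Finset.card_range, nsmul_eq_mul, mul_comm]
      refine mul_le_mul_of_nonneg_left ?_ (by positivity)
      have h4 : (J : ℝ) * Real.log (rho k) ≤ Real.log H := by
        rw [← Real.log_pow]
        refine Real.log_le_log (by positivity) ?_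
        refine le_trans ?_ hJ
        have : 0 < rho k ^ J := by positivity
        exact le_mul_of_one_le_left this.le hc0p
      have h5 : (J : ℝ) ≤ 1 / Real.log (rho k) * Real.log H := by
        rw [one_div, ← div_eq_inv_mul, le_div_iff₀ hlρ]
        exact h4
      push_cast
      have h6 : 0 < 1 / Real.log (rho k) := by positivity
      have h7 : 0 ≤ 1 / Real.log (rho k) * 1 := by positivity
      have h8 : (1 + 1 / Real.log (rho k)) * (1 + Real.log H) =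
        1 + Real.log H + 1 / Real.log (rho k) + 1 / Real.log (rho k) * Real.log H := by ring
      rw [h8]
      linarith
    · have : F2 = ∅ := by
        rw [Finset.eq_empty_iff_forall_notMem]
        intro t ht
        obtain ⟨b1, b2⟩ := Finset.mem_filter.1 ht
        have := (hF t b1).2.1
        linarith [not_le.1 b2]
      rw [this, Finset.card_empty, Nat.cast_zero]
      positivity
  rw [hcard]
  have c3 : D0 ≤ D0 * M ^ (1 + 1 / (k : ℝ)) * (1 + Real.log H) := by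
    have : 1 ≤ M ^ (1 + 1 / (k : ℝ)) * (1 + Real.log H) := by nlinarith
    calc D0 = D0 * 1 := (mul_one _).symm
      _ ≤ D0 * (M ^ (1 + 1 / (k : ℝ)) * (1 + Real.log H)) := mul_le_mul_of_nonneg_left this hD0'
      _ = _ := by ring
  calc (F1.card : ℝ) + F2.card ≤ D0 * M ^ (1 + 1 / (k : ℝ)) * (1 + Real.log H) +
      D * M ^ (1 + 1 / (k : ℝ)) * ((1 + 1 / Real.log (rho k)) * (1 + Real.log H)) := by linarith
    _ = _ := by ring

end NZ

/-- all the primes together are light -/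
theorem light_all {d : ℕ} {L : Fm (d + 3)} {k : ℕ} (hk : 2 ≤ k) {P : ℤ × ℤ} (h : Pt L P)
    (hH : 4 * (k : ℝ) * cL L ≤ Real.log (ht P)) :
    ∃ I, Light L k (Np L P).primeFactors I P := by
  classical
  have hk2 : (2 : ℝ) ≤ k := by exact_mod_cast hk
  have hk0 : (0 : ℝ) < k := by linarith
  have hc := cL_ge L
  obtain ⟨i0, -, hi0⟩ := Finset.exists_min_image (Finset.univ : Finset (Fin (d + 3)))
    (fun i => va L P i) ⟨0, Finset.mem_univ _⟩
  obtain ⟨B, hB⟩ : ∃ B : Fin (d + 3), B = i0.succAbove 0 := ⟨_, rfl⟩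
  obtain ⟨C, hC⟩ : ∃ C : Fin (d + 3), C = i0.succAbove 1 := ⟨_, rfl⟩
  have h0B : i0 ≠ B := by rw [hB]; exact (Fin.succAbove_ne i0 _).symm
  have h0C : i0 ≠ C := by rw [hC]; exact (Fin.succAbove_ne i0 _).symm
  have hBC : B ≠ C := by
    rw [hB, hC]
    intro he
    have := Fin.succAbove_right_injective he
    exact absurd (congrArg Fin.val this) (by simp)
  have hS : ∀ q ∈ (Np L P).primeFactors, q.Prime := fun q hq => Nat.prime_of_mem_primeFactors hq
  have hsub : ∀ i, (va L P i).primeFactors ⊆ (Np L P).primeFactors := fun i =>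
    Nat.primeFactors_mono (dvd_Np L P i) (Np_pos h).ne'
  have h1 := weight_ge h h0B hBC h0C (Q := Sd L P i0) hS (fun q hq => ty_Sd hq)
    (Finset.filter_subset _ _) (hsub B) (hsub C)
  have h2 := Sd_weight h i0
  have h3 := log_va_ge h h0B (hi0 B (Finset.mem_univ _))
  have h4 := log_va_ge h h0C (hi0 C (Finset.mem_univ _))
  refine ⟨i0, ?_⟩
  have n1 := Real.log_natCast_nonneg (Rs L)
  have n2 := Real.log_natCast_nonneg (U L)
  have h5 : 8 * cL L ≤ Real.log (ht P) := by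
    refine le_trans ?_ hH
    nlinarith
  have h6 : Real.log (ht P) / k ≤ Real.log (ht P) / 2 :=
    div_le_div_of_nonneg_left (by linarith) (by norm_num) hk2
  have e2 : (1 + 1 / (k : ℝ)) * Real.log (ht P) = Real.log (ht P) + Real.log (ht P) / k := by
    ring
  rw [Light, e2]
  unfold cL at h5
  linarith

/-- the trivial bound -/
theorem trivial_upper {d : ℕ} (L : Fm (d + 3)) (ε : ℝ) (hε : 0 < ε) : ∃ D : ℝ, 0 < D ∧
    ∀ X H : ℝ, 1 ≤ X → 1 ≤ H → ∀ F : Finset (ℤ × ℤ), (∀ t ∈ F, Pt L t ∧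
      ∑ i, rr L t i ≤ Real.log X ∧ Real.log (ht t) ≤ H) →
      (F.card : ℝ) ≤ D * X ^ (1 + ε) * (1 + Real.log H) := by
  obtain ⟨k0, hk0⟩ : ∃ k : ℕ, 1 / ε ≤ k := exists_nat_ge _
  obtain ⟨k, hkd⟩ : ∃ k : ℕ, k = k0 + 2 := ⟨_, rfl⟩
  have hkp : (0 : ℝ) < k := by
    have : 0 < k := by omega
    exact_mod_cast this
  have hk1 : 1 ≤ k := by omega
  have hkε : 1 / (k : ℝ) ≤ ε := by
    have h1 : 1 / ε ≤ (k : ℝ) := hk0.trans (by rw [hkd]; push_cast; linarith)
    rw [div_le_iff₀ hε] at h1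
    rw [div_le_iff₀ hkp]
    linarith
  obtain ⟨D, hD, h⟩ := light_total (L := L) (by omega) hk1
  refine ⟨D, hD, fun X H hX hH F hF => ?_⟩
  have hX0 : 0 < X := by linarith
  have h1 := h X H hX hH F (fun t ht => by
    obtain ⟨a1, a2, a3⟩ := hF t ht
    refine ⟨a1, a3, fun hH => ⟨(Np L t).primeFactors,
      fun q hq => Nat.prime_of_mem_primeFactors hq, light_all (by omega) a1 hH, ?_⟩⟩
    have hpos : 0 < ∏ q ∈ (Np L t).primeFactors, q :=
      Finset.prod_pos fun q hq => (Nat.prime_of_mem_primeFactors hq).pos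
    rw [← Real.log_le_log_iff (by exact_mod_cast hpos) hX0,
      log_prod_primes (fun q hq => Nat.prime_of_mem_primeFactors hq), ← rr_sum]
    exact a2)
  refine h1.trans ?_
  have hlH : 0 ≤ Real.log H := Real.log_nonneg hH
  refine mul_le_mul_of_nonneg_right ?_ (by linarith)
  refine mul_le_mul_of_nonneg_left ?_ hD.le
  exact Real.rpow_le_rpow_of_exponent_le hX (by linarith)

end Pool.Agent.TH867.QF
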